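import Mathlib

set_option autoImplicit false

namespace Run7.h728

/-- `D` directs each edge of `G` one way. -/
def IsOrientation {n : ℕ} (G : SimpleGraph (Fin n)) (D : Fin n → Fin n → Prop) : Prop :=
  (∀ u v, D u v → G.Adj u v) ∧ ∀ u v, G.Adj u v → Xor (D u v) (D v u)

/-- Every colour class of `c` is acyclic in `D`: there is no monochromatic directed cycle. -/
def IsDicolouring {n k : ℕ} (D : Fin n → Fin n → Prop) (c : Fin n → Fin k) : Prop :=
  ∀ x, ¬ Relation.TransGen (fun u v => D u v ∧ c u = c v) x x

/-- The dichromatic number of the graph `G`: the least `k` such that every orientation of `G`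
has a `k`-colouring of the vertices with acyclic colour classes. -/
noncomputable def delta {n : ℕ} (G : SimpleGraph (Fin n)) : ℕ :=
  sInf {k | ∀ D, IsOrientation G D → ∃ c : Fin n → Fin k, IsDicolouring D c}

/-- The cochromatic number of `G`: the least `k` such that the vertices can be coloured with `k`
colours, every class inducing a complete graph or an edgeless graph. -/
noncomputable def zeta {n : ℕ} (G : SimpleGraph (Fin n)) : ℕ :=
  sInf {k | ∃ c : Fin n → Fin k, ∀ i, G.IsClique (c ⁻¹' {i}) ∨ G.IsIndepSet (c ⁻¹' {i})}

end Run7.h728
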