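import Mathlib
import Pool.Agent.Run7.h728.Defs

set_option autoImplicit false

open Finset

namespace Run7.h728

lemma delta_set_mem {n : ℕ} (G : SimpleGraph (Fin n)) :
    ∀ D, IsOrientation G D → ∃ c : Fin n → Fin n, IsDicolouring D c := by
  intro D hD
  refine ⟨id, fun x hx => ?_⟩
  have h1 : ∀ y, Relation.TransGen (fun u v => D u v ∧ id u = id v) x y → False := by
    intro y hy
    induction hy with
    | single h => exact (hD.1 _ _ h.1).ne h.2
    | tail _ _ ih => exact ih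
  exact h1 x hx

lemma delta_spec {n : ℕ} (G : SimpleGraph (Fin n)) :
    ∀ D, IsOrientation G D → ∃ c : Fin n → Fin (delta G), IsDicolouring D c :=
  Nat.sInf_mem (s := {k | ∀ D, IsOrientation G D → ∃ c : Fin n → Fin k, IsDicolouring D c})
    ⟨n, delta_set_mem G⟩

/-- an acyclic relation on a finite type has a height function -/
lemma exists_height {V : Type*} [Fintype V] (r : V → V → Prop)
    (h : ∀ x, ¬ Relation.TransGen r x x) : ∃ f : V → ℕ, ∀ u v, r u v → f u < f v := by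
  classical
  refine ⟨fun v => (univ.filter fun u => Relation.TransGen r u v).card, fun u v huv => ?_⟩
  apply Finset.card_lt_card
  refine ⟨fun w hw => ?_, fun hsub => ?_⟩
  · rw [mem_filter] at hw ⊢
    exact ⟨mem_univ _, hw.2.tail huv⟩
  · have : u ∈ univ.filter fun u' => Relation.TransGen r u' v :=
      mem_filter.mpr ⟨mem_univ _, Relation.TransGen.single huv⟩
    exact h u (mem_filter.mp (hsub this)).2

lemma zeta_le_chromatic {n : ℕ} (G : SimpleGraph (Fin n)) {q : ℕ} (h : G.Colorable q) :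
    zeta G ≤ q := by
  obtain ⟨c⟩ := h
  refine Nat.sInf_le ⟨c, fun i => Or.inr ?_⟩
  intro u hu v hv _ hadj
  have h1 : c u = i := hu
  have h2 : c v = i := hv
  exact c.valid hadj (h1.trans h2.symm)

/-- the orientation of `G` pulled back from a tournament along a proper colouring -/
lemma pullback_orientation {n q : ℕ} (G : SimpleGraph (Fin n)) (κ : Fin n → Fin q)
    (hκ : ∀ u v, G.Adj u v → κ u ≠ κ v) (R : Fin q → Fin q → Prop)
    (hR : ∀ a b, a ≠ b → Xor (R a b) (R b a)) :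
    IsOrientation G (fun u v => G.Adj u v ∧ R (κ u) (κ v)) := by
  refine ⟨fun u v h => h.1, fun u v h => ?_⟩
  have h1 := hR _ _ (hκ u v h)
  simpa [h, h.symm] using h1

lemma log_pow_bound : ∀ m : ℕ, (m + 1) ^ 8 ≤ 2 ^ 18 * 2 ^ m := by
  intro m
  rcases Nat.lt_or_ge m 12 with h | h
  · interval_cases m <;> norm_num
  · induction m, h using Nat.le_induction with
    | base => norm_num
    | succ n hn ih =>
        have h2 : (n + 1 + 1) * 12 ≤ (n + 1) * 13 := by omega
        have h3 : ((n + 1 + 1) * 12) ^ 8 ≤ ((n + 1) * 13) ^ 8 := Nat.pow_le_pow_left h2 8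
        rw [mul_pow, mul_pow] at h3
        have h5 : (n + 1 + 1) ^ 8 * 12 ^ 8 ≤ (2 * (n + 1) ^ 8) * 12 ^ 8 := by
          calc (n + 1 + 1) ^ 8 * 12 ^ 8 ≤ (n + 1) ^ 8 * 13 ^ 8 := h3
            _ ≤ (n + 1) ^ 8 * (2 * 12 ^ 8) := by gcongr; norm_num
            _ = (2 * (n + 1) ^ 8) * 12 ^ 8 := by ring
        have h6 := Nat.le_of_mul_le_mul_right h5 (by positivity)
        calc (n + 1 + 1) ^ 8 ≤ 2 * (n + 1) ^ 8 := h6
          _ ≤ 2 * (2 ^ 18 * 2 ^ n) := by gcongr
          _ = 2 ^ 18 * 2 ^ (n + 1) := by ring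

/-- solving `q ≤ k C log⁴ q` -/
lemma solve_log (C q k : ℕ) (h : q ≤ k * (C * (Nat.log 2 q + 1) ^ 4)) :
    q ≤ (C * (2 * (Nat.log 2 (512 * C) + 2)) ^ 4) * k * (Nat.log 2 k + 1) ^ 4 := by
  rcases Nat.eq_zero_or_pos q with hq | hq
  · rw [hq]; exact Nat.zero_le _
  set lam := Nat.log 2 q + 1 with hlam
  have h1 : lam ^ 8 ≤ 2 ^ 18 * q := by
    refine (log_pow_bound (Nat.log 2 q)).trans ?_
    gcongr
    exact Nat.pow_log_le_self 2 hq.ne'
  have h2 : q * q ≤ (512 * C * k) ^ 2 * q := by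
    calc q * q ≤ (k * (C * lam ^ 4)) * (k * (C * lam ^ 4)) := Nat.mul_le_mul h h
      _ = (C * k) ^ 2 * lam ^ 8 := by ring
      _ ≤ (C * k) ^ 2 * (2 ^ 18 * q) := by gcongr
      _ = (512 * C * k) ^ 2 * q := by ring
  have h3 : q ≤ (512 * C * k) ^ 2 := Nat.le_of_mul_le_mul_right h2 hq
  set a := Nat.log 2 (512 * C) + 1 with ha
  set b := Nat.log 2 k + 1 with hb
  have h4 : 512 * C < 2 ^ a := Nat.lt_pow_succ_log_self (by norm_num) _
  have h5 : k < 2 ^ b := Nat.lt_pow_succ_log_self (by norm_num) _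
  have h6 : q < 2 ^ (2 * (a + b)) := by
    refine lt_of_le_of_lt h3 ?_
    calc (512 * C * k) ^ 2 < (2 ^ a * 2 ^ b) ^ 2 := by
          apply Nat.pow_lt_pow_left _ (by norm_num)
          exact Nat.mul_lt_mul'' h4 h5
      _ = 2 ^ (2 * (a + b)) := by rw [← pow_add, ← pow_mul, mul_comm]
  have h7 : Nat.log 2 q < 2 * (a + b) := Nat.log_lt_of_lt_pow hq.ne' h6
  have h8 : lam ≤ (2 * (a + 1)) * b := by
    have hb1 : 1 ≤ b := by omega
    have : a + b ≤ (a + 1) * b := by nlinarith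
    calc lam ≤ 2 * (a + b) := by omega
      _ ≤ 2 * ((a + 1) * b) := by gcongr
      _ = (2 * (a + 1)) * b := by ring
  calc q ≤ k * (C * lam ^ 4) := h
    _ ≤ k * (C * ((2 * (a + 1)) * b) ^ 4) := by gcongr
    _ = (C * (2 * (a + 1)) ^ 4) * k * b ^ 4 := by ring

end Run7.h728
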