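import Mathlib

set_option autoImplicit false

open Finset

namespace Run7.h728

variable {V : Type*} {q : ℕ}

/-- `G` restricted to the vertices with property `s` is properly `N`-colourable. -/
def ColOn (G : SimpleGraph V) (s : V → Prop) (N : ℕ) : Prop :=
  ∃ c : V → ℕ, (∀ v, s v → c v < N) ∧ ∀ u v, s u → s v → G.Adj u v → c u ≠ c v

lemma colOn_of_fintype {G : SimpleGraph V} {s : V → Prop} {α : Type*} [Fintype α]
    (c : V → α) (h : ∀ u v, s u → s v → G.Adj u v → c u ≠ c v) :
    ColOn G s (Fintype.card α) := by
  refine ⟨fun v => (Fintype.equivFin α (c v) : ℕ), fun v _ => (Fintype.equivFin α (c v)).2, ?_⟩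
  intro u v hu hv huv heq
  exact h u v hu hv huv ((Fintype.equivFin α).injective (Fin.ext heq))

lemma ColOn.mono {G : SimpleGraph V} {s : V → Prop} {N M : ℕ} (h : ColOn G s N) (hNM : N ≤ M) :
    ColOn G s M := by
  obtain ⟨c, h1, h2⟩ := h
  exact ⟨c, fun v hv => (h1 v hv).trans_le hNM, h2⟩

lemma ColOn.subset {G : SimpleGraph V} {s t : V → Prop} {N : ℕ} (h : ColOn G t N)
    (hst : ∀ v, s v → t v) : ColOn G s N := by
  obtain ⟨c, h1, h2⟩ := h
  exact ⟨c, fun v hv => h1 v (hst v hv), fun u v hu hv => h2 u v (hst u hu) (hst v hv)⟩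

lemma ColOn.union {G : SimpleGraph V} {s t : V → Prop} {N M : ℕ} (hs : ColOn G s N)
    (ht : ColOn G t M) : ColOn G (fun v => s v ∨ t v) (N + M) := by
  classical
  obtain ⟨c, h1, h2⟩ := hs
  obtain ⟨c', h1', h2'⟩ := ht
  refine ⟨fun v => if s v then c v else N + c' v, ?_, ?_⟩
  · intro v hv
    by_cases hsv : s v
    · simp only [hsv, if_true]
      have := h1 v hsv
      omega
    · simp only [hsv, if_false]
      have := h1' v (hv.resolve_left hsv)
      omega
  · intro u v hu hv huv
    by_cases hsu : s u <;> by_cases hsv : s v <;> simp only [hsu, hsv, if_true, if_false]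
    · exact h2 u v hsu hsv huv
    · have := h1 u hsu; omega
    · have := h1 v hsv; omega
    · have := h2' u v (hu.resolve_left hsu) (hv.resolve_left hsv) huv
      omega

/-- Colouring from cover-free families of polynomials: if every edge inside `s` is witnessed by
the type of one end belonging to a small exceptional set of types of the other end, then few
colours suffice. -/
theorem cover_free (G : SimpleGraph V) (κ : V → Fin q) (E : V → Finset (Fin q)) (s : V → Prop)
    (r : ℕ) (hr1 : 1 ≤ r) (hr : ∀ u, s u → (E u).card ≤ r) (hκE : ∀ u, s u → κ u ∉ E u)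
    (hE : ∀ u v, s u → s v → G.Adj u v → κ u ∈ E v ∨ κ v ∈ E u) :
    ColOn G s ((2 * (r * (Nat.log 2 q + 1))) ^ 2) := by
  classical
  set d := Nat.log 2 q + 1 with hd
  obtain ⟨p, hp, hp1, hp2⟩ := Nat.exists_prime_lt_and_le_two_mul (r * d) (by positivity)
  have : Fact p.Prime := ⟨hp⟩
  have hqp : Fintype.card (Fin q) ≤ Fintype.card (Fin d → ZMod p) := by
    rw [Fintype.card_fin, Fintype.card_fun, ZMod.card, Fintype.card_fin]
    calc q ≤ 2 ^ d := (Nat.lt_pow_succ_log_self (by norm_num) q).le
      _ ≤ p ^ d := Nat.pow_le_pow_left hp.two_le d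
  obtain ⟨ι⟩ := Function.Embedding.nonempty_of_card_le hqp
  let g : Fin q → Polynomial (ZMod p) := fun a =>
    (((Polynomial.degreeLTEquiv (ZMod p) d).symm (ι a) : Polynomial.degreeLT (ZMod p) d) :
      Polynomial (ZMod p))
  have hg : Function.Injective g := by
    intro a b h
    exact ι.injective ((Polynomial.degreeLTEquiv (ZMod p) d).symm.injective (Subtype.ext h))
  have hgd : ∀ a b, a ≠ b → ((g a - g b).roots.toFinset).card ≤ d := by
    intro a b hab
    have hmem : g a - g b ∈ Polynomial.degreeLT (ZMod p) d :=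
      Submodule.sub_mem _ (Subtype.mem _) (Subtype.mem _)
    rw [Polynomial.mem_degreeLT] at hmem
    have h1 := Multiset.toFinset_card_le (g a - g b).roots
    have h2 := Polynomial.card_roots' (g a - g b)
    have h3 : (g a - g b).natDegree ≤ d := Polynomial.natDegree_le_of_degree_le hmem.le
    omega
  have hx : ∀ u, s u → ∃ x : ZMod p, ∀ a ∈ E u, (g a).eval x ≠ (g (κ u)).eval x := by
    intro u hu
    have hcard : ((E u).biUnion fun a => (g a - g (κ u)).roots.toFinset).card <
        (univ : Finset (ZMod p)).card := by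
      rw [Finset.card_univ, ZMod.card]
      refine lt_of_le_of_lt Finset.card_biUnion_le (lt_of_le_of_lt ?_ hp1)
      calc ∑ a ∈ E u, ((g a - g (κ u)).roots.toFinset).card ≤ ∑ a ∈ E u, d := by
            apply Finset.sum_le_sum
            intro a ha
            apply hgd
            rintro rfl
            exact hκE u hu ha
        _ = (E u).card * d := by rw [Finset.sum_const, smul_eq_mul]
        _ ≤ r * d := by gcongr; exact hr u hu
    obtain ⟨x, _, hx⟩ := Finset.exists_mem_notMem_of_card_lt_card hcard
    refine ⟨x, fun a ha heq => hx (mem_biUnion.mpr ⟨a, ha, ?_⟩)⟩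
    rw [Multiset.mem_toFinset, Polynomial.mem_roots]
    · rw [Polynomial.IsRoot, Polynomial.eval_sub, heq, sub_self]
    · intro h0
      have : g a = g (κ u) := sub_eq_zero.mp h0
      rw [hg this] at ha
      exact hκE u hu ha
  choose! x hx using hx
  have hcol := colOn_of_fintype (G := G) (s := s)
    (fun v => ((x v, (g (κ v)).eval (x v)) : ZMod p × ZMod p)) (by
      intro u v hu hv huv heq
      simp only [Prod.mk.injEq] at heq
      rcases hE u v hu hv huv with h | h
      · apply hx v hv _ h
        rw [← heq.2, heq.1]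
      · apply hx u hu _ h
        rw [heq.2, heq.1])
  refine hcol.mono ?_
  rw [Fintype.card_prod, ZMod.card, ← sq]
  exact Nat.pow_le_pow_left hp2 2

end Run7.h728
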