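import Mathlib
import Pool.Agent.Run7.h728.Basic
import Pool.Agent.Run7.h728.CoverFree

set_option autoImplicit false

open Finset

namespace Run7.h728

/-- If every class of the pulled back orientation is `N`-colourable, then `G` is
`k * N`-colourable. -/
theorem assemble {n q k N : ℕ} (G : SimpleGraph (Fin n)) (κ : Fin n → Fin q)
    (hκ : ∀ u v, G.Adj u v → κ u ≠ κ v) (R : Fin q → Fin q → Prop)
    (hR : ∀ a b, a ≠ b → Xor (R a b) (R b a)) (c : Fin n → Fin k)
    (hc : IsDicolouring (fun u v => G.Adj u v ∧ R (κ u) (κ v)) c)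
    (hN : ∀ (W : Set (Fin n)) (f : W → ℕ),
      (∀ u v : W, (G.induce W).Adj u v → (R (κ u) (κ v) ↔ f u < f v)) →
      ColOn (G.induce W) (fun _ => True) N) : G.Colorable (k * N) := by
  classical
  obtain ⟨f, hf⟩ := exists_height _ hc
  have hcol : ∀ i : Fin k, ∃ g : Fin n → ℕ, (∀ v, c v = i → g v < N) ∧
      ∀ u v, c u = i → c v = i → G.Adj u v → g u ≠ g v := by
    intro i
    have hW := hN {v | c v = i} (fun v => f v.1) (by
      intro u v huv
      have huv' : G.Adj u.1 v.1 := by simpa using huv
      have hu : c u.1 = i := u.2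
      have hv : c v.1 = i := v.2
      constructor
      · intro h
        exact hf _ _ ⟨⟨huv', h⟩, hu.trans hv.symm⟩
      · intro h
        by_contra hno
        have h1 := hR _ _ (hκ _ _ huv')
        have h2 : R (κ v.1) (κ u.1) := by
          rcases h1 with h1 | h1
          · exact absurd h1.1 hno
          · exact h1.1
        have h3 := hf _ _ ⟨⟨huv'.symm, h2⟩, hv.trans hu.symm⟩
        have h4 : f u.1 < f v.1 := h
        omega)
    obtain ⟨g, h1, h2⟩ := hW
    refine ⟨fun v => if h : c v = i then g ⟨v, h⟩ else 0, ?_, ?_⟩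
    · intro v hv
      simp only [hv, dif_pos]
      exact h1 ⟨v, hv⟩ trivial
    · intro u v hu hv huv
      simp only [hu, hv, dif_pos]
      exact h2 ⟨u, hu⟩ ⟨v, hv⟩ trivial trivial (by simpa using huv)
  choose g hg1 hg2 using hcol
  have hG : G.Coloring (Fin k × Fin N) :=
    SimpleGraph.Coloring.mk (fun v => (c v, ⟨g (c v) v, hg1 _ _ rfl⟩)) (by
      intro u v huv heq
      simp only [Prod.mk.injEq, Fin.mk.injEq] at heq
      have h1 := hg2 (c u) u v rfl heq.1.symm huv
      apply h1
      rw [heq.2, heq.1])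
  have := hG.colorable
  rw [Fintype.card_prod, Fintype.card_fin, Fintype.card_fin] at this
  exact this

end Run7.h728
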