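import Mathlib

set_option autoImplicit false

open Finset

namespace Run7.h728

/-- The tournament on `Fin q` coded by `r`. -/
def Rel {q : ℕ} (r : Fin q × Fin q → Bool) (a b : Fin q) : Prop :=
  (a < b ∧ r (a, b) = true) ∨ (b < a ∧ r (b, a) = false)

lemma rel_xor {q : ℕ} (r : Fin q × Fin q → Bool) {a b : Fin q} (h : a ≠ b) :
    Xor (Rel r a b) (Rel r b a) := by
  unfold Rel Xor
  rcases lt_or_gt_of_ne h with h1 | h1
  · have h2 : ¬ b < a := not_lt.mpr h1.le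
    cases hr : r (a, b) <;> simp [h1, h2]
  · have h2 : ¬ a < b := not_lt.mpr h1.le
    cases hr : r (b, a) <;> simp [h1, h2]

lemma mismatch_arith (b N K : ℕ) (hNK : N ≤ K)
    (hmain : b * 8 ^ (N - N / 10) ≤ 9 ^ N * 2 ^ (K - N)) :
    b ^ 2 * 2 ^ N ≤ (2 ^ K) ^ 2 := by
  have h10 : (b ^ 2 * 2 ^ N) ^ 5 ≤ ((2 ^ K) ^ 2) ^ 5 := by
    have ha : (b * 8 ^ (N - N / 10)) ^ 10 ≤ (9 ^ N * 2 ^ (K - N)) ^ 10 :=
      Nat.pow_le_pow_left hmain 10
    have hb : (9 : ℕ) ^ (10 * N) ≤ 2 ^ (32 * N) := by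
      rw [pow_mul, pow_mul]
      exact Nat.pow_le_pow_left (by norm_num) N
    have hc : (2 : ℕ) ^ (27 * N) ≤ (8 ^ (N - N / 10)) ^ 10 := by
      have h8 : ((8 : ℕ) ^ (N - N / 10)) ^ 10 = 2 ^ (3 * ((N - N / 10) * 10)) := by
        rw [pow_mul 2 3, ← pow_mul 8]
        norm_num
      rw [h8]
      apply Nat.pow_le_pow_right (by norm_num)
      omega
    have hd : b ^ 10 * 2 ^ (27 * N) * 2 ^ (10 * N) ≤ 2 ^ (32 * N) * 2 ^ (10 * K) := by
      calc b ^ 10 * 2 ^ (27 * N) * 2 ^ (10 * N)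
          ≤ b ^ 10 * (8 ^ (N - N / 10)) ^ 10 * 2 ^ (10 * N) := by gcongr
        _ = (b * 8 ^ (N - N / 10)) ^ 10 * 2 ^ (10 * N) := by rw [mul_pow]
        _ ≤ (9 ^ N * 2 ^ (K - N)) ^ 10 * 2 ^ (10 * N) := by gcongr
        _ = 9 ^ (10 * N) * (2 ^ (10 * (K - N)) * 2 ^ (10 * N)) := by
            rw [mul_pow, ← pow_mul, ← pow_mul, mul_comm N 10, mul_comm (K - N) 10, mul_assoc]
        _ = 9 ^ (10 * N) * 2 ^ (10 * K) := by
            rw [← pow_add]; congr 2; omega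
        _ ≤ 2 ^ (32 * N) * 2 ^ (10 * K) := by gcongr
    have he' : b ^ 10 * 2 ^ (27 * N) * 2 ^ (10 * N) = 2 ^ (32 * N) * (b ^ 10 * 2 ^ (5 * N)) := by
      have : (2 : ℕ) ^ (27 * N) * 2 ^ (10 * N) = 2 ^ (32 * N) * 2 ^ (5 * N) := by
        rw [← pow_add, ← pow_add]; congr 1; omega
      rw [mul_assoc, this]; ring
    rw [he'] at hd
    have hf : b ^ 10 * 2 ^ (5 * N) ≤ 2 ^ (10 * K) :=
      Nat.le_of_mul_le_mul_left hd (by positivity)
    calc (b ^ 2 * 2 ^ N) ^ 5 = b ^ 10 * 2 ^ (5 * N) := by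
          rw [mul_pow, ← pow_mul, ← pow_mul, mul_comm N 5]
      _ ≤ 2 ^ (10 * K) := hf
      _ = ((2 ^ K) ^ 2) ^ 5 := by
          rw [← pow_mul, ← pow_mul]; congr 1; omega
  exact le_of_pow_le_pow_left₀ (by norm_num) (Nat.zero_le _) h10

/-- the number of maps with few mismatches on a set of coordinates -/
lemma mismatch_count {K I : Type*} [Fintype K] [DecidableEq K] [Fintype I] [DecidableEq I]
    (e : I → K) (he : Function.Injective e) (τ : I → Bool) :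
    ((univ.filter fun r : K → Bool =>
      10 * (univ.filter fun p : I => r (e p) ≠ τ p).card ≤ Fintype.card I).card) ^ 2
      * 2 ^ (Fintype.card I) ≤ (2 ^ Fintype.card K) ^ 2 := by
  classical
  set N := Fintype.card I with hN
  set B := univ.filter fun r : K → Bool =>
      10 * (univ.filter fun p : I => r (e p) ≠ τ p).card ≤ N with hB
  -- weights
  let φ : K → Bool → ℕ := fun x b => if ∃ p, e p = x ∧ τ p = b then 8 else 1
  have hprod : ∀ r : K → Bool, ∏ x, φ x (r x) = 8 ^ (univ.filter fun p : I => r (e p) = τ p).card := by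
    intro r
    have h1 : ∏ x, φ x (r x) = ∏ x ∈ univ.filter (fun x => ∃ p, e p = x ∧ τ p = r x), 8 := by
      rw [Finset.prod_filter]
    rw [h1, Finset.prod_const]
    congr 1
    have h2 : univ.filter (fun x => ∃ p, e p = x ∧ τ p = r x)
        = (univ.filter fun p : I => r (e p) = τ p).image e := by
      ext x
      simp only [mem_filter, mem_univ, true_and, mem_image]
      constructor
      · rintro ⟨p, rfl, hp⟩
        exact ⟨p, hp.symm, rfl⟩
      · rintro ⟨p, hp, rfl⟩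
        exact ⟨p, rfl, hp.symm⟩
    rw [h2, Finset.card_image_of_injective _ he]
  have hsum : ∑ r : K → Bool, ∏ x, φ x (r x) = ∏ x, ∑ b, φ x b := by
    rw [Finset.prod_univ_sum, Fintype.piFinset_univ]
  have hfac : ∏ x, ∑ b, φ x b = 9 ^ N * 2 ^ (Fintype.card K - N) := by
    have h1 : ∀ x, ∑ b, φ x b = if x ∈ univ.image e then 9 else 2 := by
      intro x
      by_cases hx : x ∈ univ.image e
      · rw [if_pos hx]
        obtain ⟨p, -, rfl⟩ := mem_image.mp hx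
        have : ∀ b, φ (e p) b = if τ p = b then 8 else 1 := by
          intro b
          simp only [φ]
          congr 1
          apply propext
          constructor
          · rintro ⟨p', hp', h⟩
            rw [← he hp']; exact h
          · intro h
            exact ⟨p, rfl, h⟩
        simp only [this]
        cases τ p <;> simp
      · rw [if_neg hx]
        have : ∀ b, φ x b = 1 := by
          intro b
          simp only [φ]
          rw [if_neg]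
          rintro ⟨p, hp, -⟩
          exact hx (mem_image.mpr ⟨p, mem_univ _, hp⟩)
        simp [this]
    simp only [h1]
    rw [Finset.prod_ite, Finset.prod_const, Finset.prod_const]
    have h2 : (univ.filter fun x => x ∈ univ.image e).card = N := by
      rw [Finset.filter_mem_eq_inter, Finset.univ_inter, Finset.card_image_of_injective _ he]
      rfl
    have h3 : (univ.filter fun x => ¬ x ∈ univ.image e).card = Fintype.card K - N := by
      have := Finset.card_filter_add_card_filter_not (s := (univ : Finset K)) (fun x => x ∈ univ.image e)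
      rw [h2, Finset.card_univ] at this
      omega
    rw [h2, h3]
  have hNK : N ≤ Fintype.card K := Fintype.card_le_of_injective e he
  -- lower bound
  have hlow : ∀ r ∈ B, 8 ^ (N - N / 10) ≤ ∏ x, φ x (r x) := by
    intro r hr
    rw [hprod]
    apply Nat.pow_le_pow_right (by norm_num)
    have h1 := (mem_filter.mp hr).2
    have h2 := Finset.card_filter_add_card_filter_not (s := (univ : Finset I)) (fun p => r (e p) = τ p)
    rw [Finset.card_univ] at h2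
    simp only [ne_eq] at h1
    omega
  have hmain : B.card * 8 ^ (N - N / 10) ≤ 9 ^ N * 2 ^ (Fintype.card K - N) := by
    rw [← hfac, ← hsum]
    have hA : B.card * 8 ^ (N - N / 10) = ∑ r ∈ B, 8 ^ (N - N / 10) := by
      rw [Finset.sum_const, smul_eq_mul]
    rw [hA]
    refine le_trans (Finset.sum_le_sum hlow) ?_
    exact Finset.sum_le_sum_of_subset (Finset.subset_univ B)
  exact mismatch_arith B.card N (Fintype.card K) hNK hmain

/-- quasirandomness of a relation on `Fin q` at scale `ℓ`: on disjoint `ℓ`-sets it is far from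
every threshold pattern. -/
def QProp {q : ℕ} (R : Fin q → Fin q → Prop) (ℓ : ℕ) : Prop :=
  ∀ A B : Finset (Fin q), Disjoint A B → A.card = ℓ → B.card = ℓ → ∀ f g : Fin q → ℕ,
    ∀ F : Finset (Fin q × Fin q), (∀ a ∈ A, ∀ b ∈ B, ¬ (R a b ↔ f a < g b) → (a, b) ∈ F) →
      ℓ ^ 2 < 10 * F.card

open Classical in
/-- the bad codes for given data -/
noncomputable def badSet (q ℓ : ℕ)
    (x : ((Fin ℓ → Fin q) × (Fin ℓ → Fin q)) × ((Fin ℓ → Fin (2 * ℓ)) × (Fin ℓ → Fin (2 * ℓ)))) :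
    Finset (Fin q × Fin q → Bool) :=
  univ.filter fun r => Function.Injective x.1.1 ∧ Function.Injective x.1.2 ∧
    (∀ i j, x.1.1 i ≠ x.1.2 j) ∧
    10 * (univ.filter fun p : Fin ℓ × Fin ℓ =>
      ¬ (Rel r (x.1.1 p.1) (x.1.2 p.2) ↔ x.2.1 p.1 < x.2.2 p.2)).card ≤ ℓ ^ 2

lemma badSet_card (q ℓ : ℕ)
    (x : ((Fin ℓ → Fin q) × (Fin ℓ → Fin q)) × ((Fin ℓ → Fin (2 * ℓ)) × (Fin ℓ → Fin (2 * ℓ)))) :
    (badSet q ℓ x).card ^ 2 * 2 ^ (ℓ ^ 2) ≤ (2 ^ (q ^ 2)) ^ 2 := by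
  classical
  by_cases hx : Function.Injective x.1.1 ∧ Function.Injective x.1.2 ∧
    (∀ i j, x.1.1 i ≠ x.1.2 j)
  · obtain ⟨h1, h2, h3⟩ := hx
    let e : Fin ℓ × Fin ℓ → Fin q × Fin q := fun p =>
      if x.1.1 p.1 < x.1.2 p.2 then (x.1.1 p.1, x.1.2 p.2) else (x.1.2 p.2, x.1.1 p.1)
    let τ : Fin ℓ × Fin ℓ → Bool := fun p =>
      if x.1.1 p.1 < x.1.2 p.2 then decide (x.2.1 p.1 < x.2.2 p.2)
      else !(decide (x.2.1 p.1 < x.2.2 p.2))
    have he : Function.Injective e := by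
      rintro ⟨i, j⟩ ⟨i', j'⟩ h
      simp only [e] at h
      split_ifs at h with ha hb hb
      · simp only [Prod.mk.injEq] at h
        exact Prod.ext (h1 h.1) (h2 h.2)
      · simp only [Prod.mk.injEq] at h
        exact absurd h.1 (h3 _ _)
      · simp only [Prod.mk.injEq] at h
        exact absurd h.1.symm (h3 _ _)
      · simp only [Prod.mk.injEq] at h
        exact Prod.ext (h1 h.2) (h2 h.1)
    have hm := mismatch_count e he τ
    have hK : Fintype.card (Fin q × Fin q) = q ^ 2 := by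
      rw [Fintype.card_prod, Fintype.card_fin, sq]
    have hI : Fintype.card (Fin ℓ × Fin ℓ) = ℓ ^ 2 := by
      rw [Fintype.card_prod, Fintype.card_fin, sq]
    rw [hK, hI] at hm
    refine le_trans ?_ hm
    gcongr
    intro r hr
    have hr' := (mem_filter.mp hr).2.2.2.2
    refine mem_filter.mpr ⟨mem_univ _, ?_⟩
    refine le_trans ?_ hr'
    gcongr with p hp
    intro hiff
    simp only [e, τ]
    have hne := h3 p.1 p.2
    rcases lt_or_gt_of_ne hne with hlt | hgt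
    · rw [if_pos hlt, if_pos hlt]
      have hng : ¬ x.1.2 p.2 < x.1.1 p.1 := not_lt.mpr hlt.le
      have : Rel r (x.1.1 p.1) (x.1.2 p.2) ↔ r (x.1.1 p.1, x.1.2 p.2) = true := by
        unfold Rel; simp [hlt, hng]
      rw [this] at hiff
      by_cases hc : x.2.1 p.1 < x.2.2 p.2
      · simp [hc, hiff.mpr hc]
      · have : ¬ r (x.1.1 p.1, x.1.2 p.2) = true := fun h => hc (hiff.mp h)
        simp [hc, this]
    · have hnl : ¬ x.1.1 p.1 < x.1.2 p.2 := not_lt.mpr (le_of_lt hgt)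
      rw [if_neg hnl, if_neg hnl]
      have : Rel r (x.1.1 p.1) (x.1.2 p.2) ↔ r (x.1.2 p.2, x.1.1 p.1) = false := by
        unfold Rel; simp [hnl, show x.1.2 p.2 < x.1.1 p.1 from hgt]
      rw [this] at hiff
      by_cases hc : x.2.1 p.1 < x.2.2 p.2
      · simp [hc, hiff.mpr hc]
      · have : ¬ r (x.1.2 p.2, x.1.1 p.1) = false := fun h => hc (hiff.mp h)
        simp only [Bool.not_eq_false] at this
        simp [hc, this]
  · have : badSet q ℓ x = ∅ := by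
      apply Finset.filter_eq_empty_iff.mpr
      intro r _ h
      exact hx ⟨h.1, h.2.1, h.2.2.1⟩
    rw [this]
    simp

lemma badUnion_card (q ℓ : ℕ) (hc : 4 * (2 * ℓ * q) ^ 4 ≤ 2 ^ ℓ) :
    (univ.biUnion (badSet q ℓ)).card * 2 ^ ℓ ≤ 2 ^ (q ^ 2) := by
  classical
  have h1 : (univ.biUnion (badSet q ℓ)).card ≤ ∑ x, (badSet q ℓ x).card := Finset.card_biUnion_le
  have h2 : (∑ x, (badSet q ℓ x).card) ^ 2 ≤
      (univ : Finset (((Fin ℓ → Fin q) × (Fin ℓ → Fin q)) ×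
        ((Fin ℓ → Fin (2 * ℓ)) × (Fin ℓ → Fin (2 * ℓ))))).card * ∑ x, (badSet q ℓ x).card ^ 2 :=
    sq_sum_le_card_mul_sum_sq
  have hcard : (univ : Finset (((Fin ℓ → Fin q) × (Fin ℓ → Fin q)) ×
        ((Fin ℓ → Fin (2 * ℓ)) × (Fin ℓ → Fin (2 * ℓ))))).card = (2 * ℓ * q) ^ (2 * ℓ) := by
    rw [Finset.card_univ]
    simp only [Fintype.card_prod, Fintype.card_fun, Fintype.card_fin]
    rw [mul_pow (2 * ℓ) q, pow_mul' q, pow_mul' (2 * ℓ)]
    ring
  have h3 : (∑ x, (badSet q ℓ x).card ^ 2) * 2 ^ (ℓ ^ 2) ≤ (2 * ℓ * q) ^ (2 * ℓ) * (2 ^ (q ^ 2)) ^ 2 := by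
    rw [Finset.sum_mul]
    refine (Finset.sum_le_sum (fun x _ => badSet_card q ℓ x)).trans ?_
    rw [Finset.sum_const, smul_eq_mul, hcard]
  set b := (univ.biUnion (badSet q ℓ)).card with hb
  set Y := 2 ^ (q ^ 2) with hY
  have h4 : b ^ 2 * 2 ^ (ℓ ^ 2) ≤ (2 * ℓ * q) ^ (4 * ℓ) * Y ^ 2 := by
    calc b ^ 2 * 2 ^ (ℓ ^ 2) ≤ (∑ x, (badSet q ℓ x).card) ^ 2 * 2 ^ (ℓ ^ 2) := by gcongr
      _ ≤ ((2 * ℓ * q) ^ (2 * ℓ) * ∑ x, (badSet q ℓ x).card ^ 2) * 2 ^ (ℓ ^ 2) := by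
          rw [hcard] at h2; gcongr
      _ = (2 * ℓ * q) ^ (2 * ℓ) * ((∑ x, (badSet q ℓ x).card ^ 2) * 2 ^ (ℓ ^ 2)) := by ring
      _ ≤ (2 * ℓ * q) ^ (2 * ℓ) * ((2 * ℓ * q) ^ (2 * ℓ) * Y ^ 2) := by gcongr
      _ = (2 * ℓ * q) ^ (4 * ℓ) * Y ^ 2 := by
          rw [← mul_assoc, ← pow_add]; congr 2; omega
  have h5 : 4 ^ ℓ * (2 * ℓ * q) ^ (4 * ℓ) ≤ 2 ^ (ℓ ^ 2) := by
    rw [pow_mul, ← mul_pow, sq, pow_mul]
    exact Nat.pow_le_pow_left hc ℓ
  have h6 : 2 ^ (ℓ ^ 2) * (b ^ 2 * 4 ^ ℓ) ≤ 2 ^ (ℓ ^ 2) * Y ^ 2 := by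
    calc 2 ^ (ℓ ^ 2) * (b ^ 2 * 4 ^ ℓ) = 4 ^ ℓ * (b ^ 2 * 2 ^ (ℓ ^ 2)) := by ring
      _ ≤ 4 ^ ℓ * ((2 * ℓ * q) ^ (4 * ℓ) * Y ^ 2) := by gcongr
      _ = (4 ^ ℓ * (2 * ℓ * q) ^ (4 * ℓ)) * Y ^ 2 := by ring
      _ ≤ 2 ^ (ℓ ^ 2) * Y ^ 2 := by gcongr
  have h7 : b ^ 2 * 4 ^ ℓ ≤ Y ^ 2 := Nat.le_of_mul_le_mul_left h6 (by positivity)
  have h8 : (b * 2 ^ ℓ) ^ 2 ≤ Y ^ 2 := by
    calc (b * 2 ^ ℓ) ^ 2 = b ^ 2 * 4 ^ ℓ := by
          rw [mul_pow, ← pow_mul, mul_comm ℓ 2, pow_mul]; norm_num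
      _ ≤ Y ^ 2 := h7
  exact le_of_pow_le_pow_left₀ (by norm_num) (Nat.zero_le _) h8

lemma geom_half (n : ℕ) : ∑ ℓ ∈ Icc 1 n, (1 / 2 : ℝ) ^ ℓ = 1 - (1 / 2) ^ n := by
  induction n with
  | zero => simp
  | succ n ih => rw [Finset.sum_Icc_succ_top (by omega), ih, pow_succ]; ring

lemma exists_code (q : ℕ) : ∃ r : Fin q × Fin q → Bool, ∀ ℓ, 1 ≤ ℓ → ℓ ≤ q →
    4 * (2 * ℓ * q) ^ 4 ≤ 2 ^ ℓ → ∀ x, r ∉ badSet q ℓ x := by
  classical
  by_contra hcon
  push Not at hcon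
  let T := (Icc 1 q).filter fun ℓ => 4 * (2 * ℓ * q) ^ 4 ≤ 2 ^ ℓ
  have hcov : (univ : Finset (Fin q × Fin q → Bool)) ⊆
      T.biUnion fun ℓ => univ.biUnion (badSet q ℓ) := by
    intro r _
    obtain ⟨ℓ, h1, h2, h3, x, hx⟩ := hcon r
    refine mem_biUnion.mpr ⟨ℓ, mem_filter.mpr ⟨mem_Icc.mpr ⟨h1, h2⟩, h3⟩, ?_⟩
    exact mem_biUnion.mpr ⟨x, mem_univ _, hx⟩
  have h1 : (univ : Finset (Fin q × Fin q → Bool)).card ≤
      ∑ ℓ ∈ T, (univ.biUnion (badSet q ℓ)).card :=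
    (Finset.card_le_card hcov).trans Finset.card_biUnion_le
  have h2 : (univ : Finset (Fin q × Fin q → Bool)).card = 2 ^ (q ^ 2) := by
    rw [Finset.card_univ]; simp [sq]
  rw [h2] at h1
  have h3 : ((2 : ℝ) ^ (q ^ 2)) ≤ ∑ ℓ ∈ T, (2 : ℝ) ^ (q ^ 2) * (1 / 2) ^ ℓ := by
    have : ((2 : ℝ) ^ (q ^ 2)) ≤ ∑ ℓ ∈ T, (((univ.biUnion (badSet q ℓ)).card : ℕ) : ℝ) := by
      exact_mod_cast h1
    refine this.trans (Finset.sum_le_sum ?_)
    intro ℓ hℓ
    have hb := badUnion_card q ℓ (mem_filter.mp hℓ).2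
    have hb' : (((univ.biUnion (badSet q ℓ)).card : ℕ) : ℝ) * 2 ^ ℓ ≤ 2 ^ (q ^ 2) := by
      exact_mod_cast hb
    rw [one_div, inv_pow, ← div_eq_mul_inv, le_div_iff₀ (by positivity)]
    exact hb'
  have h4 : ∑ ℓ ∈ T, (2 : ℝ) ^ (q ^ 2) * (1 / 2) ^ ℓ ≤
      ∑ ℓ ∈ Icc 1 q, (2 : ℝ) ^ (q ^ 2) * (1 / 2) ^ ℓ :=
    Finset.sum_le_sum_of_subset_of_nonneg (Finset.filter_subset _ _)
      (fun i _ _ => by positivity)
  rw [← Finset.mul_sum] at h3
  rw [← Finset.mul_sum, ← Finset.mul_sum, geom_half] at h4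
  have h5 : (0 : ℝ) < 2 ^ (q ^ 2) * (1 / 2) ^ q := by positivity
  linarith

/-- compressing thresholds to `2 * ℓ` values -/
lemma compress (ℓ : ℕ) (f g : Fin ℓ → ℕ) :
    ∃ u v : Fin ℓ → Fin (2 * ℓ), ∀ i j, (u i < v j ↔ f i < g j) := by
  classical
  let S : Finset ℕ := univ.image f ∪ univ.image g
  have hS : S.card ≤ 2 * ℓ := by
    refine (Finset.card_union_le _ _).trans ?_
    have h1 : (univ.image f).card ≤ ℓ := by
      simpa using Finset.card_image_le (s := (univ : Finset (Fin ℓ))) (f := f)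
    have h2 : (univ.image g).card ≤ ℓ := by
      simpa using Finset.card_image_le (s := (univ : Finset (Fin ℓ))) (f := g)
    omega
  let ρ : ℕ → ℕ := fun x => (S.filter (· < x)).card
  have hρ : ∀ x ∈ S, ρ x < 2 * ℓ := by
    intro x hx
    refine lt_of_lt_of_le (Finset.card_lt_card ?_) hS
    refine ⟨Finset.filter_subset _ _, fun h => ?_⟩
    have := (mem_filter.mp (h hx)).2
    exact lt_irrefl _ this
  have hf : ∀ i, f i ∈ S := fun i => mem_union_left _ (mem_image_of_mem _ (mem_univ _))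
  have hg : ∀ i, g i ∈ S := fun i => mem_union_right _ (mem_image_of_mem _ (mem_univ _))
  have hmono : ∀ x ∈ S, ∀ y ∈ S, (ρ x < ρ y ↔ x < y) := by
    intro x hx y hy
    constructor
    · intro h
      by_contra hc
      push Not at hc
      have : ρ y ≤ ρ x := by
        apply Finset.card_le_card
        intro z hz
        rw [mem_filter] at hz ⊢
        exact ⟨hz.1, lt_of_lt_of_le hz.2 hc⟩
      omega
    · intro h
      apply Finset.card_lt_card
      refine ⟨fun z hz => ?_, fun hsub => ?_⟩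
      · rw [mem_filter] at hz ⊢
        exact ⟨hz.1, lt_trans hz.2 h⟩
      · have := (mem_filter.mp (hsub (mem_filter.mpr ⟨hx, h⟩))).2
        exact lt_irrefl _ this
  refine ⟨fun i => ⟨ρ (f i), hρ _ (hf i)⟩, fun j => ⟨ρ (g j), hρ _ (hg j)⟩, fun i j => ?_⟩
  rw [Fin.mk_lt_mk]
  exact hmono _ (hf i) _ (hg j)

/-- There is a tournament on `Fin q` which is quasirandom at all scales `ℓ ≫ log q`. -/
theorem exists_tournament (q : ℕ) : ∃ R : Fin q → Fin q → Prop,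
    (∀ a b, a ≠ b → Xor (R a b) (R b a)) ∧ (∀ a, ¬ R a a) ∧
    ∀ ℓ, 1 ≤ ℓ → 4 * (2 * ℓ * q) ^ 4 ≤ 2 ^ ℓ → QProp R ℓ := by
  classical
  obtain ⟨r, hr⟩ := exists_code q
  refine ⟨Rel r, fun a b h => rel_xor r h, fun a h => ?_, ?_⟩
  · rcases h with h | h
    · exact lt_irrefl _ h.1
    · exact lt_irrefl _ h.1
  intro ℓ hℓ hc A B hAB hA hB f g F hF
  have hℓq : ℓ ≤ q := by
    rw [← hA]
    simpa using Finset.card_le_univ A
  let α : Fin ℓ → Fin q := fun i => A.orderEmbOfFin hA i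
  let β : Fin ℓ → Fin q := fun i => B.orderEmbOfFin hB i
  have hαA : ∀ i, α i ∈ A := fun i => Finset.orderEmbOfFin_mem A hA i
  have hβB : ∀ i, β i ∈ B := fun i => Finset.orderEmbOfFin_mem B hB i
  have hαi : Function.Injective α := (A.orderEmbOfFin hA).injective
  have hβi : Function.Injective β := (B.orderEmbOfFin hB).injective
  have hne : ∀ i j, α i ≠ β j := by
    intro i j h
    exact (Finset.disjoint_left.mp hAB (hαA i)) (h ▸ hβB j)
  obtain ⟨u, v, huv⟩ := compress ℓ (fun i => f (α i)) (fun j => g (β j))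
  have h1 := hr ℓ hℓ hℓq hc ((α, β), (u, v))
  have h2 : ¬ 10 * (univ.filter fun p : Fin ℓ × Fin ℓ =>
      ¬ (Rel r (α p.1) (β p.2) ↔ u p.1 < v p.2)).card ≤ ℓ ^ 2 := by
    intro hcon
    exact h1 (mem_filter.mpr ⟨mem_univ _, hαi, hβi, hne, hcon⟩)
  rw [not_le] at h2
  refine lt_of_lt_of_le h2 ?_
  gcongr
  refine Finset.card_le_card_of_injOn (fun p => (α p.1, β p.2)) ?_ ?_
  · intro p hp
    have hp' := (mem_filter.mp hp).2
    rw [huv] at hp'
    exact hF _ (hαA _) _ (hβB _) hp'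
  · rintro ⟨i, j⟩ _ ⟨i', j'⟩ _ h
    simp only [Prod.mk.injEq] at h
    exact Prod.ext (hαi h.1) (hβi h.2)

end Run7.h728
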