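import Mathlib
import Pool.Agent.Run7.h728.Tourn

set_option autoImplicit false

open Finset

namespace Run7.h728

variable {V : Type*} {q : ℕ}

open Classical in
/-- the set of types of the vertices with property `P` -/
noncomputable def tset (κ : V → Fin q) (P : V → Prop) : Finset (Fin q) :=
  univ.filter fun a => ∃ u, P u ∧ κ u = a

lemma mem_tset {κ : V → Fin q} {P : V → Prop} {a : Fin q} :
    a ∈ tset κ P ↔ ∃ u, P u ∧ κ u = a := by
  unfold tset; simp

/-- the number of types of the vertices with property `P` -/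
noncomputable def nt (κ : V → Fin q) (P : V → Prop) : ℕ := (tset κ P).card

lemma tset_mono {κ : V → Fin q} {P Q : V → Prop} (h : ∀ u, P u → Q u) :
    tset κ P ⊆ tset κ Q := by
  intro a ha
  obtain ⟨u, hu, rfl⟩ := mem_tset.mp ha
  exact mem_tset.mpr ⟨u, h u hu, rfl⟩

lemma nt_mono {κ : V → Fin q} {P Q : V → Prop} (h : ∀ u, P u → Q u) :
    nt κ P ≤ nt κ Q := Finset.card_le_card (tset_mono h)

/-- The counting lemma. -/
theorem count_lemma (G : SimpleGraph V) (κ : V → Fin q) (f : V → ℕ) (R : Fin q → Fin q → Prop)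
    (hκ : ∀ u v, G.Adj u v → (R (κ u) (κ v) ↔ f u < f v))
    (ℓ lam P' : ℕ) (hℓ : 40 * lam ≤ ℓ) (hQ : QProp R ℓ)
    (B : V → Prop) (K : V → V → Prop) (hK : ∀ u, B u → nt κ (K u) ≤ lam)
    (hB : 3 * ℓ + 20 * P' ≤ nt κ B) (S : V → Prop)
    (hS : ∀ z, S z → nt κ (fun u => B u ∧ ¬ G.Adj z u ∧ ¬ K u z) < P') :
    nt κ S < ℓ := by
  classical
  by_contra hcon
  rw [not_lt] at hcon
  have hℓ0 : 0 < ℓ := by
    rcases Nat.eq_zero_or_pos ℓ with h0 | h0
    · subst h0
      have := hQ ∅ ∅ (by simp) rfl rfl (fun _ => 0) (fun _ => 0) ∅ (by simp)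
      simp at this
    · exact h0
  obtain ⟨A, hAS, hA⟩ := Finset.exists_subset_card_eq hcon
  have hVne : Nonempty V := by
    have : A.Nonempty := by rw [← Finset.card_pos, hA]; exact hℓ0
    obtain ⟨a, ha⟩ := this
    obtain ⟨u, _⟩ := mem_tset.mp (hAS ha)
    exact ⟨u⟩
  have hz' : ∀ a ∈ A, ∃ z, S z ∧ κ z = a := fun a ha => mem_tset.mp (hAS ha)
  choose! z hzS hzκ using hz'
  set B0 := tset κ B \ A with hB0
  have hu' : ∀ b ∈ B0, ∃ u, B u ∧ κ u = b := fun b hb => mem_tset.mp (mem_sdiff.mp hb).1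
  choose! u huB huκ using hu'
  have hM : 2 * ℓ + 20 * P' ≤ B0.card := by
    have h1 : (tset κ B).card ≤ B0.card + A.card := by
      have := Finset.card_le_card_sdiff_add_card (s := tset κ B) (t := A)
      exact this
    have h2 : 3 * ℓ + 20 * P' ≤ (tset κ B).card := hB
    omega
  let Nn : Fin q → ℕ := fun b => (A.filter fun a => ¬ G.Adj (z a) (u b)).card
  -- double counting
  have hsum : ∑ b ∈ B0, Nn b ≤ ℓ * P' + B0.card * lam := by
    have e1 : ∑ b ∈ B0, Nn b = ∑ a ∈ A, (B0.filter fun b => ¬ G.Adj (z a) (u b)).card := by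
      simp only [Nn, Finset.card_filter]
      exact Finset.sum_comm
    have e2 : ∀ a ∈ A, (B0.filter fun b => ¬ G.Adj (z a) (u b)).card ≤
        P' + (B0.filter fun b => K (u b) (z a)).card := by
      intro a ha
      have hsub : (B0.filter fun b => ¬ G.Adj (z a) (u b)) ⊆
          tset κ (fun w => B w ∧ ¬ G.Adj (z a) w ∧ ¬ K w (z a)) ∪
            (B0.filter fun b => K (u b) (z a)) := by
        intro b hb
        rw [mem_filter] at hb
        by_cases hk : K (u b) (z a)
        · exact mem_union_right _ (mem_filter.mpr ⟨hb.1, hk⟩)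
        · refine mem_union_left _ (mem_tset.mpr ⟨u b, ⟨huB b hb.1, hb.2, hk⟩, huκ b hb.1⟩)
      refine (Finset.card_le_card hsub).trans ((Finset.card_union_le _ _).trans ?_)
      have := hS (z a) (hzS a ha)
      unfold nt at this
      omega
    have e3 : ∑ a ∈ A, (B0.filter fun b => K (u b) (z a)).card =
        ∑ b ∈ B0, (A.filter fun a => K (u b) (z a)).card := by
      simp only [Finset.card_filter]
      exact Finset.sum_comm
    have e4 : ∀ b ∈ B0, (A.filter fun a => K (u b) (z a)).card ≤ lam := by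
      intro b hb
      refine le_trans (Finset.card_le_card ?_) (hK (u b) (huB b hb))
      intro a ha
      rw [mem_filter] at ha
      exact mem_tset.mpr ⟨z a, ha.2, hzκ a ha.1⟩
    calc ∑ b ∈ B0, Nn b = ∑ a ∈ A, (B0.filter fun b => ¬ G.Adj (z a) (u b)).card := e1
      _ ≤ ∑ a ∈ A, (P' + (B0.filter fun b => K (u b) (z a)).card) := Finset.sum_le_sum e2
      _ = ℓ * P' + ∑ a ∈ A, (B0.filter fun b => K (u b) (z a)).card := by
          rw [Finset.sum_add_distrib, Finset.sum_const, hA, smul_eq_mul]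
      _ = ℓ * P' + ∑ b ∈ B0, (A.filter fun a => K (u b) (z a)).card := by rw [e3]
      _ ≤ ℓ * P' + ∑ b ∈ B0, lam := by gcongr with b hb; exact e4 b hb
      _ = ℓ * P' + B0.card * lam := by rw [Finset.sum_const, smul_eq_mul]
  set Bad := B0.filter fun b => ℓ < 10 * Nn b with hBad
  set Good := B0.filter fun b => ¬ ℓ < 10 * Nn b with hGood
  have hbg : Bad.card + Good.card = B0.card :=
    Finset.card_filter_add_card_filter_not (s := B0) (fun b => ℓ < 10 * Nn b)
  have hbad : Bad.card * ℓ ≤ 10 * (ℓ * P' + B0.card * lam) := by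
    calc Bad.card * ℓ = ∑ b ∈ Bad, ℓ := by rw [Finset.sum_const, smul_eq_mul]
      _ ≤ ∑ b ∈ Bad, 10 * Nn b := Finset.sum_le_sum (fun b hb => (mem_filter.mp hb).2.le)
      _ ≤ ∑ b ∈ B0, 10 * Nn b := Finset.sum_le_sum_of_subset (Finset.filter_subset _ _)
      _ = 10 * ∑ b ∈ B0, Nn b := by rw [Finset.mul_sum]
      _ ≤ 10 * (ℓ * P' + B0.card * lam) := by gcongr
  have hbad2 : 4 * Bad.card ≤ 40 * P' + B0.card := by
    have h1 : 4 * (Bad.card * ℓ) ≤ (40 * P' + B0.card) * ℓ := by
      have h2 : 40 * (B0.card * lam) ≤ B0.card * ℓ := by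
        calc 40 * (B0.card * lam) = B0.card * (40 * lam) := by ring
          _ ≤ B0.card * ℓ := by gcongr
      calc 4 * (Bad.card * ℓ) ≤ 4 * (10 * (ℓ * P' + B0.card * lam)) := by gcongr
        _ = 40 * P' * ℓ + 40 * (B0.card * lam) := by ring
        _ ≤ 40 * P' * ℓ + B0.card * ℓ := by gcongr
        _ = (40 * P' + B0.card) * ℓ := by ring
    rw [← mul_assoc] at h1
    exact Nat.le_of_mul_le_mul_right h1 hℓ0
  have hgood : ℓ ≤ Good.card := by omega
  obtain ⟨B', hB'G, hB'⟩ := Finset.exists_subset_card_eq hgood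
  have hB'0 : ∀ b ∈ B', b ∈ B0 := fun b hb => (mem_filter.mp (hB'G hb)).1
  have hdisj : Disjoint A B' := by
    rw [Finset.disjoint_right]
    intro b hb
    exact (mem_sdiff.mp (hB'0 b hb)).2
  let F : Finset (Fin q × Fin q) :=
    B'.biUnion fun b => (A.filter fun a => ¬ G.Adj (z a) (u b)).image fun a => (a, b)
  have hF : F.card ≤ ∑ b ∈ B', Nn b :=
    Finset.card_biUnion_le.trans (Finset.sum_le_sum fun b _ => Finset.card_image_le)
  have h10 : 10 * F.card ≤ ℓ ^ 2 := by
    calc 10 * F.card ≤ 10 * ∑ b ∈ B', Nn b := by gcongr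
      _ = ∑ b ∈ B', 10 * Nn b := by rw [Finset.mul_sum]
      _ ≤ ∑ b ∈ B', ℓ := by
          apply Finset.sum_le_sum
          intro b hb
          have := (mem_filter.mp (hB'G hb)).2
          omega
      _ = ℓ ^ 2 := by rw [Finset.sum_const, hB', smul_eq_mul, sq]
  have := hQ A B' hdisj hA hB' (fun a => f (z a)) (fun b => f (u b)) F (by
    intro a ha b hb hne
    refine mem_biUnion.mpr ⟨b, hb, mem_image.mpr ⟨a, mem_filter.mpr ⟨ha, ?_⟩, rfl⟩⟩
    intro hadj
    apply hne
    have := hκ _ _ hadj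
    rw [hzκ a ha, huκ b (hB'0 b hb)] at this
    exact this)
  omega

end Run7.h728
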