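import Mathlib
import Pool.Agent.Run7.h728.Count

set_option autoImplicit false

open Finset

namespace Run7.h728

variable {V : Type*} {q : ℕ}

open Classical in
/-- the recursive richness property used in the greedy embedding -/
def Alive (G : SimpleGraph V) (κ : V → Fin q) (P : ℕ → ℕ) :
    ℕ → ℕ → Finset V → V → Prop
  | 0, _, _, _ => True
  | (j + 1), m, Z, y =>
      P m ≤ nt κ (fun u => G.Adj y u ∧ (∀ z ∈ Z, ¬ G.Adj z u) ∧
        Alive G κ P j (m + 1) (insert y Z) u)

lemma alive_pred (G : SimpleGraph V) (κ : V → Fin q) (P : ℕ → ℕ) :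
    ∀ (j m : ℕ) (Z : Finset V) (y : V), Alive G κ P (j + 1) m Z y → Alive G κ P j m Z y := by
  classical
  intro j
  induction j with
  | zero => intro m Z y _; trivial
  | succ j ih =>
      intro m Z y h
      unfold Alive at h ⊢
      refine le_trans h (nt_mono ?_)
      rintro u ⟨h1, h2, h3⟩
      exact ⟨h1, h2, ih _ _ _ h3⟩

open Classical in
/-- Few types of vertices `z` destroy aliveness. -/
theorem alive_insert (G : SimpleGraph V) (κ : V → Fin q) (f : V → ℕ)
    (R : Fin q → Fin q → Prop)
    (hκ : ∀ u v, G.Adj u v → (R (κ u) (κ v) ↔ f u < f v))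
    (P L : ℕ → ℕ) (N : ℕ) (hL0 : 0 < L 0) (hL : ∀ j, 40 * L j ≤ L (j + 1))
    (hQ : ∀ j, QProp R (L j))
    (hP : ∀ j m, m + j < N → 3 * L (j + 1) + 20 * P (m + 1) ≤ P m) :
    ∀ (j m : ℕ) (Z : Finset V) (y : V), m + j ≤ N → Alive G κ P j m Z y →
      nt κ (fun z => ¬ Alive G κ P j (m + 1) (insert z Z) y) < L j := by
  intro j
  induction j with
  | zero =>
      intro m Z y _ _
      have : nt κ (fun z => ¬ Alive G κ P 0 (m + 1) (insert z Z) y) = 0 := by
        unfold nt
        rw [Finset.card_eq_zero, Finset.eq_empty_iff_forall_notMem]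
        intro a ha
        obtain ⟨u, hu, _⟩ := mem_tset.mp ha
        exact hu trivial
      rw [this]; exact hL0
  | succ j ih =>
      intro m Z y hm hal
      have hal' := hal
      unfold Alive at hal'
      refine count_lemma G κ f R hκ (L (j + 1)) (L j) (P (m + 1)) (hL j) (hQ _)
        (fun u => G.Adj y u ∧ (∀ z ∈ Z, ¬ G.Adj z u) ∧ Alive G κ P j (m + 1) (insert y Z) u)
        (fun u z => ¬ Alive G κ P j (m + 2) (insert z (insert y Z)) u) ?_ ?_ _ ?_
      · rintro u ⟨_, _, h3⟩
        exact (ih (m + 1) (insert y Z) u (by omega) h3).le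
      · refine (hP j m (by omega)).trans (hal'.trans (nt_mono ?_))
        rintro u ⟨h1, h2, h3⟩
        exact ⟨h1, h2, h3⟩
      · intro z hz
        unfold Alive at hz
        rw [not_le] at hz
        refine lt_of_le_of_lt (nt_mono ?_) hz
        rintro u ⟨⟨h1, h2, h3⟩, h4, h5⟩
        rw [not_not] at h5
        refine ⟨h1, ?_, ?_⟩
        · intro z' hz'
          rw [mem_insert] at hz'
          rcases hz' with rfl | hz'
          · exact h4
          · exact h2 z' hz'
        · rw [Finset.insert_comm] at h5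
          exact h5

end Run7.h728
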