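import Mathlib
import Pool.Agent.Run7.h728.Alive
import Pool.Agent.Run7.h728.CoverFree

set_option autoImplicit false

open Finset

namespace Run7.h728

variable {V : Type*} {q : ℕ}

open Classical in
/-- Greedy induced embedding of a tree given by a parent function. -/
theorem embed_tree (G : SimpleGraph V) (κ : V → Fin q) (f : V → ℕ)
    (R : Fin q → Fin q → Prop)
    (hκ : ∀ u v, G.Adj u v → (R (κ u) (κ v) ↔ f u < f v))
    (P L : ℕ → ℕ) (N Lmax : ℕ) (hL0 : 0 < L 0) (hL : ∀ j, 40 * L j ≤ L (j + 1))
    (hQ : ∀ j, QProp R (L j))
    (hP : ∀ j m, m + j < N → 3 * L (j + 1) + 20 * P (m + 1) ≤ P m)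
    (hmax : ∀ j, j ≤ N → L j ≤ Lmax)
    (hP2 : ∀ k, k < N → (k + 1) * (Lmax + 1) < P k)
    (par : ℕ → ℕ) (hpar : ∀ k, par (k + 1) ≤ k) (x0 : V) (hx0 : Alive G κ P N 0 ∅ x0) :
    ∀ (k j : ℕ), k + 1 + j = N → ∃ x : ℕ → V,
      (∀ i i', i < i' → i' ≤ k → ((G.Adj (x i) (x i') ↔ par i' = i) ∧ x i ≠ x i')) ∧
      (∀ a, a ≤ k → P k ≤ nt κ (fun u => G.Adj (x a) u ∧ (∀ b, b ≤ k → b ≠ a → ¬ G.Adj (x b) u) ∧
        Alive G κ P j (k + 1) ((range (k + 1)).image x) u)) := by
  intro k
  induction k with
  | zero =>
      intro j hj
      refine ⟨fun _ => x0, fun i i' h1 h2 => by omega, fun a ha => ?_⟩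
      have hN : N = j + 1 := by omega
      rw [hN] at hx0
      unfold Alive at hx0
      refine hx0.trans (nt_mono ?_)
      rintro u ⟨h1, _, h3⟩
      refine ⟨h1, fun b hb hba => by omega, ?_⟩
      have : (range (0 + 1)).image (fun _ => x0) = insert x0 ∅ := by
        ext y; simp
      rw [this]
      exact h3
  | succ k ih =>
      intro j hj
      obtain ⟨x, hI1, hI2⟩ := ih (j + 1) (by omega)
      set Z := (range (k + 1)).image x with hZ
      let U : ℕ → V → Prop := fun a u => G.Adj (x a) u ∧ (∀ b, b ≤ k → b ≠ a → ¬ G.Adj (x b) u) ∧
        Alive G κ P (j + 1) (k + 1) Z u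
      let S : ℕ → V → Prop := fun a z =>
        nt κ (fun w => U a w ∧ ¬ G.Adj z w ∧ ¬ ¬ Alive G κ P j (k + 1 + 1) (insert z Z) w) < P (k + 1)
      have hS : ∀ a, a ≤ k → nt κ (S a) < L (j + 1) := by
        intro a ha
        refine count_lemma G κ f R hκ (L (j + 1)) (L j) (P (k + 1)) (hL j) (hQ _) (U a)
          (fun u z => ¬ Alive G κ P j (k + 1 + 1) (insert z Z) u) ?_ ?_ (S a) ?_
        · rintro u ⟨_, _, h3⟩
          exact (alive_insert G κ f R hκ P L N hL0 hL hQ hP j (k + 1) Z u (by omega)
            (alive_pred G κ P _ _ _ _ h3)).le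
        · exact (hP j k (by omega)).trans (hI2 a ha)
        · intro z hz
          exact hz
      set a0 := par (k + 1) with ha0
      have ha0k : a0 ≤ k := hpar k
      -- choose the new vertex
      have hbad : (((range (k + 1)).biUnion fun a => tset κ (S a)) ∪ Z.image κ).card <
          (tset κ (U a0)).card := by
        refine lt_of_le_of_lt (Finset.card_union_le _ _) ?_
        have h1 : ((range (k + 1)).biUnion fun a => tset κ (S a)).card ≤ (k + 1) * Lmax := by
          refine Finset.card_biUnion_le.trans ?_
          calc ∑ a ∈ range (k + 1), (tset κ (S a)).card ≤ ∑ a ∈ range (k + 1), Lmax := by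
                apply Finset.sum_le_sum
                intro a ha
                have := hS a (by rw [mem_range] at ha; omega)
                exact this.le.trans (hmax _ (by omega))
            _ = (k + 1) * Lmax := by rw [Finset.sum_const, card_range, smul_eq_mul]
        have h2 : (Z.image κ).card ≤ k + 1 := by
          refine Finset.card_image_le.trans (Finset.card_image_le.trans ?_)
          rw [card_range]
        have h3 := hP2 k (by omega)
        have h4 : P k ≤ (tset κ (U a0)).card := hI2 a0 ha0k
        have h5 : (k + 1) * (Lmax + 1) = (k + 1) * Lmax + (k + 1) := by ring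
        omega
      obtain ⟨t, ht, htn⟩ := Finset.exists_mem_notMem_of_card_lt_card hbad
      obtain ⟨u, hu, rfl⟩ := mem_tset.mp ht
      rw [mem_union, not_or] at htn
      have huS : ∀ a, a ≤ k → ¬ S a u := by
        intro a ha hSa
        exact htn.1 (mem_biUnion.mpr ⟨a, mem_range.mpr (by omega), mem_tset.mpr ⟨u, hSa, rfl⟩⟩)
      have hux : ∀ b, b ≤ k → x b ≠ u := by
        intro b hb hxb
        apply htn.2
        rw [← hxb]
        exact mem_image_of_mem κ (mem_image_of_mem x (mem_range.mpr (by omega)))
      let x' : ℕ → V := Function.update x (k + 1) u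
      have hx'old : ∀ i, i ≤ k → x' i = x i := by
        intro i hi
        exact Function.update_of_ne (by omega) _ _
      have hx'new : x' (k + 1) = u := Function.update_self _ _ _
      have hZ' : (range (k + 1 + 1)).image x' = insert u Z := by
        rw [Finset.range_add_one, Finset.image_insert, hx'new]
        congr 1
        apply Finset.image_congr
        intro i hi
        have : i < k + 1 := by simpa using hi
        exact hx'old i (by omega)
      refine ⟨x', ?_, ?_⟩
      · intro i i' hii' hi'
        rcases Nat.lt_or_ge k i' with h | h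
        · have : i' = k + 1 := by omega
          subst this
          rw [hx'new, hx'old i (by omega)]
          refine ⟨?_, hux i (by omega)⟩
          constructor
          · intro hadj
            by_contra hne
            exact hu.2.1 i (by omega) (fun h => hne h.symm) hadj
          · intro heq
            rw [← heq]
            exact hu.1
        · rw [hx'old i (by omega), hx'old i' h]
          exact hI1 i i' hii' h
      · intro a ha
        rw [hZ']
        rcases Nat.lt_or_ge k a with h | h
        · have : a = k + 1 := by omega
          subst this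
          have hal := hu.2.2
          unfold Alive at hal
          refine hal.trans (nt_mono ?_)
          rintro w ⟨h1, h2, h3⟩
          refine ⟨by rw [hx'new]; exact h1, ?_, ?_⟩
          · intro b hb hbne
            rw [hx'old b (by omega)]
            exact h2 _ (mem_image_of_mem x (mem_range.mpr (by omega)))
          · exact h3
        · have hnS := huS a h
          simp only [S, not_lt, not_not] at hnS
          refine hnS.trans (nt_mono ?_)
          rintro w ⟨⟨h1, h2, h3⟩, h4, h5⟩
          refine ⟨by rw [hx'old a h]; exact h1, ?_, h5⟩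
          intro b hb hbne
          rcases Nat.lt_or_ge k b with h' | h'
          · have : b = k + 1 := by omega
            subst this
            rw [hx'new]; exact h4
          · rw [hx'old b h']
            exact h2 b h' hbne

end Run7.h728
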