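import Mathlib
import Pool.Agent.Run7.h728.Embed

set_option autoImplicit false

open Finset

namespace Run7.h728

lemma acyclic_leaf {V : Type*} [Finite V] [Nonempty V] (T : SimpleGraph V) (h : T.IsAcyclic) :
    ∃ u, ∀ w w', T.Adj u w → T.Adj u w' → w = w' := by
  obtain ⟨u, v, p, hp, hmax⟩ := SimpleGraph.Walk.exists_isPath_forall_isPath_length_le_length T
  have key : ∀ w, T.Adj u w → w = p.snd := by
    intro w hadj
    apply h.eq_snd_of_adj_start hp hadj
    by_contra hns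
    have h1 : (p.cons hadj.symm).IsPath := hp.cons hns
    have h2 := hmax _ _ _ h1
    rw [SimpleGraph.Walk.length_cons] at h2
    omega
  exact ⟨u, fun w w' h1 h2 => (key w h1).trans (key w' h2).symm⟩

lemma forest_rank {V : Type*} [DecidableEq V] (T : SimpleGraph V) (h : T.IsAcyclic) :
    ∀ (n : ℕ) (s : Finset V), s.card = n → ∃ ρ : V → ℕ, (∀ v ∈ s, ρ v < n) ∧
      (∀ v ∈ s, ∀ w ∈ s, ρ v = ρ w → v = w) ∧
      ∀ v ∈ s, ∀ w ∈ s, ∀ w' ∈ s, ρ w < ρ v → ρ w' < ρ v → T.Adj v w → T.Adj v w' → w = w' := by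
  intro n
  induction n with
  | zero =>
      intro s hs
      rw [Finset.card_eq_zero] at hs
      subst hs
      exact ⟨fun _ => 0, by simp, by simp, by simp⟩
  | succ n ih =>
      intro s hs
      have hne : s.Nonempty := by rw [← Finset.card_pos]; omega
      have hne' : Nonempty (↥(s : Set V)) := by
        obtain ⟨v, hv⟩ := hne
        exact ⟨⟨v, hv⟩⟩
      have hfin : Finite (↥(s : Set V)) := s.finite_toSet
      obtain ⟨⟨u, hu⟩, hleaf⟩ := acyclic_leaf (T.induce (s : Set V)) (h.induce _)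
      have hu' : u ∈ s := hu
      obtain ⟨ρ, h1, h2, h3⟩ := ih (s.erase u) (by rw [Finset.card_erase_of_mem hu']; omega)
      have hup : ∀ v ∈ s, v ≠ u → Function.update ρ u n v = ρ v ∧ ρ v < n := by
        intro v hv hvu
        exact ⟨Function.update_of_ne hvu _ _, h1 v (mem_erase.mpr ⟨hvu, hv⟩)⟩
      have hun : Function.update ρ u n u = n := Function.update_self _ _ _
      refine ⟨Function.update ρ u n, ?_, ?_, ?_⟩
      · intro v hv
        by_cases hvu : v = u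
        · rw [hvu, hun]; omega
        · have := hup v hv hvu
          omega
      · intro v hv w hw hvw
        by_cases hvu : v = u <;> by_cases hwu : w = u
        · rw [hvu, hwu]
        · have := hup w hw hwu
          rw [hvu, hun] at hvw
          omega
        · have := hup v hv hvu
          rw [hwu, hun] at hvw
          omega
        · rw [(hup v hv hvu).1, (hup w hw hwu).1] at hvw
          exact h2 v (mem_erase.mpr ⟨hvu, hv⟩) w (mem_erase.mpr ⟨hwu, hw⟩) hvw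
      · intro v hv w hw w' hw' hwv hw'v hadj hadj'
        by_cases hvu : v = u
        · subst hvu
          have := hleaf ⟨w, hw⟩ ⟨w', hw'⟩ (by simpa using hadj) (by simpa using hadj')
          exact congrArg Subtype.val this
        · have hv' := hup v hv hvu
          have hwu : w ≠ u := by
            rintro rfl
            rw [hun] at hwv
            omega
          have hw'u : w' ≠ u := by
            rintro rfl
            rw [hun] at hw'v
            omega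
          rw [hv'.1, (hup w hw hwu).1] at hwv
          rw [hv'.1, (hup w' hw' hw'u).1] at hw'v
          exact h3 v (mem_erase.mpr ⟨hvu, hv⟩) w (mem_erase.mpr ⟨hwu, hw⟩) w'
            (mem_erase.mpr ⟨hw'u, hw'⟩) hwv hw'v hadj hadj'

lemma pow_eight_bound : ∀ ℓ : ℕ, 64 ≤ ℓ → (64 * ℓ ^ 4) ^ 2 ≤ 2 ^ ℓ := by
  intro ℓ hℓ
  induction ℓ, hℓ using Nat.le_induction with
  | base => norm_num
  | succ n hn ih =>
      have h1 : (n + 1) ^ 8 ≤ 2 * n ^ 8 := by
        have h2 : (n + 1) * 64 ≤ n * 65 := by omega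
        have h3 : ((n + 1) * 64) ^ 8 ≤ (n * 65) ^ 8 := Nat.pow_le_pow_left h2 8
        rw [mul_pow, mul_pow] at h3
        have h4 : (65 : ℕ) ^ 8 ≤ 2 * 64 ^ 8 := by norm_num
        have h5 : (n + 1) ^ 8 * 64 ^ 8 ≤ (2 * n ^ 8) * 64 ^ 8 := by
          calc (n + 1) ^ 8 * 64 ^ 8 ≤ n ^ 8 * 65 ^ 8 := h3
            _ ≤ n ^ 8 * (2 * 64 ^ 8) := by gcongr
            _ = (2 * n ^ 8) * 64 ^ 8 := by ring
        exact Nat.le_of_mul_le_mul_right h5 (by positivity)
      calc (64 * (n + 1) ^ 4) ^ 2 = 64 ^ 2 * (n + 1) ^ 8 := by ring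
        _ ≤ 64 ^ 2 * (2 * n ^ 8) := by gcongr
        _ = (64 * n ^ 4) ^ 2 * 2 := by ring
        _ ≤ 2 ^ n * 2 := by gcongr
        _ = 2 ^ (n + 1) := by rw [pow_succ]

lemma cond_ok (q ℓ : ℕ) (hℓ : 64 * (Nat.log 2 q + 1) ≤ ℓ) : 4 * (2 * ℓ * q) ^ 4 ≤ 2 ^ ℓ := by
  have h64 : 64 ≤ ℓ := by omega
  have hq : q ≤ 2 ^ (Nat.log 2 q + 1) := (Nat.lt_pow_succ_log_self (by norm_num) q).le
  have h1 := pow_eight_bound ℓ h64
  have h2 : (q ^ 4) ^ 2 ≤ 2 ^ ℓ := by
    calc (q ^ 4) ^ 2 = q ^ 8 := by ring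
      _ ≤ (2 ^ (Nat.log 2 q + 1)) ^ 8 := Nat.pow_le_pow_left hq 8
      _ = 2 ^ ((Nat.log 2 q + 1) * 8) := by rw [← pow_mul]
      _ ≤ 2 ^ ℓ := Nat.pow_le_pow_right (by norm_num) (by omega)
  have h3 : (4 * (2 * ℓ * q) ^ 4) ^ 2 ≤ (2 ^ ℓ) ^ 2 := by
    calc (4 * (2 * ℓ * q) ^ 4) ^ 2 = (64 * ℓ ^ 4) ^ 2 * (q ^ 4) ^ 2 := by ring
      _ ≤ 2 ^ ℓ * 2 ^ ℓ := Nat.mul_le_mul h1 h2
      _ = (2 ^ ℓ) ^ 2 := by ring
  exact le_of_pow_le_pow_left₀ (by norm_num) (Nat.zero_le _) h3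

end Run7.h728
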