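import Mathlib
import Pool.Agent.Run7.h728.Embed
import Pool.Agent.Run7.h728.Forest

set_option autoImplicit false

open Finset

namespace Run7.h728

variable {V : Type*} {q : ℕ}

lemma alive_of_le (G : SimpleGraph V) (κ : V → Fin q) (P : ℕ → ℕ) (m : ℕ) (Z : Finset V) (y : V) :
    ∀ (i j : ℕ), i ≤ j → Alive G κ P j m Z y → Alive G κ P i m Z y := by
  intro i j hij
  induction j, hij using Nat.le_induction with
  | base => exact id
  | succ j _ ih => exact fun h => ih (alive_pred G κ P j m Z y h)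

open Classical in
/-- If no vertex is alive then there are small exceptional sets of types witnessing all edges. -/
theorem dead_sets (G : SimpleGraph V) (κ : V → Fin q) (f : V → ℕ)
    (R : Fin q → Fin q → Prop)
    (hκp : ∀ u v, G.Adj u v → κ u ≠ κ v)
    (hκ : ∀ u v, G.Adj u v → (R (κ u) (κ v) ↔ f u < f v))
    (P L : ℕ → ℕ) (N Lmax : ℕ) (hL0 : 0 < L 0) (hL : ∀ j, 40 * L j ≤ L (j + 1))
    (hQ : ∀ j, QProp R (L j))
    (hP : ∀ j m, m + j < N → 3 * L (j + 1) + 20 * P (m + 1) ≤ P m)
    (hmax : ∀ j, j ≤ N → L j ≤ Lmax)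
    (hdead : ∀ y, ¬ Alive G κ P N 0 ∅ y) :
    ∃ E : V → Finset (Fin q), (∀ u, (E u).card ≤ P 0 + N * Lmax) ∧ (∀ u, κ u ∉ E u) ∧
      ∀ u v, G.Adj u v → κ u ∈ E v ∨ κ v ∈ E u := by
  classical
  -- the level of death
  have hlev : ∀ y, ∃ j, j < N ∧ ¬ Alive G κ P (j + 1) 0 ∅ y ∧ Alive G κ P j 0 ∅ y := by
    intro y
    have hex : ∃ j, ¬ Alive G κ P j 0 ∅ y := ⟨N, hdead y⟩
    have h1 := Nat.find_spec hex
    have h2 : Nat.find hex ≤ N := Nat.find_min' hex (hdead y)
    have h3 : Nat.find hex ≠ 0 := by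
      intro h0
      rw [h0] at h1
      exact h1 trivial
    obtain ⟨j, hj⟩ := Nat.exists_eq_succ_of_ne_zero h3
    refine ⟨j, by omega, ?_, ?_⟩
    · rw [hj] at h1; exact h1
    · have := Nat.find_min hex (m := j) (by omega)
      rwa [not_not] at this
  choose lev hlN hld hla using hlev
  let E : V → Finset (Fin q) := fun y =>
    tset κ (fun u => G.Adj y u ∧ Alive G κ P (lev y) (0 + 1) (insert y ∅) u) ∪
      (range (lev y + 1)).biUnion fun i =>
        tset κ (fun z => G.Adj z y ∧ ¬ Alive G κ P i (0 + 1) (insert z ∅) y)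
  refine ⟨E, ?_, ?_, ?_⟩
  · intro y
    refine (Finset.card_union_le _ _).trans (Nat.add_le_add ?_ ?_)
    · have hy2 := hld y
      unfold Alive at hy2
      rw [not_le] at hy2
      refine le_trans (nt_mono ?_) hy2.le
      rintro u ⟨h1, h2⟩
      refine ⟨h1, ?_, ?_⟩
      · intro z hz
        exact absurd hz (Finset.notMem_empty z)
      · exact h2
    · refine Finset.card_biUnion_le.trans ?_
      have hterm : ∀ i ∈ range (lev y + 1),
          (tset κ (fun z => G.Adj z y ∧ ¬ Alive G κ P i (0 + 1) (insert z ∅) y)).card ≤ Lmax := by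
        intro i hi
        rw [mem_range] at hi
        have hN := hlN y
        have hal := alive_of_le G κ P 0 ∅ y i (lev y) (by omega) (hla y)
        have h3 := alive_insert G κ f R hκ P L N hL0 hL hQ hP i 0 ∅ y (by omega) hal
        refine le_trans (nt_mono ?_) (h3.le.trans (hmax i (by omega)))
        rintro z ⟨_, h⟩
        exact h
      refine (Finset.sum_le_sum hterm).trans ?_
      rw [Finset.sum_const, card_range, smul_eq_mul]
      have hN := hlN y
      gcongr
      omega
  · intro y hy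
    rcases mem_union.mp hy with h | h
    · obtain ⟨u, ⟨hu, _⟩, hk⟩ := mem_tset.mp h
      exact hκp _ _ hu hk.symm
    · obtain ⟨i, _, h⟩ := mem_biUnion.mp h
      obtain ⟨u, ⟨hu, _⟩, hk⟩ := mem_tset.mp h
      exact hκp _ _ hu hk
  · have key : ∀ u v, G.Adj u v → lev u ≤ lev v → κ u ∈ E v ∨ κ v ∈ E u := by
      intro u v huv hle
      by_cases hc : Alive G κ P (lev u) (0 + 1) (insert u ∅) v
      · right
        exact mem_union_left _ (mem_tset.mpr ⟨v, ⟨huv, hc⟩, rfl⟩)
      · left
        exact mem_union_right _ (mem_biUnion.mpr ⟨lev u, mem_range.mpr (by omega),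
          mem_tset.mpr ⟨u, ⟨huv, hc⟩, rfl⟩⟩)
    intro u v huv
    rcases le_total (lev u) (lev v) with h | h
    · exact key u v huv h
    · exact (key v u huv.symm h).symm

/-- the constant in the typed degeneracy theorem -/
def tdConst (t : ℕ) : ℕ := (2 * (t + 2) * 23 ^ (t + 1) + (t + 1)) * (40 ^ (t + 1) * 64)

/-- Typed degeneracy: in an acyclic class of the pulled back orientation without an induced copy
of the forest `T`, every edge is witnessed by small exceptional sets of types. -/
theorem typed_degenerate (t : ℕ) (T : SimpleGraph (Fin t)) (hT : T.IsAcyclic)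
    (q : ℕ) (R : Fin q → Fin q → Prop)
    (hR : ∀ ℓ, 1 ≤ ℓ → 4 * (2 * ℓ * q) ^ 4 ≤ 2 ^ ℓ → QProp R ℓ)
    (V : Type) (G : SimpleGraph V) (κ : V → Fin q) (f : V → ℕ)
    (hκp : ∀ u v, G.Adj u v → κ u ≠ κ v)
    (hκ : ∀ u v, G.Adj u v → (R (κ u) (κ v) ↔ f u < f v))
    (hno : IsEmpty (T ↪g G)) :
    ∃ E : V → Finset (Fin q), (∀ u, (E u).card ≤ tdConst t * (Nat.log 2 q + 1)) ∧
      (∀ u, κ u ∉ E u) ∧ ∀ u v, G.Adj u v → κ u ∈ E v ∨ κ v ∈ E u := by
  classical
  set N := t + 1 with hN
  set lam := Nat.log 2 q + 1 with hlam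
  let L : ℕ → ℕ := fun j => 40 ^ j * (64 * lam)
  set Lmax := 40 ^ N * (64 * lam) with hLmax
  let P : ℕ → ℕ := fun m => 2 * (N + 1) * Lmax * 23 ^ (N - m)
  have hlam1 : 1 ≤ lam := by omega
  have hL0 : 0 < L 0 := by simp only [L]; positivity
  have hL : ∀ j, 40 * L j ≤ L (j + 1) := by
    intro j
    simp only [L]
    apply le_of_eq
    ring
  have hL64 : ∀ j, 64 * lam ≤ L j := by
    intro j
    simp only [L]
    exact Nat.le_mul_of_pos_left _ (by positivity)
  have hQ : ∀ j, QProp R (L j) := fun j =>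
    hR _ (by have := hL64 j; omega) (cond_ok q _ (hL64 j))
  have hmax : ∀ j, j ≤ N → L j ≤ Lmax := by
    intro j hj
    simp only [L, hLmax]
    gcongr
    norm_num
  have hLmax1 : 1 ≤ Lmax := by rw [hLmax]; exact Nat.one_le_iff_ne_zero.mpr (by positivity)
  have hPL : ∀ m, Lmax ≤ P m := by
    intro m
    simp only [P]
    calc Lmax = 1 * Lmax * 1 := by ring
      _ ≤ 2 * (N + 1) * Lmax * 23 ^ (N - m) := by
          gcongr
          · omega
          · exact Nat.one_le_pow _ _ (by norm_num)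
  have hP : ∀ j m, m + j < N → 3 * L (j + 1) + 20 * P (m + 1) ≤ P m := by
    intro j m hjm
    have h1 : P m = 23 * P (m + 1) := by
      simp only [P]
      have : N - m = (N - (m + 1)) + 1 := by omega
      rw [this, pow_succ]
      ring
    have h2 := hmax (j + 1) (by omega)
    have h3 := hPL (m + 1)
    omega
  have hP2 : ∀ k, k < N → (k + 1) * (Lmax + 1) < P k := by
    intro k hk
    simp only [P]
    calc (k + 1) * (Lmax + 1) ≤ N * (2 * Lmax) := by
          gcongr
          · exact hk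
          · omega
      _ < 2 * (N + 1) * Lmax := by nlinarith
      _ = 2 * (N + 1) * Lmax * 1 := by ring
      _ ≤ 2 * (N + 1) * Lmax * 23 ^ (N - k) := by
          gcongr
          exact Nat.one_le_pow _ _ (by norm_num)
  by_cases hx : ∃ x0, Alive G κ P N 0 ∅ x0
  · exfalso
    obtain ⟨x0, hx0⟩ := hx
    obtain ⟨ρ, hρ1, hρ2, hρ3⟩ := forest_rank T hT t univ (by simp)
    let par : ℕ → ℕ := fun i => if h : ∃ v w : Fin t, ρ v + 1 = i ∧ ρ w < ρ v ∧ T.Adj v w
      then ρ (h.choose_spec.choose) + 1 else 0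
    have hpar1 : ∀ v w : Fin t, ρ w < ρ v → T.Adj v w → par (ρ v + 1) = ρ w + 1 := by
      intro v w hwv hadj
      have hex : ∃ v' w' : Fin t, ρ v' + 1 = ρ v + 1 ∧ ρ w' < ρ v' ∧ T.Adj v' w' :=
        ⟨v, w, rfl, hwv, hadj⟩
      simp only [par]
      rw [dif_pos hex]
      obtain ⟨e1, e2, e3⟩ := hex.choose_spec.choose_spec
      have hvv : hex.choose = v := hρ2 _ (mem_univ _) _ (mem_univ _) (by omega)
      have e2' : ρ hex.choose_spec.choose < ρ v := by omega
      have e4 : ∀ a b : Fin t, T.Adj a b → a = v → T.Adj v b := by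
        rintro a b hab rfl
        exact hab
      have e3' := e4 _ _ e3 hvv
      have := hρ3 v (mem_univ _) w (mem_univ _) _ (mem_univ _) hwv e2' hadj e3'
      rw [← this]
    have hpar2 : ∀ v : Fin t, ∀ w : Fin t, ρ w < ρ v → par (ρ v + 1) = ρ w + 1 → T.Adj v w := by
      intro v w hwv hp
      simp only [par] at hp
      split_ifs at hp with hex
      · obtain ⟨e1, e2, e3⟩ := hex.choose_spec.choose_spec
        have hvv : hex.choose = v := hρ2 _ (mem_univ _) _ (mem_univ _) (by omega)
        have hww : hex.choose_spec.choose = w := hρ2 _ (mem_univ _) _ (mem_univ _) (by omega)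
        have e4 : ∀ a b : Fin t, T.Adj a b → a = v → b = w → T.Adj v w := by
          rintro a b hab rfl rfl
          exact hab
        exact e4 _ _ e3 hvv hww
    have hpar : ∀ k, par (k + 1) ≤ k := by
      intro k
      simp only [par]
      split_ifs with hex
      · obtain ⟨e1, e2, e3⟩ := hex.choose_spec.choose_spec
        omega
      · omega
    obtain ⟨x, hI1, _⟩ := embed_tree G κ f R hκ P L N Lmax hL0 hL hQ hP hmax hP2 par hpar x0 hx0
      t 0 (by omega)
    apply hno.false
    have hinj : Function.Injective fun v : Fin t => x (ρ v + 1) := by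
      intro v w hvw
      by_contra hne
      have hρne : ρ v ≠ ρ w := fun h => hne (hρ2 _ (mem_univ _) _ (mem_univ _) h)
      have hv := hρ1 v (mem_univ _)
      have hw := hρ1 w (mem_univ _)
      rcases Nat.lt_or_gt_of_ne hρne with h | h
      · exact (hI1 (ρ v + 1) (ρ w + 1) (by omega) (by omega)).2 hvw
      · exact (hI1 (ρ w + 1) (ρ v + 1) (by omega) (by omega)).2 hvw.symm
    refine ⟨⟨fun v => x (ρ v + 1), hinj⟩, ?_⟩
    intro v w
    have key : ∀ v w : Fin t, ρ v < ρ w → (G.Adj (x (ρ v + 1)) (x (ρ w + 1)) ↔ T.Adj v w) := by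
      intro v w h
      have hw := hρ1 w (mem_univ _)
      rw [(hI1 (ρ v + 1) (ρ w + 1) (by omega) (by omega)).1]
      constructor
      · intro hp
        exact (hpar2 w v h hp).symm
      · intro hadj
        exact hpar1 w v h hadj.symm
    show G.Adj (x (ρ v + 1)) (x (ρ w + 1)) ↔ T.Adj v w
    rcases Nat.lt_trichotomy (ρ v) (ρ w) with h | h | h
    · exact key v w h
    · have : v = w := hρ2 _ (mem_univ _) _ (mem_univ _) h
      subst this
      simp
    · rw [G.adj_comm, T.adj_comm]
      exact key w v h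
  · push Not at hx
    obtain ⟨E, hE1, hE2, hE3⟩ := dead_sets G κ f R hκp hκ P L N Lmax hL0 hL hQ hP hmax hx
    refine ⟨E, fun u => (hE1 u).trans (le_of_eq ?_), hE2, hE3⟩
    simp only [P, hLmax, tdConst, Nat.sub_zero, hN]
    ring

end Run7.h728
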