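import Mathlib
import Pool.Agent.Run7.h728.Basic
import Pool.Agent.Run7.h728.Assemble
import Pool.Agent.Run7.h728.Typed

set_option autoImplicit false

open Finset

namespace Run7.h728

/-- Classes of the pulled back orientation in a graph locally covered by graphs without an
induced copy of the forest `T`. -/
theorem cover_class {n : ℕ} (t : ℕ) (T : SimpleGraph (Fin t)) (hT : T.IsAcyclic)
    (G : SimpleGraph (Fin n)) (m r : ℕ) (hr : 1 ≤ r) (H : Fin m → G.Subgraph)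
    (hcov : ∀ u v, G.Adj u v → ∃ i, (H i).Adj u v)
    (hmult : ∀ v, {i | v ∈ (H i).verts}.ncard ≤ r)
    (hfree : ∀ i, IsEmpty (T ↪g (H i).coe))
    (q : ℕ) (R : Fin q → Fin q → Prop)
    (hR : ∀ ℓ, 1 ≤ ℓ → 4 * (2 * ℓ * q) ^ 4 ≤ 2 ^ ℓ → QProp R ℓ)
    (κ : Fin n → Fin q) (hκ : ∀ u v, G.Adj u v → κ u ≠ κ v)
    (W : Set (Fin n)) (f : W → ℕ)
    (hf : ∀ u v : W, (G.induce W).Adj u v → (R (κ u) (κ v) ↔ f u < f v)) :
    ColOn (G.induce W) (fun _ => True)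
      ((2 * ((r * (tdConst t * (Nat.log 2 q + 1))) * (Nat.log 2 q + 1))) ^ 2) := by
  classical
  have hE : ∀ i : Fin m, ∃ E : {w : W // w.1 ∈ (H i).verts} → Finset (Fin q),
      (∀ u, (E u).card ≤ tdConst t * (Nat.log 2 q + 1)) ∧ (∀ u, κ u.1.1 ∉ E u) ∧
      ∀ u v, (H i).Adj u.1.1 v.1.1 → κ u.1.1 ∈ E v ∨ κ v.1.1 ∈ E u := by
    intro i
    let φ : {w : W // w.1 ∈ (H i).verts} → (H i).verts := fun w => ⟨w.1.1, w.2⟩
    have hφ : Function.Injective φ := by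
      intro a b hab
      have : a.1.1 = b.1.1 := congrArg (fun z : (H i).verts => z.1) hab
      exact Subtype.ext (Subtype.ext this)
    let Gi : SimpleGraph {w : W // w.1 ∈ (H i).verts} := (H i).coe.comap φ
    have hadj : ∀ u v, Gi.Adj u v ↔ (H i).Adj u.1.1 v.1.1 := fun u v => Iff.rfl
    obtain ⟨E, h1, h2, h3⟩ := typed_degenerate t T hT q R hR _ Gi (fun w => κ w.1.1)
      (fun w => f w.1) (fun u v huv => hκ _ _ ((H i).adj_sub ((hadj u v).mp huv)))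
      (fun u v huv => hf u.1 v.1 (by simpa using (H i).adj_sub ((hadj u v).mp huv)))
      ⟨fun e => (hfree i).false (e.trans (SimpleGraph.Embedding.comap ⟨φ, hφ⟩ (H i).coe))⟩
    exact ⟨E, h1, h2, fun u v huv => h3 u v ((hadj u v).mpr huv)⟩
  choose E hE1 hE2 hE3 using hE
  let F : W → Finset (Fin q) := fun w =>
    univ.biUnion fun i => if h : w.1 ∈ (H i).verts then E i ⟨w, h⟩ else ∅
  refine cover_free (G.induce W) (fun w => κ w.1) F (fun _ => True)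
    (r * (tdConst t * (Nat.log 2 q + 1))) ?_ ?_ ?_ ?_
  · have h1 : 0 < tdConst t := by unfold tdConst; positivity
    exact Nat.one_le_iff_ne_zero.mpr (by positivity)
  · intro w _
    refine Finset.card_biUnion_le.trans ?_
    have hterm : ∀ i ∈ (univ : Finset (Fin m)),
        (if h : w.1 ∈ (H i).verts then E i ⟨w, h⟩ else ∅).card ≤
          if w.1 ∈ (H i).verts then tdConst t * (Nat.log 2 q + 1) else 0 := by
      intro i _
      split_ifs with h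
      · exact hE1 i _
      · simp
    refine (Finset.sum_le_sum hterm).trans ?_
    rw [← Finset.sum_filter, Finset.sum_const, smul_eq_mul]
    gcongr
    have := hmult w.1
    rwa [Set.ncard_eq_toFinset_card', Set.toFinset_ofPred] at this
  · intro w _ hw
    obtain ⟨i, _, hi⟩ := mem_biUnion.mp hw
    split_ifs at hi with h
    · exact hE2 i ⟨w, h⟩ hi
    · exact absurd hi (Finset.notMem_empty _)
  · intro u v _ _ huv
    have huv' : G.Adj u.1 v.1 := by simpa using huv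
    obtain ⟨i, hi⟩ := hcov _ _ huv'
    have hu : u.1 ∈ (H i).verts := (H i).edge_vert hi
    have hv : v.1 ∈ (H i).verts := (H i).edge_vert hi.symm
    rcases hE3 i ⟨u, hu⟩ ⟨v, hv⟩ hi with h | h
    · left
      refine mem_biUnion.mpr ⟨i, mem_univ _, ?_⟩
      rw [dif_pos hv]
      exact h
    · right
      refine mem_biUnion.mpr ⟨i, mem_univ _, ?_⟩
      rw [dif_pos hu]
      exact h

lemma le_two_pow (x : ℕ) : x ≤ 2 ^ x := Nat.lt_two_pow_self.le

lemma const_bound (t : ℕ) :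
    (4 * (tdConst t) ^ 2) * (2 * (Nat.log 2 (512 * (4 * (tdConst t) ^ 2)) + 2)) ^ 4 * 16 ≤
      2 ^ (80 * (t + 1)) := by
  set x := t + 1 with hx
  have hx1 : 1 ≤ x := by omega
  obtain ⟨y, hy⟩ : ∃ y, y = 2 ^ x := ⟨_, rfl⟩
  have hy2 : 2 ≤ y := by
    rw [hy]
    calc 2 = 2 ^ 1 := by norm_num
      _ ≤ 2 ^ x := Nat.pow_le_pow_right (by norm_num) hx1
  have e1 : t + 2 ≤ y := by
    have := Nat.lt_two_pow_self (n := x)
    omega
  have e2 : x ≤ y := by rw [hy]; exact le_two_pow x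
  have e3 : (23 : ℕ) ^ x ≤ y ^ 5 := by
    rw [hy, ← pow_mul, mul_comm, pow_mul]
    exact Nat.pow_le_pow_left (by norm_num) x
  have e4 : (40 : ℕ) ^ x ≤ y ^ 6 := by
    rw [hy, ← pow_mul, mul_comm, pow_mul]
    exact Nat.pow_le_pow_left (by norm_num) x
  have h28 : 256 ≤ y ^ 8 := by
    calc 256 = 2 ^ 8 := by norm_num
      _ ≤ y ^ 8 := Nat.pow_le_pow_left hy2 8
  have hc : tdConst t ≤ y ^ 20 := by
    have hy6 : y ≤ y ^ 6 := by
      calc y = y ^ 1 := (pow_one y).symm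
        _ ≤ y ^ 6 := Nat.pow_le_pow_right (by omega) (by norm_num)
    calc tdConst t = (2 * (t + 2) * 23 ^ x + x) * (40 ^ x * 64) := rfl
      _ ≤ (2 * y * y ^ 5 + y) * (y ^ 6 * 64) := by gcongr
      _ ≤ (2 * y * y ^ 5 + y ^ 6) * (y ^ 6 * 64) := by gcongr
      _ = 192 * y ^ 12 := by ring
      _ ≤ y ^ 8 * y ^ 12 := by gcongr; omega
      _ = y ^ 20 := by ring
  have hC : 4 * (tdConst t) ^ 2 ≤ y ^ 42 := by
    have h22 : 4 ≤ y ^ 2 := by
      calc 4 = 2 ^ 2 := by norm_num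
        _ ≤ y ^ 2 := Nat.pow_le_pow_left hy2 2
    calc 4 * (tdConst t) ^ 2 ≤ y ^ 2 * (y ^ 20) ^ 2 := by gcongr
      _ = y ^ 42 := by ring
  have hlog : Nat.log 2 (512 * (4 * (tdConst t) ^ 2)) + 2 ≤ 53 * x := by
    have h1 : 512 * (4 * (tdConst t) ^ 2) ≤ 2 ^ (51 * x) := by
      have h29 : 512 ≤ y ^ 9 := by
        calc 512 = 2 ^ 9 := by norm_num
          _ ≤ y ^ 9 := Nat.pow_le_pow_left hy2 9
      calc 512 * (4 * (tdConst t) ^ 2) ≤ y ^ 9 * y ^ 42 := by gcongr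
        _ = y ^ 51 := by ring
        _ = 2 ^ (51 * x) := by rw [hy, ← pow_mul, mul_comm]
    have h2 := Nat.log_mono_right (b := 2) h1
    rw [Nat.log_pow (by norm_num)] at h2
    omega
  have h4 : (2 * (Nat.log 2 (512 * (4 * (tdConst t) ^ 2)) + 2)) ^ 4 ≤ y ^ 31 := by
    have h27 : 106 ^ 4 ≤ y ^ 27 := by
      calc 106 ^ 4 ≤ 2 ^ 27 := by norm_num
        _ ≤ y ^ 27 := Nat.pow_le_pow_left hy2 27
    calc (2 * (Nat.log 2 (512 * (4 * (tdConst t) ^ 2)) + 2)) ^ 4 ≤ (2 * (53 * x)) ^ 4 := by gcongr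
      _ = 106 ^ 4 * x ^ 4 := by ring
      _ ≤ y ^ 27 * y ^ 4 := Nat.mul_le_mul h27 (Nat.pow_le_pow_left e2 4)
      _ = y ^ 31 := by ring
  have h16 : 16 ≤ y ^ 4 := by
    calc 16 = 2 ^ 4 := by norm_num
      _ ≤ y ^ 4 := Nat.pow_le_pow_left hy2 4
  calc (4 * (tdConst t) ^ 2) * (2 * (Nat.log 2 (512 * (4 * (tdConst t) ^ 2)) + 2)) ^ 4 * 16
      ≤ y ^ 42 * y ^ 31 * y ^ 4 := by gcongr
    _ = y ^ 77 := by ring
    _ ≤ y ^ 80 := Nat.pow_le_pow_right (by omega) (by norm_num)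
    _ = 2 ^ (80 * x) := by rw [hy, ← pow_mul, mul_comm]

lemma log_rrk (r k : ℕ) : Nat.log 2 (r ^ 2 * k) + 1 ≤ 2 * (Nat.log 2 (r * k) + 1) := by
  rcases Nat.eq_zero_or_pos (r * k) with h0 | h0
  · have : r ^ 2 * k = 0 := by
      rcases Nat.mul_eq_zero.mp h0 with h | h
      · rw [h]; ring
      · rw [h]; ring
    rw [this, h0]; simp
  · have h1 : r * k < 2 ^ (Nat.log 2 (r * k) + 1) := Nat.lt_pow_succ_log_self (by norm_num) _
    have hk : 1 ≤ k := Nat.pos_of_ne_zero (fun h => by rw [h] at h0; simp at h0)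
    have hr : 1 ≤ r := Nat.pos_of_ne_zero (fun h => by rw [h] at h0; simp at h0)
    have h2 : r ^ 2 * k < 2 ^ (2 * (Nat.log 2 (r * k) + 1)) := by
      calc r ^ 2 * k ≤ r ^ 2 * k * k := Nat.le_mul_of_pos_right _ hk
        _ = (r * k) ^ 2 := by ring
        _ < (2 ^ (Nat.log 2 (r * k) + 1)) ^ 2 := Nat.pow_lt_pow_left h1 (by norm_num)
        _ = 2 ^ (2 * (Nat.log 2 (r * k) + 1)) := by rw [← pow_mul, mul_comm]
    have h3 : r ^ 2 * k ≠ 0 := by positivity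
    have := Nat.log_lt_of_lt_pow h3 h2
    omega

theorem local_cover {n : ℕ} (t : ℕ) (T : SimpleGraph (Fin t)) (hT : T.IsAcyclic)
    (G : SimpleGraph (Fin n)) (m r : ℕ) (hr : 1 ≤ r) (H : Fin m → G.Subgraph)
    (hcov : ∀ u v, G.Adj u v → ∃ i, (H i).Adj u v)
    (hmult : ∀ v, {i | v ∈ (H i).verts}.ncard ≤ r)
    (hfree : ∀ i, IsEmpty (T ↪g (H i).coe)) :
    ∃ q : ℕ, G.chromaticNumber = (q : ℕ∞) ∧
      q ≤ 2 ^ (80 * (t + 1)) * r ^ 2 * delta G * (Nat.log 2 (r * delta G) + 1) ^ 4 := by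
  classical
  have hq := G.colorable_chromaticNumber_of_fintype
  have htop : G.chromaticNumber ≠ ⊤ := G.chromaticNumber_ne_top_iff_exists.mpr ⟨_, hq⟩
  set q := ENat.toNat G.chromaticNumber with hqdef
  have hqe : G.chromaticNumber = (q : ℕ∞) := (ENat.natCast_toNat htop).symm
  refine ⟨q, hqe, ?_⟩
  obtain ⟨κ⟩ := hq
  obtain ⟨R, hR1, _, hR3⟩ := exists_tournament q
  set k := delta G with hk
  obtain ⟨c, hc⟩ := delta_spec G _ (pullback_orientation G κ (fun u v h => κ.valid h) R hR1)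
  have hcol := assemble G κ (fun u v h => κ.valid h) R hR1 c hc
    (fun W f hf => cover_class t T hT G m r hr H hcov hmult hfree q R hR3 κ
      (fun u v h => κ.valid h) W f hf)
  have h1 := hcol.chromaticNumber_le
  rw [hqe] at h1
  have h2 : q ≤ k * (2 * ((r * (tdConst t * (Nat.log 2 q + 1))) * (Nat.log 2 q + 1))) ^ 2 := by
    exact_mod_cast h1
  have h3 : q ≤ (r ^ 2 * k) * ((4 * (tdConst t) ^ 2) * (Nat.log 2 q + 1) ^ 4) := by
    refine h2.trans (le_of_eq ?_)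
    ring
  have h4 := solve_log _ _ _ h3
  have h5 := const_bound t
  have h6 := log_rrk r k
  calc q ≤ 4 * tdConst t ^ 2 * (2 * (Nat.log 2 (512 * (4 * tdConst t ^ 2)) + 2)) ^ 4 *
        (r ^ 2 * k) * (Nat.log 2 (r ^ 2 * k) + 1) ^ 4 := h4
    _ ≤ 4 * tdConst t ^ 2 * (2 * (Nat.log 2 (512 * (4 * tdConst t ^ 2)) + 2)) ^ 4 *
        (r ^ 2 * k) * (2 * (Nat.log 2 (r * k) + 1)) ^ 4 := by gcongr
    _ = (4 * tdConst t ^ 2 * (2 * (Nat.log 2 (512 * (4 * tdConst t ^ 2)) + 2)) ^ 4 * 16) *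
        (r ^ 2 * k * (Nat.log 2 (r * k) + 1) ^ 4) := by ring
    _ ≤ 2 ^ (80 * (t + 1)) * (r ^ 2 * k * (Nat.log 2 (r * k) + 1) ^ 4) := by gcongr
    _ = 2 ^ (80 * (t + 1)) * r ^ 2 * k * (Nat.log 2 (r * k) + 1) ^ 4 := by ring

end Run7.h728
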