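import Mathlib
import Pool.Agent.Run7.h728.Defs
import Pool.Agent.Run7.h728.Basic
import Pool.Agent.Run7.h728.LocalCover

set_option autoImplicit false

namespace Run7.h728

lemma delta_le_of_colorable {n q : ℕ} (G : SimpleGraph (Fin n)) (h : G.Colorable q) :
    delta G ≤ q := by
  apply Nat.sInf_le
  intro D hD
  obtain ⟨c⟩ := h
  refine ⟨fun v => c v, ?_⟩
  intro x hx
  have key : ∀ y, Relation.TransGen (fun u v => D u v ∧ c u = c v) x y → False := by
    intro y hy
    induction hy with
    | single h => exact c.valid (hD.1 _ _ h.1) h.2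
    | tail _ h ih => exact ih
  exact key x hx

lemma forest_free_bound (t : ℕ) (T : SimpleGraph (Fin t)) (hT : T.IsAcyclic) {n : ℕ}
    (G : SimpleGraph (Fin n)) (hfree : IsEmpty (T ↪g G)) :
    G.Colorable (2 ^ (80 * (t + 1)) * delta G * (Nat.log 2 (delta G) + 1) ^ 4) := by
  have hfree' : ∀ i : Fin 1, IsEmpty (T ↪g ((fun _ : Fin 1 => (⊤ : G.Subgraph)) i).coe) := by
    intro i
    constructor
    intro e
    exact hfree.false (e.trans (SimpleGraph.Subgraph.topIso).toEmbedding)
  obtain ⟨q, h1, h2⟩ := local_cover t T hT G 1 1 le_rfl (fun _ => (⊤ : G.Subgraph))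
    (fun u v h => ⟨0, h⟩) (fun v => by
      refine (Set.ncard_le_ncard (Set.subset_univ _) Set.finite_univ).trans ?_
      simp) hfree'
  have h3 : G.Colorable q := by
    rw [← SimpleGraph.chromaticNumber_le_iff_colorable, h1]
  refine h3.mono (h2.trans (le_of_eq ?_))
  simp

end Run7.h728
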