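import Mathlib
import Pool.Agent.Run7.h728.Tourn

set_option autoImplicit false

open Finset

namespace Run7.h728

/-- exact count of maps with prescribed values -/
lemma prescribed_count {K I : Type*} [Fintype K] [DecidableEq K] [Fintype I] [DecidableEq I]
    (e : I → K) (he : Function.Injective e) (τ : I → Bool) :
    (univ.filter fun r : K → Bool => ∀ p : I, r (e p) = τ p).card * 2 ^ (Fintype.card I)
      = 2 ^ Fintype.card K := by
  classical
  set N := Fintype.card I with hN
  let φ : K → Bool → ℕ := fun x b => if ∃ p, e p = x ∧ τ p ≠ b then 0 else 1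
  have hprod : ∀ r : K → Bool, ∏ x, φ x (r x) = if ∀ p : I, r (e p) = τ p then 1 else 0 := by
    intro r
    by_cases h : ∀ p : I, r (e p) = τ p
    · rw [if_pos h]
      apply Finset.prod_eq_one
      intro x _
      simp only [φ]
      rw [if_neg]
      rintro ⟨p, rfl, hp⟩
      exact hp (h p).symm
    · rw [if_neg h]
      push Not at h
      obtain ⟨p, hp⟩ := h
      apply Finset.prod_eq_zero (mem_univ (e p))
      simp only [φ]
      rw [if_pos]
      exact ⟨p, rfl, fun h => hp h.symm⟩
  have hsum : ∑ r : K → Bool, ∏ x, φ x (r x) = ∏ x, ∑ b, φ x b := by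
    rw [Finset.prod_univ_sum, Fintype.piFinset_univ]
  have hfac : ∏ x, ∑ b, φ x b = 2 ^ (Fintype.card K - N) := by
    have h1 : ∀ x, ∑ b, φ x b = if x ∈ univ.image e then 1 else 2 := by
      intro x
      by_cases hx : x ∈ univ.image e
      · rw [if_pos hx]
        obtain ⟨p, -, rfl⟩ := mem_image.mp hx
        have : ∀ b, φ (e p) b = if τ p ≠ b then 0 else 1 := by
          intro b
          simp only [φ]
          congr 1
          apply propext
          constructor
          · rintro ⟨p', hp', h⟩
            rw [← he hp']; exact h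
          · intro h
            exact ⟨p, rfl, h⟩
        simp only [this]
        cases τ p <;> simp
      · rw [if_neg hx]
        have : ∀ b, φ x b = 1 := by
          intro b
          simp only [φ]
          rw [if_neg]
          rintro ⟨p, hp, -⟩
          exact hx (mem_image.mpr ⟨p, mem_univ _, hp⟩)
        simp [this]
    simp only [h1]
    rw [Finset.prod_ite, Finset.prod_const, Finset.prod_const, one_pow, one_mul]
    congr 1
    have h2 : (univ.filter fun x => x ∈ univ.image e).card = N := by
      rw [Finset.filter_mem_eq_inter, Finset.univ_inter, Finset.card_image_of_injective _ he]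
      rfl
    have := Finset.card_filter_add_card_filter_not (s := (univ : Finset K)) (fun x => x ∈ univ.image e)
    rw [h2, Finset.card_univ] at this
    omega
  have hNK : N ≤ Fintype.card K := Fintype.card_le_of_injective e he
  have hcard : (univ.filter fun r : K → Bool => ∀ p : I, r (e p) = τ p).card =
      2 ^ (Fintype.card K - N) := by
    rw [← hfac, ← hsum, Finset.card_filter]
    exact Finset.sum_congr rfl (fun r _ => (hprod r).symm)
  rw [hcard, ← pow_add]
  congr 1
  omega

/-- There is a tournament on `Fin q` without a half graph pattern of height `h` when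
`q ^ 2 < 2 ^ h`. -/
theorem exists_no_half (q h : ℕ) (h0 : 0 < h) (hh : q ^ 2 < 2 ^ h) : ∃ R : Fin q → Fin q → Prop,
    (∀ a b, a ≠ b → Xor (R a b) (R b a)) ∧
    ∀ α β : Fin h → Fin q, (∀ i j, α i ≠ β j) → ¬ ∀ i j, (R (α i) (β j) ↔ i ≤ j) := by
  classical
  by_contra hcon
  push Not at hcon
  -- every code contains a pattern
  let Bad : (Fin h → Fin q) × (Fin h → Fin q) → Finset (Fin q × Fin q → Bool) := fun x =>
    univ.filter fun r => (∀ i j, x.1 i ≠ x.2 j) ∧ ∀ i j, (Rel r (x.1 i) (x.2 j) ↔ i ≤ j)
  have hcov : (univ : Finset (Fin q × Fin q → Bool)) ⊆ univ.biUnion Bad := by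
    intro r _
    obtain ⟨α, β, h1, h2⟩ := hcon (Rel r) (fun a b hab => rel_xor r hab)
    exact mem_biUnion.mpr ⟨(α, β), mem_univ _, mem_filter.mpr ⟨mem_univ _, h1, h2⟩⟩
  have hbad : ∀ x, (Bad x).card * 2 ^ (h ^ 2) ≤ 2 ^ (q ^ 2) := by
    intro x
    by_cases hx : (∀ i j, x.1 i ≠ x.2 j) ∧ ∃ r, ∀ i j, (Rel r (x.1 i) (x.2 j) ↔ i ≤ j)
    · obtain ⟨h3, r0, hr0⟩ := hx
      have h1 : Function.Injective x.1 := by
        intro i i' hii
        by_contra hne
        rcases lt_or_gt_of_ne hne with hlt | hlt
        · have e1 := (hr0 i i).mpr le_rfl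
          have e2 := (hr0 i' i).not.mpr (not_le.mpr hlt)
          rw [hii] at e1
          exact e2 e1
        · have e1 := (hr0 i' i').mpr le_rfl
          have e2 := (hr0 i i').not.mpr (not_le.mpr hlt)
          rw [← hii] at e1
          exact e2 e1
      have h2 : Function.Injective x.2 := by
        intro j j' hjj
        by_contra hne
        rcases lt_or_gt_of_ne hne with hlt | hlt
        · have e1 := (hr0 j' j').mpr le_rfl
          have e2 := (hr0 j' j).not.mpr (not_le.mpr hlt)
          rw [← hjj] at e1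
          exact e2 e1
        · have e1 := (hr0 j j).mpr le_rfl
          have e2 := (hr0 j j').not.mpr (not_le.mpr hlt)
          rw [hjj] at e1
          exact e2 e1
      let e : Fin h × Fin h → Fin q × Fin q := fun p =>
        if x.1 p.1 < x.2 p.2 then (x.1 p.1, x.2 p.2) else (x.2 p.2, x.1 p.1)
      let τ : Fin h × Fin h → Bool := fun p =>
        if x.1 p.1 < x.2 p.2 then decide (p.1 ≤ p.2) else !(decide (p.1 ≤ p.2))
      have he : Function.Injective e := by
        rintro ⟨i, j⟩ ⟨i', j'⟩ h
        simp only [e] at h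
        split_ifs at h with ha hb hb
        · simp only [Prod.mk.injEq] at h
          exact Prod.ext (h1 h.1) (h2 h.2)
        · simp only [Prod.mk.injEq] at h
          exact absurd h.1 (h3 _ _)
        · simp only [Prod.mk.injEq] at h
          exact absurd h.1.symm (h3 _ _)
        · simp only [Prod.mk.injEq] at h
          exact Prod.ext (h1 h.2) (h2 h.1)
      have hm := prescribed_count e he τ
      have hK : Fintype.card (Fin q × Fin q) = q ^ 2 := by
        rw [Fintype.card_prod, Fintype.card_fin, sq]
      have hI : Fintype.card (Fin h × Fin h) = h ^ 2 := by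
        rw [Fintype.card_prod, Fintype.card_fin, sq]
      rw [hK, hI] at hm
      rw [← hm]
      gcongr
      intro r hr
      have hr' := (mem_filter.mp hr).2.2
      refine mem_filter.mpr ⟨mem_univ _, ?_⟩
      rintro ⟨i, j⟩
      have hiff := hr' i j
      simp only [e, τ]
      rcases lt_or_gt_of_ne (h3 i j) with hlt | hgt
      · rw [if_pos hlt, if_pos hlt]
        have hng : ¬ x.2 j < x.1 i := not_lt.mpr hlt.le
        have : Rel r (x.1 i) (x.2 j) ↔ r (x.1 i, x.2 j) = true := by
          unfold Rel; simp [hlt, hng]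
        rw [this] at hiff
        by_cases hc : i ≤ j
        · simp [hc, hiff.mpr hc]
        · have : ¬ r (x.1 i, x.2 j) = true := fun h => hc (hiff.mp h)
          simp [hc, this]
      · have hnl : ¬ x.1 i < x.2 j := not_lt.mpr (le_of_lt hgt)
        rw [if_neg hnl, if_neg hnl]
        have : Rel r (x.1 i) (x.2 j) ↔ r (x.2 j, x.1 i) = false := by
          unfold Rel; simp [hnl, show x.2 j < x.1 i from hgt]
        rw [this] at hiff
        by_cases hc : i ≤ j
        · simp [hc, hiff.mpr hc]
        · have : ¬ r (x.2 j, x.1 i) = false := fun h => hc (hiff.mp h)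
          simp only [Bool.not_eq_false] at this
          simp [hc, this]
    · have : Bad x = ∅ := by
        apply Finset.filter_eq_empty_iff.mpr
        intro r _ h
        exact hx ⟨h.1, r, h.2⟩
      rw [this]; simp
  have h1 : (univ : Finset (Fin q × Fin q → Bool)).card ≤ ∑ x, (Bad x).card :=
    (Finset.card_le_card hcov).trans Finset.card_biUnion_le
  have h2 : (univ : Finset (Fin q × Fin q → Bool)).card = 2 ^ (q ^ 2) := by
    rw [Finset.card_univ]; simp [sq]
  rw [h2] at h1
  have h3 : 2 ^ (q ^ 2) * 2 ^ (h ^ 2) ≤ (q ^ 2) ^ h * 2 ^ (q ^ 2) := by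
    calc 2 ^ (q ^ 2) * 2 ^ (h ^ 2) ≤ (∑ x, (Bad x).card) * 2 ^ (h ^ 2) := by gcongr
      _ = ∑ x, (Bad x).card * 2 ^ (h ^ 2) := by rw [Finset.sum_mul]
      _ ≤ ∑ x : (Fin h → Fin q) × (Fin h → Fin q), 2 ^ (q ^ 2) :=
          Finset.sum_le_sum (fun x _ => hbad x)
      _ = (q ^ 2) ^ h * 2 ^ (q ^ 2) := by
          rw [Finset.sum_const, Finset.card_univ, smul_eq_mul]
          simp only [Fintype.card_prod, Fintype.card_fun, Fintype.card_fin]
          rw [← pow_add, ← pow_mul]
          congr 2
          ring
  have h4 : 2 ^ (h ^ 2) ≤ (q ^ 2) ^ h := by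
    have : 2 ^ (q ^ 2) * 2 ^ (h ^ 2) ≤ 2 ^ (q ^ 2) * (q ^ 2) ^ h := by
      rw [mul_comm (2 ^ (q ^ 2)) ((q ^ 2) ^ h)]; exact h3
    exact Nat.le_of_mul_le_mul_left this (by positivity)
  have h5 : (q ^ 2) ^ h < (2 ^ h) ^ h := Nat.pow_lt_pow_left hh h0.ne'
  rw [← pow_mul 2 h h, ← sq] at h5
  omega

end Run7.h728
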