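import Mathlib
import Pool.Agent.Run7.h728.Basic
import Pool.Agent.Run7.h728.HalfGraph

set_option autoImplicit false

open Finset

namespace Run7.h728

variable {n : ℕ}

section measure

variable (μ : Finset (Fin n) → ℕ) (hmono : ∀ A B, A ⊆ B → μ A ≤ μ B)
  (hsub : ∀ A B, μ (A ∪ B) ≤ μ A + μ B) (hsing : ∀ v, μ {v} ≤ 1) (hempty : μ ∅ = 0)

include hmono hsub hsing hempty

lemma exists_subset_eq (S : Finset (Fin n)) (x : ℕ) (hx : x ≤ μ S) :
    ∃ T, T ⊆ S ∧ μ T = x := by
  classical
  induction S using Finset.induction_on with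
  | empty => exact ⟨∅, subset_rfl, by omega⟩
  | insert v S hv ih =>
      rcases Nat.lt_or_ge (μ S) x with h | h
      · refine ⟨insert v S, subset_rfl, ?_⟩
        have h1 := hsub {v} S
        have h2 := hsing v
        rw [← Finset.insert_eq] at h1
        omega
      · obtain ⟨T, hT, hT'⟩ := ih h
        exact ⟨T, hT.trans (Finset.subset_insert _ _), hT'⟩

lemma meas_le_one (T : Finset (Fin n)) (hT : T.card ≤ 1) : μ T ≤ 1 := by
  rcases T.eq_empty_or_nonempty with h | ⟨w, hw⟩
  · rw [h, hempty]; omega
  · refine (hmono T {w} ?_).trans (hsing w)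
    intro v hv
    rw [mem_singleton]
    exact Finset.card_le_one.mp hT v hv w hw

lemma exists_labels (q M : ℕ) (S : Finset (Fin n)) (hS : q * M ≤ μ S) :
    ∃ l : Fin n → ℕ, ∀ i, i < q → M ≤ μ (S.filter fun v => l v = i) := by
  classical
  induction q generalizing S with
  | zero => exact ⟨fun _ => 0, fun i hi => absurd hi (Nat.not_lt_zero _)⟩
  | succ q ih =>
      obtain ⟨T, hT, hT'⟩ := exists_subset_eq μ hmono hsub hsing hempty S M (by
        rw [Nat.add_mul, one_mul] at hS
        have := Nat.zero_le (q * M)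
        omega)
      have h1 : μ S ≤ μ T + μ (S \ T) := by
        have := hsub T (S \ T)
        rwa [Finset.union_sdiff_of_subset hT] at this
      obtain ⟨l, hl⟩ := ih (S \ T) (by
        rw [Nat.add_mul, one_mul] at hS
        omega)
      refine ⟨fun v => if v ∈ T then q else l v, fun i hi => ?_⟩
      rcases Nat.lt_or_ge i q with h | h
      · refine (hl i h).trans (hmono _ _ ?_)
        intro v hv
        rw [mem_filter, mem_sdiff] at hv
        rw [mem_filter]
        refine ⟨hv.1.1, ?_⟩
        show (if v ∈ T then q else l v) = i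
        rw [if_neg hv.1.2]
        exact hv.2
      · have : i = q := by omega
        subst this
        rw [← hT']
        apply hmono
        intro v hv
        rw [mem_filter]
        refine ⟨hT hv, ?_⟩
        show (if v ∈ T then i else l v) = i
        rw [if_pos hv]

lemma sum_colours {k : ℕ} (c : Fin n → Fin k) (S : Finset (Fin n)) :
    μ S ≤ ∑ j, μ (S.filter fun v => c v = j) := by
  classical
  have h1 : ∀ J : Finset (Fin k), μ (S.filter fun v => c v ∈ J) ≤
      ∑ j ∈ J, μ (S.filter fun v => c v = j) := by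
    intro J
    induction J using Finset.induction_on with
    | empty => simp [hempty]
    | insert j J hj ih =>
        rw [Finset.sum_insert hj]
        have h2 : (S.filter fun v => c v ∈ insert j J) =
            (S.filter fun v => c v = j) ∪ (S.filter fun v => c v ∈ J) := by
          ext v
          simp only [mem_filter, mem_insert, mem_union]
          tauto
        rw [h2]
        exact (hsub _ _).trans (Nat.add_le_add_left ih _)
  have h3 := h1 univ
  simpa using h3

/-- Two anticomplete sets of large measure in a graph of small dichromatic number. -/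
theorem anti_pair (G : SimpleGraph (Fin n)) (k a : ℕ) (hk1 : 1 ≤ k) (hk : delta G ≤ k)
    (ha : 1 ≤ a) (S : Finset (Fin n)) (hS : a * (16 * k ^ 2 * (Nat.log 2 k + 4)) ≤ μ S) :
    ∃ A B, A ⊆ S ∧ B ⊆ S ∧ a ≤ μ A ∧ a ≤ μ B ∧ ∀ u ∈ A, ∀ v ∈ B, u ≠ v ∧ ¬ G.Adj u v := by
  classical
  set h := 4 * (Nat.log 2 k + 4) with hh
  set q := k * (2 * h - 1) + 1 with hq
  have hq1 : q ≤ k * (2 * h) := by
    obtain ⟨z, hz⟩ : ∃ z, 2 * h = z + 1 := ⟨2 * h - 1, by omega⟩
    rw [hq, hz, Nat.add_sub_cancel, Nat.mul_add, mul_one]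
    omega
  have hq2 : q ^ 2 < 2 ^ h := by
    have e1 : k < 2 ^ (Nat.log 2 k + 1) := Nat.lt_pow_succ_log_self (by norm_num) k
    set y := Nat.log 2 k with hy
    have e2 : 2 * h ≤ 2 ^ (y + 5) := by
      have : y + 4 ≤ 2 ^ (y + 2) := by
        have := Nat.lt_two_pow_self (n := y + 2)
        have e3 : 4 ≤ 2 ^ (y + 2) := by
          calc 4 = 2 ^ 2 := by norm_num
            _ ≤ 2 ^ (y + 2) := Nat.pow_le_pow_right (by norm_num) (by omega)
        rcases Nat.eq_zero_or_pos y with h0 | h0
        · rw [h0]; norm_num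
        · have e4 : 2 * (y + 2) ≤ 2 ^ (y + 2) := by
            have : ∀ z, 3 ≤ z → 2 * z ≤ 2 ^ z := by
              intro z hz
              induction z, hz using Nat.le_induction with
              | base => norm_num
              | succ z _ ih => rw [pow_succ]; omega
            exact this _ (by omega)
          omega
      calc 2 * h = 8 * (y + 4) := by rw [hh]; ring
        _ ≤ 8 * 2 ^ (y + 2) := by gcongr
        _ = 2 ^ (y + 5) := by rw [pow_add, pow_add]; ring
    have e5 : q < 2 ^ (2 * y + 6) := by
      calc q ≤ k * (2 * h) := hq1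
        _ < 2 ^ (y + 1) * 2 ^ (y + 5) := by
            apply Nat.mul_lt_mul_of_lt_of_le e1 e2
            positivity
        _ = 2 ^ (2 * y + 6) := by rw [← pow_add]; congr 1; ring
    calc q ^ 2 < (2 ^ (2 * y + 6)) ^ 2 := Nat.pow_lt_pow_left e5 (by norm_num)
      _ = 2 ^ (4 * y + 12) := by rw [← pow_mul]; congr 1; ring
      _ ≤ 2 ^ h := Nat.pow_le_pow_right (by norm_num) (by omega)
  obtain ⟨R, hR1, hR2⟩ := exists_no_half q h (by omega) hq2
  -- labels
  have hlabS : q * (2 * a * k) ≤ μ S := by
    refine le_trans ?_ hS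
    calc q * (2 * a * k) ≤ (k * (2 * h)) * (2 * a * k) := by gcongr
      _ = a * (16 * k ^ 2 * (Nat.log 2 k + 4)) := by rw [hh]; ring
  obtain ⟨l, hl⟩ := exists_labels μ hmono hsub hsing hempty q (2 * a * k) S hlabS
  have hq0 : 0 < q := by omega
  let lab : Fin n → Fin q := fun v => if hv : l v < q then ⟨l v, hv⟩ else ⟨0, hq0⟩
  have hlab : ∀ i : Fin q, 2 * a * k ≤ μ (S.filter fun v => lab v = i) := by
    intro i
    refine (hl i i.2).trans (hmono _ _ ?_)
    intro v hv
    rw [mem_filter] at hv ⊢
    refine ⟨hv.1, ?_⟩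
    simp only [lab]
    rw [dif_pos (by rw [hv.2]; exact i.2)]
    exact Fin.ext hv.2
  -- the orientation
  let D : Fin n → Fin n → Prop := fun u v => G.Adj u v ∧
    (R (lab u) (lab v) ∧ lab u ≠ lab v ∨ lab u = lab v ∧ u < v)
  have hD : IsOrientation G D := by
    refine ⟨fun u v h => h.1, fun u v huv => ?_⟩
    by_cases hl : lab u = lab v
    · rcases lt_or_gt_of_ne huv.ne with h1 | h1
      · left
        exact ⟨⟨huv, Or.inr ⟨hl, h1⟩⟩, fun h2 => by
          rcases h2.2 with h3 | h3
          · exact h3.2 hl.symm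
          · exact absurd h3.2 (not_lt.mpr h1.le)⟩
      · right
        exact ⟨⟨huv.symm, Or.inr ⟨hl.symm, h1⟩⟩, fun h2 => by
          rcases h2.2 with h3 | h3
          · exact h3.2 hl
          · exact absurd h3.2 (not_lt.mpr h1.le)⟩
    · rcases hR1 _ _ hl with h1 | h1
      · left
        exact ⟨⟨huv, Or.inl ⟨h1.1, hl⟩⟩, fun h2 => by
          rcases h2.2 with h3 | h3
          · exact h1.2 h3.1
          · exact hl h3.1.symm⟩
      · right
        exact ⟨⟨huv.symm, Or.inl ⟨h1.1, fun h => hl h.symm⟩⟩, fun h2 => by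
          rcases h2.2 with h3 | h3
          · exact h1.2 h3.1
          · exact hl h3.1⟩
  obtain ⟨c, hc⟩ := delta_spec G D hD
  obtain ⟨f, hf⟩ := exists_height _ hc
  let g : Fin n → ℕ := fun v => f v * n + v
  have hginj : Function.Injective g := by
    intro u v huv
    have h1 : g u % n = g v % n := by rw [huv]
    simp only [g, Nat.mul_add_mod_self_right, Nat.mod_eq_of_lt u.2, Nat.mod_eq_of_lt v.2] at h1
    exact Fin.ext h1
  have hgD : ∀ u v, D u v → c u = c v → g u < g v := by
    intro u v h1 h2
    have h3 := hf u v ⟨h1, h2⟩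
    simp only [g]
    have hu := u.2
    calc f u * n + u < f u * n + n := by omega
      _ = (f u + 1) * n := by ring
      _ ≤ f v * n := by gcongr; omega
      _ ≤ f v * n + v := by omega
  -- a good colour for every label
  have hcol : ∀ i : Fin q, ∃ j : Fin (delta G),
      2 * a ≤ μ ((S.filter fun v => lab v = i).filter fun v => c v = j) := by
    intro i
    by_contra hcon
    push Not at hcon
    have h1 := sum_colours μ hmono hsub hsing hempty c (S.filter fun v => lab v = i)
    have h2 : ∑ j, μ ((S.filter fun v => lab v = i).filter fun v => c v = j) ≤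
        ∑ _j : Fin (delta G), (2 * a - 1) := by
      apply Finset.sum_le_sum
      intro j _
      have := hcon j
      omega
    rw [Finset.sum_const, Finset.card_univ, Fintype.card_fin, smul_eq_mul] at h2
    have h3 := hlab i
    have h4 : delta G * (2 * a - 1) ≤ k * (2 * a - 1) := by gcongr
    have h5 : k * (2 * a - 1) < 2 * a * k := by
      rw [mul_comm (2 * a) k]
      exact Nat.mul_lt_mul_of_pos_left (by omega) (by omega)
    omega
  choose γ hγ using hcol
  have hpig : ∃ c0 ∈ (univ : Finset (Fin (delta G))),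
      2 * h - 1 < ((univ : Finset (Fin q)).filter fun i => γ i = c0).card := by
    apply Finset.exists_lt_card_fiber_of_mul_lt_card_of_maps_to
    · intro i _; exact mem_univ _
    · rw [Finset.card_univ, Finset.card_univ, Fintype.card_fin, Fintype.card_fin]
      calc delta G * (2 * h - 1) ≤ k * (2 * h - 1) := by gcongr
        _ < q := by omega
  obtain ⟨c0, -, hc0⟩ := hpig
  obtain ⟨I, hIsub, hIcard⟩ := Finset.exists_subset_card_eq (show 2 * h ≤ _ by omega : 2 * h ≤
    ((univ : Finset (Fin q)).filter fun i => γ i = c0).card)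
  let A : Fin q → Finset (Fin n) := fun i =>
    (S.filter fun v => lab v = i).filter fun v => c v = c0
  have hA : ∀ i ∈ I, 2 * a ≤ μ (A i) := by
    intro i hi
    have h1 := (mem_filter.mp (hIsub hi)).2
    have h2 := hγ i
    rw [h1] at h2
    exact h2
  -- thresholds
  obtain ⟨X, hX⟩ : ∃ X, ∀ v, g v ≤ X := ⟨univ.sup g, fun v => Finset.le_sup (mem_univ v)⟩
  have hthr : ∀ i ∈ I, ∃ t, a ≤ μ ((A i).filter fun v => g v ≤ t) ∧
      μ ((A i).filter fun v => g v ≤ t) ≤ a := by
    intro i hi
    have hex : ∃ t, a ≤ μ ((A i).filter fun v => g v ≤ t) := by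
      refine ⟨X, ?_⟩
      rw [Finset.filter_true_of_mem (fun v _ => hX v)]
      have := hA i hi
      omega
    refine ⟨Nat.find hex, Nat.find_spec hex, ?_⟩
    rcases Nat.eq_zero_or_pos (Nat.find hex) with h0 | h0
    · rw [h0]
      have hsub1 : ((A i).filter fun v => g v ≤ 0) ⊆
          (univ.filter fun v => g v = 0) := by
        intro v hv
        rw [mem_filter] at hv ⊢
        exact ⟨mem_univ _, by omega⟩
      have hcard : (univ.filter fun v => g v = 0).card ≤ 1 := by
        rw [Finset.card_le_one]
        intro u hu v hv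
        exact hginj ((mem_filter.mp hu).2.trans (mem_filter.mp hv).2.symm)
      calc μ ((A i).filter fun v => g v ≤ 0) ≤ μ (univ.filter fun v => g v = 0) :=
            hmono _ _ hsub1
        _ ≤ 1 := meas_le_one μ hmono hsub hsing hempty _ hcard
        _ ≤ a := ha
    · have hmin := Nat.find_min hex (m := Nat.find hex - 1) (by omega)
      rw [not_le] at hmin
      have hsplit : ((A i).filter fun v => g v ≤ Nat.find hex) ⊆
          ((A i).filter fun v => g v ≤ Nat.find hex - 1) ∪
            (univ.filter fun v => g v = Nat.find hex) := by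
        intro v hv
        rw [mem_filter] at hv
        rcases Nat.lt_or_ge (g v) (Nat.find hex) with h1 | h1
        · exact mem_union_left _ (mem_filter.mpr ⟨hv.1, by omega⟩)
        · exact mem_union_right _ (mem_filter.mpr ⟨mem_univ _, by omega⟩)
      have hcard : (univ.filter fun v => g v = Nat.find hex).card ≤ 1 := by
        rw [Finset.card_le_one]
        intro u hu v hv
        exact hginj ((mem_filter.mp hu).2.trans (mem_filter.mp hv).2.symm)
      have hone : μ (univ.filter fun v => g v = Nat.find hex) ≤ 1 :=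
        meas_le_one μ hmono hsub hsing hempty _ hcard
      have h2 := (hmono _ _ hsplit).trans (hsub _ _)
      omega
  have hthr' : ∃ t : Fin q → ℕ, ∀ i ∈ I, a ≤ μ ((A i).filter fun v => g v ≤ t i) ∧
      μ ((A i).filter fun v => g v ≤ t i) ≤ a := by
    choose! t ht using hthr
    exact ⟨t, ht⟩
  obtain ⟨t, ht⟩ := hthr'
  -- sort the labels by thresholds
  let K : Fin q → ℕ := fun i => t i * q + i
  have hKinj : Function.Injective K := by
    intro i j hij
    have h1 : K i % q = K j % q := by rw [hij]
    simp only [K, Nat.mul_add_mod_self_right, Nat.mod_eq_of_lt i.2, Nat.mod_eq_of_lt j.2] at h1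
    exact Fin.ext h1
  have hcardK : (I.image K).card = 2 * h := by
    rw [Finset.card_image_of_injective _ hKinj, hIcard]
  let y := (I.image K).orderEmbOfFin hcardK
  have hy : ∀ j, ∃ i ∈ I, K i = y j := by
    intro j
    have := Finset.orderEmbOfFin_mem (I.image K) hcardK j
    obtain ⟨i, hi, hi'⟩ := mem_image.mp this
    exact ⟨i, hi, hi'⟩
  choose σ hσI hσK using hy
  have hσmono : ∀ i j, i < j → t (σ i) ≤ t (σ j) := by
    intro i j hij
    have h1 : K (σ i) < K (σ j) := by
      rw [hσK, hσK]
      exact (I.image K).orderEmbOfFin hcardK |>.strictMono hij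
    by_contra hcon
    rw [not_le] at hcon
    have h2 := (σ j).2
    have : K (σ j) < K (σ i) := by
      calc t (σ j) * q + (σ j) < t (σ j) * q + q := by omega
        _ = (t (σ j) + 1) * q := by ring
        _ ≤ t (σ i) * q := by gcongr; omega
        _ ≤ t (σ i) * q + (σ i) := by omega
    omega
  have hσinj : Function.Injective σ := by
    intro i j hij
    have : y i = y j := by rw [← hσK, ← hσK, hij]
    exact (I.image K).orderEmbOfFin hcardK |>.injective this
  -- a backward pair
  have hback : ∃ i j, i < j ∧ ¬ R (σ i) (σ j) := by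
    by_contra hcon
    push Not at hcon
    let e0 : Fin h → Fin (2 * h) := fun i => ⟨2 * i, by have := i.2; omega⟩
    let e1 : Fin h → Fin (2 * h) := fun i => ⟨2 * i + 1, by have := i.2; omega⟩
    have hne : ∀ i j, e0 i ≠ e1 j := by
      intro i j hij
      have := congrArg Fin.val hij
      simp only [e0, e1] at this
      omega
    refine hR2 (fun i => σ (e0 i)) (fun j => σ (e1 j)) (fun i j hij => hne i j (hσinj hij)) ?_
    intro i j
    constructor
    · intro hr
      by_contra hc2
      rw [not_le] at hc2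
      have hlt : e1 j < e0 i := by
        show 2 * (j : ℕ) + 1 < 2 * (i : ℕ)
        have : (j : ℕ) < i := hc2
        omega
      have h1 := hcon _ _ hlt
      rcases hR1 _ _ (fun h => hne i j (hσinj h)) with h2 | h2
      · exact h2.2 h1
      · exact h2.2 hr
    · intro hle
      apply hcon
      show 2 * (i : ℕ) < 2 * (j : ℕ) + 1
      have : (i : ℕ) ≤ j := hle
      omega
  obtain ⟨i, j, hij, hnR⟩ := hback
  have hne : σ i ≠ σ j := fun h => hij.ne (hσinj h)
  have hRji : R (σ j) (σ i) := by
    rcases hR1 _ _ hne with h1 | h1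
    · exact absurd h1.1 hnR
    · exact h1.1
  refine ⟨(A (σ i)).filter (fun v => g v ≤ t (σ i)), (A (σ j)).filter (fun v => t (σ j) < g v),
    ?_, ?_, (ht _ (hσI i)).1, ?_, ?_⟩
  · exact (Finset.filter_subset _ _).trans ((Finset.filter_subset _ _).trans (Finset.filter_subset _ _))
  · exact (Finset.filter_subset _ _).trans ((Finset.filter_subset _ _).trans (Finset.filter_subset _ _))
  · have h1 := hA _ (hσI j)
    have h2 := (ht _ (hσI j)).2
    have h3 : A (σ j) ⊆ ((A (σ j)).filter fun v => g v ≤ t (σ j)) ∪
        ((A (σ j)).filter fun v => t (σ j) < g v) := by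
      intro v hv
      rcases Nat.lt_or_ge (t (σ j)) (g v) with h | h
      · exact mem_union_right _ (mem_filter.mpr ⟨hv, h⟩)
      · exact mem_union_left _ (mem_filter.mpr ⟨hv, h⟩)
    have h4 := (hmono _ _ h3).trans (hsub _ _)
    omega
  · intro u hu v hv
    rw [mem_filter, mem_filter, mem_filter] at hu hv
    obtain ⟨⟨⟨_, hu1⟩, hu2⟩, hu3⟩ := hu
    obtain ⟨⟨⟨_, hv1⟩, hv2⟩, hv3⟩ := hv
    have hlne : lab v ≠ lab u := by rw [hu1, hv1]; exact hne.symm
    refine ⟨fun h => hlne (by rw [h]), fun hadj => ?_⟩
    have hDvu : D v u := ⟨hadj.symm, Or.inl ⟨by rw [hu1, hv1]; exact hRji, hlne⟩⟩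
    have h1 := hgD v u hDvu (hv2.trans hu2.symm)
    have h2 := hσmono i j hij
    omega

/-- `2 ^ j` pairwise anticomplete sets of large measure. -/
theorem anti_many (G : SimpleGraph (Fin n)) (k a : ℕ) (hk1 : 1 ≤ k) (hk : delta G ≤ k)
    (ha : 1 ≤ a) (j : ℕ) : ∀ S : Finset (Fin n),
    a * (16 * k ^ 2 * (Nat.log 2 k + 4)) ^ j ≤ μ S →
    ∃ T : Fin (2 ^ j) → Finset (Fin n), (∀ i, T i ⊆ S) ∧ (∀ i, a ≤ μ (T i)) ∧
      ∀ i i', i ≠ i' → ∀ u ∈ T i, ∀ v ∈ T i', u ≠ v ∧ ¬ G.Adj u v := by
  classical
  induction j with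
  | zero =>
      intro S hS
      refine ⟨fun _ => S, fun _ => subset_rfl, fun _ => by simpa using hS, ?_⟩
      intro i i' hii
      refine absurd (Fin.ext ?_) hii
      have h1 : (i : ℕ) < 1 := i.2
      have h2 : (i' : ℕ) < 1 := i'.2
      omega
  | succ j ih =>
      intro S hS
      have hC : 1 ≤ 16 * k ^ 2 * (Nat.log 2 k + 4) := by
        have : 0 < 16 * k ^ 2 * (Nat.log 2 k + 4) := by positivity
        omega
      obtain ⟨A, B, hAS, hBS, hA, hB, hAB⟩ := anti_pair μ hmono hsub hsing hempty G k
        (a * (16 * k ^ 2 * (Nat.log 2 k + 4)) ^ j) hk1 hk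
        (Nat.one_le_iff_ne_zero.mpr (by positivity)) S (by rw [mul_assoc, ← pow_succ]; exact hS)
      obtain ⟨TA, hTA1, hTA2, hTA3⟩ := ih A hA
      obtain ⟨TB, hTB1, hTB2, hTB3⟩ := ih B hB
      let e : Fin (2 ^ (j + 1)) ≃ Fin (2 ^ j) ⊕ Fin (2 ^ j) :=
        (finCongr (by rw [pow_succ]; ring)).trans finSumFinEquiv.symm
      refine ⟨fun i => Sum.elim TA TB (e i), ?_, ?_, ?_⟩
      · intro i
        show Sum.elim TA TB (e i) ⊆ S
        cases e i with
        | inl x => exact (hTA1 x).trans hAS
        | inr x => exact (hTB1 x).trans hBS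
      · intro i
        show a ≤ μ (Sum.elim TA TB (e i))
        cases e i with
        | inl x => exact hTA2 x
        | inr x => exact hTB2 x
      · intro i i' hii' u hu v hv
        have hne : e i ≠ e i' := fun h => hii' (e.injective h)
        dsimp only at hu hv
        cases hi : e i with
        | inl x =>
          cases hi' : e i' with
          | inl x' =>
            rw [hi] at hu; rw [hi'] at hv
            exact hTA3 x x' (fun h => hne (by rw [hi, hi', h])) u hu v hv
          | inr x' =>
            rw [hi] at hu; rw [hi'] at hv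
            exact hAB u (hTA1 x hu) v (hTB1 x' hv)
        | inr x =>
          cases hi' : e i' with
          | inl x' =>
            rw [hi] at hu; rw [hi'] at hv
            have := hAB v (hTA1 x' hv) u (hTB1 x hu)
            exact ⟨this.1.symm, fun h => this.2 h.symm⟩
          | inr x' =>
            rw [hi] at hu; rw [hi'] at hv
            exact hTB3 x x' (fun h => hne (by rw [hi, hi', h])) u hu v hv

end measure

end Run7.h728
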