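import Mathlib

set_option autoImplicit false

namespace Run7.h728

/-- The pair `(A, B)` is a simplex of the box complex `B_0(G)`: not both sets are empty and all
edges between `A` and `B` are present (so `A` and `B` are disjoint). -/
def IsBox {n : ℕ} (G : SimpleGraph (Fin n)) (A B : Finset (Fin n)) : Prop :=
  (A ∪ B).Nonempty ∧ ∀ a ∈ A, ∀ b ∈ B, G.Adj a b

/-- There is a sign-equivariant order preserving map from the face poset of the box complex
`B_0(G)` (ordered by inclusion of both parts, the sign change exchanges the parts) to the poset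
`{±1, …, ±m}` in which `x < y` means `|x| < |y|`. -/
def HasCrossMap {n : ℕ} (G : SimpleGraph (Fin n)) (m : ℕ) : Prop :=
  ∃ lab : Finset (Fin n) → Finset (Fin n) → ℤ,
    (∀ A B, IsBox G A B → lab A B ≠ 0 ∧ |lab A B| ≤ m ∧ lab B A = - lab A B) ∧
    ∀ A B A' B', IsBox G A B → IsBox G A' B' → A ⊆ A' → B ⊆ B' →
      |lab A B| < |lab A' B'| ∨ lab A B = lab A' B'

/-- One plus the cross-index of the box complex `B_0(G)`. It is at least one plus the topological
index of `B_0(G)` and at most the chromatic number. -/
noncomputable def crossLevel {n : ℕ} (G : SimpleGraph (Fin n)) : ℕ :=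
  sInf {m | HasCrossMap G m}

end Run7.h728
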