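import Mathlib
import Pool.Agent.Run7.h728.Basic
import Pool.Agent.Run7.h728.CrossDefs
import Pool.Agent.Run7.h728.HalfGraph

set_option autoImplicit false

open Finset

namespace Run7.h728

variable {n : ℕ}

/-- the part of the pair `(A, B)` with sign `s` -/
def side (A B : Finset (Fin n)) (s : Bool) : Finset (Fin n) := if s then A else B

/-- there is an alternating chain with `m` members starting with sign `s` -/
def AltChain (g : Fin n → ℕ) (A B : Finset (Fin n)) (s : Bool) (m : ℕ) : Prop :=
  ∃ x : ℕ → Fin n, (∀ i, i < m → x i ∈ side A B (if Even i then s else !s)) ∧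
    ∀ i j, i < j → j < m → g (x i) < g (x j)

lemma altChain_mono {g : Fin n → ℕ} {A B A' B' : Finset (Fin n)} {s : Bool} {m : ℕ}
    (hA : A ⊆ A') (hB : B ⊆ B') (h : AltChain g A B s m) : AltChain g A' B' s m := by
  obtain ⟨x, h1, h2⟩ := h
  refine ⟨x, fun i hi => ?_, h2⟩
  have := h1 i hi
  generalize (if Even i then s else !s) = s' at this ⊢
  cases s'
  · exact hB this
  · exact hA this

lemma altChain_swap {g : Fin n → ℕ} {A B : Finset (Fin n)} {s : Bool} {m : ℕ}
    (h : AltChain g A B s m) : AltChain g B A (!s) m := by
  obtain ⟨x, h1, h2⟩ := h
  refine ⟨x, fun i hi => ?_, h2⟩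
  have := h1 i hi
  by_cases he : Even i
  · simp only [he, if_true] at this ⊢
    cases s <;> simpa [side] using this
  · simp only [he, if_false] at this ⊢
    cases s <;> simpa [side] using this

lemma altChain_drop {g : Fin n → ℕ} {A B : Finset (Fin n)} {s : Bool} {m : ℕ}
    (h : AltChain g A B s (m + 1)) : AltChain g A B (!s) m := by
  obtain ⟨x, h1, h2⟩ := h
  refine ⟨fun i => x (i + 1), fun i hi => ?_, fun i j hij hj => h2 _ _ (by omega) (by omega)⟩
  have h3 := h1 (i + 1) (by omega)
  by_cases he : Even i
  · have h' : ¬ Even (i + 1) := by rw [Nat.even_add_one]; exact not_not.mpr he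
    rw [if_neg h'] at h3
    rw [if_pos he]
    exact h3
  · have h' : Even (i + 1) := by rw [Nat.even_add_one]; exact he
    rw [if_pos h'] at h3
    rw [if_neg he, Bool.not_not]
    exact h3

lemma altChain_prepend {g : Fin n → ℕ} {A B : Finset (Fin n)} {s : Bool} {m : ℕ}
    (h : AltChain g A B (!s) m) (v : Fin n) (hv : v ∈ side A B s)
    (hmin : ∀ w ∈ side A B (!s), g v < g w) : AltChain g A B s (m + 1) := by
  obtain ⟨x, h1, h2⟩ := h
  refine ⟨fun i => if i = 0 then v else x (i - 1), fun i hi => ?_, fun i j hij hj => ?_⟩
  · rcases Nat.eq_zero_or_pos i with h0 | h0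
    · subst h0; simpa using hv
    · obtain ⟨i, rfl⟩ := Nat.exists_eq_succ_of_ne_zero h0.ne'
      have h3 := h1 i (by omega)
      show (if i + 1 = 0 then v else x (i + 1 - 1)) ∈ side A B (if Even (i + 1) then s else !s)
      rw [if_neg (Nat.succ_ne_zero i), Nat.add_sub_cancel]
      by_cases he : Even i
      · have h' : ¬ Even (i + 1) := by rw [Nat.even_add_one]; exact not_not.mpr he
        rw [if_neg h']
        rw [if_pos he] at h3
        exact h3
      · have h' : Even (i + 1) := by rw [Nat.even_add_one]; exact he
        rw [if_pos h']
        rw [if_neg he, Bool.not_not] at h3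
        exact h3
  · have hj0 : j ≠ 0 := by omega
    simp only [hj0, if_false]
    have hx0 : g v < g (x 0) := by
      apply hmin
      have := h1 0 (by omega)
      simpa using this
    rcases Nat.eq_zero_or_pos i with h0 | h0
    · simp only [h0, if_true]
      rcases Nat.eq_zero_or_pos (j - 1) with h3 | h3
      · rw [h3]; exact hx0
      · exact hx0.trans (h2 0 (j - 1) h3 (by omega))
    · simp only [h0.ne', if_false]
      exact h2 _ _ (by omega) (by omega)

open Classical in
/-- maximal length of an alternating chain with at most `K` members starting with sign `s` -/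
noncomputable def altLen (g : Fin n → ℕ) (K : ℕ) (A B : Finset (Fin n)) (s : Bool) : ℕ :=
  Nat.findGreatest (fun m => AltChain g A B s m) K

lemma altLen_spec {g : Fin n → ℕ} {K : ℕ} {A B : Finset (Fin n)} {s : Bool} [NeZero n] :
    AltChain g A B s (altLen g K A B s) := by
  classical
  unfold altLen
  exact Nat.findGreatest_spec (P := fun m => AltChain g A B s m) (Nat.zero_le K)
    ⟨fun _ => 0, fun i hi => absurd hi (Nat.not_lt_zero _), fun i j _ hj => absurd hj (Nat.not_lt_zero _)⟩

lemma altLen_le {g : Fin n → ℕ} {K : ℕ} {A B : Finset (Fin n)} {s : Bool} :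
    altLen g K A B s ≤ K := by
  classical
  exact Nat.findGreatest_le K

lemma le_altLen {g : Fin n → ℕ} {K : ℕ} {A B : Finset (Fin n)} {s : Bool} {m : ℕ} (hm : m ≤ K)
    (h : AltChain g A B s m) : m ≤ altLen g K A B s := by
  classical
  exact Nat.le_findGreatest hm h

/-- If alternating chains in simplices have at most `K` members, there is a cross map to
`{±1, …, ±K}`. -/
theorem hasCrossMap_of_bound (G : SimpleGraph (Fin n)) (g : Fin n → ℕ)
    (hg : Function.Injective g) (K : ℕ)
    (hK : ∀ A B s m, IsBox G A B → AltChain g A B s m → m ≤ K) : HasCrossMap G K := by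
  classical
  have hlen : ∀ A B, IsBox G A B →
      altLen g K A B true = altLen g K A B false + 1 ∨
      altLen g K A B false = altLen g K A B true + 1 := by
    intro A B hAB
    obtain ⟨v0, hv0⟩ := hAB.1
    have : NeZero n := ⟨by have := v0.2; omega⟩
    have hdrop : ∀ s, altLen g K A B s ≤ altLen g K A B (!s) + 1 := by
      intro s
      rcases Nat.eq_zero_or_pos (altLen g K A B s) with h0 | h0
      · omega
      · obtain ⟨m, hm⟩ := Nat.exists_eq_succ_of_ne_zero h0.ne'
        have h1 : AltChain g A B s (m + 1) := by
          have := altLen_spec (g := g) (K := K) (A := A) (B := B) (s := s)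
          rwa [hm] at this
        have h2 := altChain_drop h1
        have h3 : m ≤ K := by have := altLen_le (g := g) (K := K) (A := A) (B := B) (s := s); omega
        have h4 := le_altLen h3 h2
        omega
    -- the least element
    obtain ⟨v, hv, hvmin⟩ := Finset.exists_min_image (A ∪ B) g hAB.1
    have hdisj : ∀ w, w ∈ A → w ∈ B → False := fun w h1 h2 => (hAB.2 w h1 w h2).ne rfl
    have hprep : ∀ s, v ∈ side A B s → altLen g K A B (!s) + 1 ≤ altLen g K A B s := by
      intro s hs
      have h1 := altLen_spec (g := g) (K := K) (A := A) (B := B) (s := !s)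
      have h2 := altChain_prepend h1 v hs (by
        intro w hw
        have hwu : w ∈ A ∪ B := by
          cases s
          · exact mem_union_left _ hw
          · exact mem_union_right _ hw
        refine lt_of_le_of_ne (hvmin w hwu) ?_
        intro heq
        have := hg heq
        subst this
        cases s
        · exact hdisj v hw hs
        · exact hdisj v hs hw)
      have h3 := hK A B s _ hAB h2
      exact le_altLen h3 h2
    rcases mem_union.mp hv with h | h
    · left
      have e1 := hprep true h
      have e2 := hdrop true
      simp only [Bool.not_true] at e1 e2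
      omega
    · right
      have e1 := hprep false h
      have e2 := hdrop false
      simp only [Bool.not_false] at e1 e2
      omega
  refine ⟨fun A B => if altLen g K A B false < altLen g K A B true
    then (altLen g K A B true : ℤ) else -(altLen g K A B false : ℤ), ?_, ?_⟩
  · intro A B hAB
    have h1 := hlen A B hAB
    have hsw : ∀ s, altLen g K B A s = altLen g K A B (!s) := by
      intro s
      unfold altLen
      congr 1
      funext m
      apply propext
      constructor
      · intro h; exact altChain_swap h
      · intro h
        have := altChain_swap h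
        simpa using this
    have l1 := altLen_le (g := g) (K := K) (A := A) (B := B) (s := true)
    have l2 := altLen_le (g := g) (K := K) (A := A) (B := B) (s := false)
    have s1 := hsw true
    have s2 := hsw false
    simp only [Bool.not_true, Bool.not_false] at s1 s2
    dsimp only
    rw [s1, s2]
    rcases h1 with h1 | h1
    · have c1 : altLen g K A B false < altLen g K A B true := by omega
      have c2 : ¬ altLen g K A B true < altLen g K A B false := by omega
      rw [if_pos c1, if_neg c2]
      refine ⟨by omega, ?_, by omega⟩
      rw [abs_of_nonneg (by omega)]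
      omega
    · have c1 : altLen g K A B true < altLen g K A B false := by omega
      have c2 : ¬ altLen g K A B false < altLen g K A B true := by omega
      rw [if_neg c2, if_pos c1]
      refine ⟨by omega, ?_, by omega⟩
      rw [abs_neg, abs_of_nonneg (by omega)]
      omega
  · intro A B A' B' hAB hAB' hA hB
    have h1 := hlen A B hAB
    have h2 := hlen A' B' hAB'
    obtain ⟨v0, hv0⟩ := hAB.1
    have : NeZero n := ⟨by have := v0.2; omega⟩
    have hm : ∀ s, altLen g K A B s ≤ altLen g K A' B' s := by
      intro s
      exact le_altLen altLen_le (altChain_mono hA hB altLen_spec)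
    have m1 := hm true
    have m2 := hm false
    dsimp only
    split_ifs with c1 c2 c2
    · rcases Nat.lt_or_ge (altLen g K A B true) (altLen g K A' B' true) with h | h
      · left
        rw [abs_of_nonneg (by omega), abs_of_nonneg (by omega)]
        omega
      · right; omega
    · left
      rw [abs_neg, abs_of_nonneg (by omega), abs_of_nonneg (by omega)]
      omega
    · left
      rw [abs_neg, abs_of_nonneg (by omega), abs_of_nonneg (by omega)]
      omega
    · rcases Nat.lt_or_ge (altLen g K A B false) (altLen g K A' B' false) with h | h
      · left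
        rw [abs_neg, abs_neg, abs_of_nonneg (by omega), abs_of_nonneg (by omega)]
        omega
      · right; omega

end Run7.h728
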