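import Mathlib
import Pool.Agent.Run7.h728.Cross

set_option autoImplicit false

open Finset

namespace Run7.h728

variable {n : ℕ}

lemma lex_lt {n c c' f f' v v' M : ℕ} (hf : f < M) (hv : v < n) (h : c < c') :
    (c * M + f) * n + v < (c' * M + f') * n + v' := by
  have h1 : c * M + f + 1 ≤ c' * M := by
    calc c * M + f + 1 ≤ c * M + M := by omega
      _ = (c + 1) * M := by ring
      _ ≤ c' * M := by gcongr; omega
  calc (c * M + f) * n + v < (c * M + f) * n + n := by omega
    _ = (c * M + f + 1) * n := by ring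
    _ ≤ (c' * M) * n := by gcongr
    _ ≤ (c' * M + f') * n := by gcongr; omega
    _ ≤ (c' * M + f') * n + v' := by omega

lemma lex_lt' {n a b v v' : ℕ} (hv : v < n) (h : a < b) : a * n + v < b * n + v' := by
  calc a * n + v < a * n + n := by omega
    _ = (a + 1) * n := by ring
    _ ≤ b * n := by gcongr; omega
    _ ≤ b * n + v' := by omega

/-- Alternating chains in simplices of the box complex are short in a suitable order. -/
theorem cross_main (G : SimpleGraph (Fin n)) (q : ℕ) (hq : G.Colorable q) :
    HasCrossMap G (delta G * (4 * Nat.log 2 q + 3)) := by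
  classical
  obtain ⟨κ⟩ := hq
  set lam := Nat.log 2 q + 1 with hlam
  set h := 2 * lam with hh
  have hq2 : q ^ 2 < 2 ^ h := by
    have : q < 2 ^ lam := Nat.lt_pow_succ_log_self (by norm_num) q
    calc q ^ 2 < (2 ^ lam) ^ 2 := Nat.pow_lt_pow_left this (by norm_num)
      _ = 2 ^ h := by rw [← pow_mul, mul_comm]
  obtain ⟨R, hR1, hR2⟩ := exists_no_half q h (by omega) hq2
  set k := delta G with hk
  obtain ⟨c, hc⟩ := delta_spec G _ (pullback_orientation G κ (fun u v h => κ.valid h) R hR1)
  obtain ⟨f, hf⟩ := exists_height _ hc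
  obtain ⟨M, hM⟩ : ∃ M, ∀ v, f v < M :=
    ⟨univ.sup f + 1, fun v => Nat.lt_succ_of_le (Finset.le_sup (mem_univ v))⟩
  let g : Fin n → ℕ := fun v => ((c v : ℕ) * M + f v) * n + v
  have hginj : Function.Injective g := by
    intro u v huv
    have h1 : g u % n = g v % n := by rw [huv]
    simp only [g, Nat.mul_add_mod_self_right, Nat.mod_eq_of_lt u.2, Nat.mod_eq_of_lt v.2] at h1
    exact Fin.ext h1
  have hgc : ∀ u v, g u < g v → c u ≤ c v := by
    intro u v huv
    by_contra hcon
    rw [not_le] at hcon
    have : g v < g u := lex_lt (hM v) v.2 hcon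
    omega
  have hgf : ∀ u v, c u = c v → g u < g v → f u ≤ f v := by
    intro u v huv hguv
    by_contra hcon
    rw [not_le] at hcon
    have : g v < g u := by
      apply lex_lt' v.2
      rw [huv]
      omega
    omega
  -- adjacent vertices of the same class
  have hadj : ∀ u v, G.Adj u v → c u = c v → (R (κ u) (κ v) ↔ f u < f v) ∧ f u ≠ f v := by
    intro u v huv hcc
    have h1 := hR1 _ _ (κ.valid huv)
    by_cases h2 : R (κ u) (κ v)
    · have h3 := hf _ _ ⟨⟨huv, h2⟩, hcc⟩
      exact ⟨⟨fun _ => h3, fun _ => h2⟩, h3.ne⟩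
    · have h2' : R (κ v) (κ u) := by
        rcases h1 with h1 | h1
        · exact absurd h1.1 h2
        · exact h1.1
      have h3 := hf _ _ ⟨⟨huv.symm, h2'⟩, hcc.symm⟩
      exact ⟨⟨fun h => absurd h h2, fun h => absurd h (by omega)⟩, h3.ne'⟩
  refine hasCrossMap_of_bound G g hginj _ ?_
  intro A B s m hAB hch
  by_contra hcon
  rw [not_le] at hcon
  obtain ⟨x, hx1, hx2⟩ := hch
  have hhk : k * (4 * Nat.log 2 q + 3) = k * (2 * h - 1) := by
    congr 1; omega
  rw [hhk] at hcon
  have hpig : ∃ c0 ∈ (univ : Finset (Fin k)),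
      2 * h - 1 < ((range m).filter fun i => c (x i) = c0).card := by
    apply Finset.exists_lt_card_fiber_of_mul_lt_card_of_maps_to
    · intro a _; exact mem_univ _
    · rw [Finset.card_univ, Fintype.card_fin, card_range]; exact hcon
  obtain ⟨c0, -, hc0⟩ := hpig
  set S := (range m).filter fun i => c (x i) = c0 with hS
  have hSne : S.Nonempty := by rw [← Finset.card_pos]; omega
  set i0 := S.min' hSne with hi0
  set i1 := S.max' hSne with hi1
  have hi0S : i0 ∈ S := S.min'_mem hSne
  have hi1S : i1 ∈ S := S.max'_mem hSne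
  have hsub : S ⊆ Finset.Icc i0 i1 := by
    intro i hi
    exact mem_Icc.mpr ⟨S.min'_le i hi, S.le_max' i hi⟩
  have hcard := Finset.card_le_card hsub
  rw [Nat.card_Icc] at hcard
  have hi1m : i1 < m := mem_range.mp (mem_filter.mp hi1S).1
  have hlong : i0 + 2 * h ≤ i1 + 1 := by omega
  have hmono : ∀ i j, i ≤ j → j < m → c (x i) ≤ c (x j) := by
    intro i j hij hj
    rcases Nat.lt_or_ge i j with h | h
    · exact hgc _ _ (hx2 i j h hj)
    · have : i = j := by omega
      rw [this]
  have hclass : ∀ j, j < 2 * h → c (x (i0 + j)) = c0 := by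
    intro j hj
    apply le_antisymm
    · have := hmono (i0 + j) i1 (by omega) hi1m
      rwa [(mem_filter.mp hi1S).2] at this
    · have := hmono i0 (i0 + j) (by omega) (by omega)
      rwa [(mem_filter.mp hi0S).2] at this
  -- adjacency of members of opposite parity
  have hopp : ∀ i j, i < m → j < m → (Even i ↔ ¬ Even j) → G.Adj (x i) (x j) := by
    intro i j hi hj hpar
    have h1 := hx1 i hi
    have h2 := hx1 j hj
    by_cases he : Even i
    · have he' : ¬ Even j := hpar.mp he
      rw [if_pos he] at h1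
      rw [if_neg he'] at h2
      cases s
      · exact (hAB.2 _ h2 _ h1).symm
      · exact hAB.2 _ h1 _ h2
    · have he' : Even j := by
        by_contra hj'
        exact he (hpar.mpr hj')
      rw [if_neg he] at h1
      rw [if_pos he'] at h2
      cases s
      · exact hAB.2 _ h1 _ h2
      · exact (hAB.2 _ h2 _ h1).symm
  have hadj2 : ∀ u v : Fin h, G.Adj (x (i0 + 2 * u)) (x (i0 + (2 * v + 1))) := by
    intro u v
    have hu := u.2
    have hv := v.2
    apply hopp _ _ (by omega) (by omega)
    rw [Nat.even_add, Nat.even_add]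
    have e1 : Even (2 * (u : ℕ)) := even_two_mul _
    have e2 : ¬ Even (2 * (v : ℕ) + 1) := by
      rw [Nat.even_add_one, not_not]; exact even_two_mul _
    constructor
    · intro h
      intro h'
      exact e2 (h'.mp (h.mpr e1))
    · intro h
      by_contra h'
      apply h
      constructor
      · intro h3
        exact absurd ⟨fun _ => e1, fun _ => h3⟩ h'
      · intro h3
        exact absurd h3 e2
  refine hR2 (fun u => κ (x (i0 + 2 * u))) (fun v => κ (x (i0 + (2 * v + 1))))
    (fun u v => κ.valid (hadj2 u v)) ?_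
  intro u v
  have hu := u.2
  have hv := v.2
  have hcc : c (x (i0 + 2 * u)) = c (x (i0 + (2 * v + 1))) := by
    rw [hclass _ (by omega), hclass _ (by omega)]
  obtain ⟨e1, e2⟩ := hadj _ _ (hadj2 u v) hcc
  rw [e1]
  constructor
  · intro hlt
    by_contra hcon2
    rw [not_le] at hcon2
    have hvu : (v : ℕ) < u := hcon2
    have h3 := hx2 (i0 + (2 * v + 1)) (i0 + 2 * u) (by omega) (by omega)
    have h4 := hgf _ _ hcc.symm h3
    omega
  · intro hle
    have hvu : (u : ℕ) ≤ v := hle
    have h3 := hx2 (i0 + 2 * u) (i0 + (2 * v + 1)) (by omega) (by omega)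
    have h4 := hgf _ _ hcc h3
    omega

theorem crossLevel_le (G : SimpleGraph (Fin n)) (q : ℕ) (hq : G.Colorable q) :
    crossLevel G ≤ delta G * (4 * Nat.log 2 q + 3) := Nat.sInf_le (cross_main G q hq)

end Run7.h728
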