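import Mathlib
import Pool.Agent.Run7.h728.Defs
import Pool.Agent.Run7.h728.Tourn

set_option autoImplicit false

open Finset

namespace Run7.h728

open Classical in
/-- neighbours -/
noncomputable def nb {n : ℕ} (G : SimpleGraph (Fin n)) (v : Fin n) : Finset (Fin n) :=
  univ.filter fun u => G.Adj v u

open Classical in
lemma mem_nb {n : ℕ} {G : SimpleGraph (Fin n)} {u v : Fin n} : u ∈ nb G v ↔ G.Adj v u := by
  simp [nb]

/-- `r` directs the edges of `G` inside `U` acyclically -/
def Acy {n : ℕ} (G : SimpleGraph (Fin n)) (U : Finset (Fin n)) (r : Fin n × Fin n → Bool) : Prop :=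
  ∃ f : Fin n → ℕ, ∀ u ∈ U, ∀ v ∈ U, G.Adj u v → Rel r u v → f u < f v

open Classical in
/-- the edges of `G` inside `U` -/
noncomputable def edg {n : ℕ} (G : SimpleGraph (Fin n)) (U : Finset (Fin n)) :
    Finset (Fin n × Fin n) :=
  univ.filter fun k => k.1 < k.2 ∧ k.1 ∈ U ∧ k.2 ∈ U ∧ G.Adj k.1 k.2

open Classical in
lemma mem_edg {n : ℕ} {G : SimpleGraph (Fin n)} {U : Finset (Fin n)} {k : Fin n × Fin n} :
    k ∈ edg G U ↔ k.1 < k.2 ∧ k.1 ∈ U ∧ k.2 ∈ U ∧ G.Adj k.1 k.2 := by
  simp [edg]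

lemma rel_congr {n : ℕ} {G : SimpleGraph (Fin n)} {U : Finset (Fin n)}
    {r r' : Fin n × Fin n → Bool} (h : ∀ k ∈ edg G U, r k = r' k) {u v : Fin n}
    (hu : u ∈ U) (hv : v ∈ U) (hadj : G.Adj u v) : Rel r u v ↔ Rel r' u v := by
  unfold Rel
  rcases lt_or_gt_of_ne hadj.ne with h1 | h1
  · have h2 : ¬ v < u := not_lt.mpr h1.le
    rw [h (u, v) (mem_edg.mpr ⟨h1, hu, hv, hadj⟩)]
    simp [h1, h2]
  · have h2 : ¬ u < v := not_lt.mpr h1.le
    rw [h (v, u) (mem_edg.mpr ⟨h1, hv, hu, hadj.symm⟩)]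
    simp [h1, h2]

open Classical in
/-- out-degree inside `U` -/
noncomputable def outdeg {n : ℕ} (G : SimpleGraph (Fin n)) (U : Finset (Fin n))
    (r : Fin n × Fin n → Bool) (v : Fin n) : ℕ :=
  (U.filter fun w => G.Adj v w ∧ Rel r v w).card

open Classical in
lemma acyclic_unique {n : ℕ} (G : SimpleGraph (Fin n)) (U : Finset (Fin n))
    (r r' : Fin n × Fin n → Bool) (hr : Acy G U r)
    (hd : ∀ v ∈ U, outdeg G U r v = outdeg G U r' v) : ∀ k ∈ edg G U, r k = r' k := by
  obtain ⟨f, hf⟩ := hr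
  by_contra hcon
  push Not at hcon
  obtain ⟨k, hk, hne⟩ := hcon
  rw [mem_edg] at hk
  set R : Finset (Fin n × Fin n) := univ.filter fun p =>
    p.1 ∈ U ∧ p.2 ∈ U ∧ G.Adj p.1 p.2 ∧ Rel r p.1 p.2 ∧ Rel r' p.2 p.1 with hR
  have hRne : R.Nonempty := by
    have h2 : ¬ k.2 < k.1 := not_lt.mpr hk.1.le
    cases hrk : r k with
    | true =>
        refine ⟨k, ?_⟩
        rw [hR, mem_filter]
        refine ⟨mem_univ _, hk.2.1, hk.2.2.1, hk.2.2.2, ?_, ?_⟩
        · left; exact ⟨hk.1, hrk⟩
        · right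
          refine ⟨hk.1, ?_⟩
          have : r' k ≠ true := by rw [← hrk]; exact hne.symm
          simpa using this
    | false =>
        refine ⟨(k.2, k.1), ?_⟩
        rw [hR, mem_filter]
        refine ⟨mem_univ _, hk.2.2.1, hk.2.1, hk.2.2.2.symm, ?_, ?_⟩
        · right; exact ⟨hk.1, hrk⟩
        · left
          refine ⟨hk.1, ?_⟩
          have : r' k ≠ false := by rw [← hrk]; exact hne.symm
          simpa using this
  obtain ⟨p, hp, hmax⟩ := Finset.exists_max_image R (fun p => f p.2) hRne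
  rw [hR, mem_filter] at hp
  obtain ⟨-, hp1, hp2, hadj, hrel, hrel'⟩ := hp
  set A := U.filter fun w => G.Adj p.2 w ∧ Rel r p.2 w with hA
  set B := U.filter fun w => G.Adj p.2 w ∧ Rel r' p.2 w with hB
  have hAB : A.card = B.card := hd p.2 hp2
  have hpB : p.1 ∈ B := mem_filter.mpr ⟨hp1, hadj.symm, hrel'⟩
  have hpA : p.1 ∉ A := by
    intro h
    have h1 := (mem_filter.mp h).2.2
    have := rel_xor r hadj.ne
    rcases this with ⟨_, h2⟩ | ⟨_, h2⟩
    · exact h2 h1
    · exact h2 hrel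
  have hex : ∃ w ∈ A, w ∉ B := by
    by_contra hc
    push Not at hc
    have hsub : A ⊆ B := hc
    have := eq_of_subset_of_card_le hsub hAB.symm.le
    rw [this] at hpA
    exact hpA hpB
  obtain ⟨w, hwA, hwB⟩ := hex
  rw [hA, mem_filter] at hwA
  have hw' : Rel r' w p.2 := by
    have := rel_xor r' hwA.2.1.ne
    rcases this with ⟨h1, _⟩ | ⟨h1, _⟩
    · exact absurd (mem_filter.mpr ⟨hwA.1, hwA.2.1, h1⟩) hwB
    · exact h1
  have hmem : (p.2, w) ∈ R := by
    rw [hR, mem_filter]
    exact ⟨mem_univ _, hp2, hwA.1, hwA.2.1, hwA.2.2, hw'⟩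
  have h1 := hmax _ hmem
  have h2 := hf p.2 hp2 w hwA.1 hwA.2.1 hwA.2.2
  simp only at h1
  omega

open Classical in
lemma acy_card {n : ℕ} (G : SimpleGraph (Fin n)) (U : Finset (Fin n)) :
    (univ.filter fun r : Fin n × Fin n → Bool => Acy G U r).card
      ≤ (∏ v ∈ U, ((U.filter fun w => G.Adj v w).card + 1))
        * 2 ^ (Fintype.card (Fin n × Fin n) - (edg G U).card) := by
  set T : Finset ((Fin n → ℕ) × ({k : Fin n × Fin n // k ∉ edg G U} → Bool)) :=
    (Fintype.piFinset fun v => if v ∈ U then range ((U.filter fun w => G.Adj v w).card + 1)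
      else {0}) ×ˢ univ with hT
  have hTc : T.card = (∏ v ∈ U, ((U.filter fun w => G.Adj v w).card + 1))
        * 2 ^ (Fintype.card (Fin n × Fin n) - (edg G U).card) := by
    rw [hT, card_product, Fintype.card_piFinset, card_univ, Fintype.card_fun,
      Fintype.card_bool]
    congr 1
    · have : ∀ v : Fin n, (if v ∈ U then range ((U.filter fun w => G.Adj v w).card + 1)
          else {0}).card = if v ∈ U then (U.filter fun w => G.Adj v w).card + 1 else 1 := by
        intro v
        split_ifs <;> simp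
      simp only [this]
      rw [Finset.prod_ite_mem, univ_inter]
    · congr 1
      rw [Fintype.card_subtype_compl]
      simp
  rw [← hTc]
  apply Finset.card_le_card_of_injOn
    (fun r => ((fun v => if v ∈ U then outdeg G U r v else 0), fun k => r k.1))
  · intro r hr
    rw [hT]
    simp only [coe_product, Set.mem_prod, mem_coe, Fintype.mem_piFinset, mem_univ, and_true]
    intro v
    by_cases hv : v ∈ U
    · rw [if_pos hv, if_pos hv, mem_range]
      apply Nat.lt_succ_of_le
      apply card_le_card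
      intro w hw
      rw [mem_filter] at hw ⊢
      exact ⟨hw.1, hw.2.1⟩
    · rw [if_neg hv, if_neg hv, mem_singleton]
  · intro r hr r' hr' heq
    simp only [Prod.mk.injEq] at heq
    have hr1 : Acy G U r := by simpa using hr
    have h1 : ∀ v ∈ U, outdeg G U r v = outdeg G U r' v := by
      intro v hv
      have := congrFun heq.1 v
      simpa [hv] using this
    have h2 := acyclic_unique G U r r' hr1 h1
    funext k
    by_cases hk : k ∈ edg G U
    · exact h2 k hk
    · exact congrFun heq.2 ⟨k, hk⟩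

open Classical in
/-- handshake -/
lemma edg_card {n : ℕ} (G : SimpleGraph (Fin n)) (U : Finset (Fin n)) :
    ∑ v ∈ U, (U.filter fun w => G.Adj v w).card = 2 * (edg G U).card := by
  have h1 : ∑ v ∈ U, (U.filter fun w => G.Adj v w).card
      = ((U ×ˢ U).filter fun k => G.Adj k.1 k.2).card := by
    rw [card_filter, Finset.sum_product]
    apply Finset.sum_congr rfl
    intro v _
    rw [card_filter]
  have h2 : (U ×ˢ U).filter (fun k => G.Adj k.1 k.2)
      = edg G U ∪ (edg G U).image Prod.swap := by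
    ext ⟨a, b⟩
    simp only [mem_filter, mem_product, mem_union, mem_image, mem_edg, Prod.exists,
      Prod.swap_prod_mk, Prod.mk.injEq]
    constructor
    · rintro ⟨⟨ha, hb⟩, hadj⟩
      rcases lt_or_gt_of_ne hadj.ne with h | h
      · left; exact ⟨h, ha, hb, hadj⟩
      · right; exact ⟨b, a, ⟨h, hb, ha, hadj.symm⟩, rfl, rfl⟩
    · rintro (⟨_, ha, hb, hadj⟩ | ⟨x, y, ⟨_, hx, hy, hadj⟩, rfl, rfl⟩)
      · exact ⟨⟨ha, hb⟩, hadj⟩
      · exact ⟨⟨hy, hx⟩, hadj.symm⟩
  have h3 : Disjoint (edg G U) ((edg G U).image Prod.swap) := by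
    rw [Finset.disjoint_left]
    rintro ⟨a, b⟩ ha hb
    simp only [mem_image, Prod.exists, Prod.swap_prod_mk, Prod.mk.injEq] at hb
    obtain ⟨x, y, hxy, rfl, rfl⟩ := hb
    rw [mem_edg] at ha hxy
    exact absurd ha.1 (not_lt.mpr hxy.1.le)
  rw [h1, h2, card_union_of_disjoint h3,
    card_image_of_injective _ Prod.swap_injective]
  ring

/-- elementary inequality -/
lemma succ_pow_five (d : ℕ) (hd : 23 ≤ d) : (d + 1) ^ 5 ≤ 2 ^ d := by
  induction d, hd using Nat.le_induction with
  | base => norm_num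
  | succ d hd ih =>
      have h2 : (d + 1 + 1) * 24 ≤ (d + 1) * 25 := by omega
      have h3 : ((d + 1 + 1) * 24) ^ 5 ≤ ((d + 1) * 25) ^ 5 := Nat.pow_le_pow_left h2 5
      rw [mul_pow, mul_pow] at h3
      have h5 : (d + 1 + 1) ^ 5 * 24 ^ 5 ≤ (2 * (d + 1) ^ 5) * 24 ^ 5 := by
        calc (d + 1 + 1) ^ 5 * 24 ^ 5 ≤ (d + 1) ^ 5 * 25 ^ 5 := h3
          _ ≤ (d + 1) ^ 5 * (2 * 24 ^ 5) := by gcongr; norm_num
          _ = (2 * (d + 1) ^ 5) * 24 ^ 5 := by ring
      have h6 := Nat.le_of_mul_le_mul_right h5 (by positivity)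
      calc (d + 1 + 1) ^ 5 ≤ 2 * (d + 1) ^ 5 := h6
        _ ≤ 2 * 2 ^ d := by gcongr
        _ = 2 ^ (d + 1) := by ring

lemma exp_five_eighths : Real.exp (5 / 8) ≤ 2 := by
  have h1 : (5 : ℝ) / 8 ≤ Real.log 2 := by
    have := Real.log_two_gt_d9
    linarith
  calc Real.exp (5 / 8) ≤ Real.exp (Real.log 2) := Real.exp_le_exp.mpr h1
    _ = 2 := Real.exp_log (by norm_num)

open Classical in
/-- the probability bound needed for the local lemma -/
lemma acy_prob {n : ℕ} (G : SimpleGraph (Fin n)) (U : Finset (Fin n)) (q0 : ℕ)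
    (h35 : 23 ≤ 5 * q0)
    (hdeg : ∀ v ∈ U, 5 * q0 ≤ (U.filter fun w => G.Adj v w).card) :
    ((univ.filter fun r : Fin n × Fin n → Bool => Acy G U r).card : ℝ)
      ≤ (((1 : ℝ) / 2) ^ (q0 * U.card) * Real.exp (-(2 * ((edg G U).card * (1 / 16)))))
        * Fintype.card (Fin n × Fin n → Bool) := by
  set e := (edg G U).card with he
  set K := Fintype.card (Fin n × Fin n) with hK
  have heK : e ≤ K := card_le_univ _
  set P := ∏ v ∈ U, ((U.filter fun w => G.Adj v w).card + 1) with hP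
  have hPbound : (P * 2 ^ (q0 * U.card)) ^ 5 ≤ 2 ^ (4 * e) := by
    calc (P * 2 ^ (q0 * U.card)) ^ 5
        = ∏ v ∈ U, (((U.filter fun w => G.Adj v w).card + 1) ^ 5 * 2 ^ (5 * q0)) := by
          rw [Finset.prod_mul_distrib, Finset.prod_pow, Finset.prod_const, mul_pow, ← pow_mul,
            ← pow_mul]
          congr 2
          ring
      _ ≤ ∏ v ∈ U, 2 ^ (2 * (U.filter fun w => G.Adj v w).card) := by
          apply Finset.prod_le_prod'
          intro v hv
          have h1 := hdeg v hv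
          calc ((U.filter fun w => G.Adj v w).card + 1) ^ 5 * 2 ^ (5 * q0)
              ≤ 2 ^ (U.filter fun w => G.Adj v w).card
                * 2 ^ (U.filter fun w => G.Adj v w).card := by
                apply Nat.mul_le_mul
                · exact succ_pow_five _ (by omega)
                · exact Nat.pow_le_pow_right (by norm_num) h1
            _ = 2 ^ (2 * (U.filter fun w => G.Adj v w).card) := by
                rw [← pow_add]; congr 1; ring
      _ = 2 ^ (4 * e) := by
          rw [Finset.prod_pow_eq_pow_sum, ← Finset.mul_sum, edg_card]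
          congr 1; ring
  have hreal : (P : ℝ) * 2 ^ (q0 * U.card) ≤ 2 ^ e * Real.exp (-(2 * (e * (1 / 16)))) := by
    apply le_of_pow_le_pow_left₀ (n := 5) (by norm_num) (by positivity)
    calc ((P : ℝ) * 2 ^ (q0 * U.card)) ^ 5 ≤ 2 ^ (4 * e) := by exact_mod_cast hPbound
      _ ≤ (2 ^ e * Real.exp (-(2 * (e * (1 / 16))))) ^ 5 := by
          have h1 : (Real.exp (5 / 8)) ^ e ≤ 2 ^ e := by
            gcongr
            exact exp_five_eighths
          have h2 : (2 ^ e * Real.exp (-(2 * (e * (1 / 16))))) ^ 5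
              = (2 : ℝ) ^ (4 * e) * 2 ^ e * (Real.exp (5 / 8) ^ e)⁻¹ := by
            rw [mul_pow, ← Real.exp_nat_mul, ← Real.exp_nat_mul, ← Real.exp_neg, ← pow_mul,
              ← pow_add]
            congr 2
            · ring
            · push_cast; ring
          rw [h2]
          have h3 : 0 < Real.exp (5 / 8) ^ e := by positivity
          rw [mul_assoc]
          apply le_mul_of_one_le_right (by positivity)
          rw [← div_eq_mul_inv, le_div_iff₀ h3, one_mul]
          exact h1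
  have hcard := acy_card G U
  have hcardR : ((univ.filter fun r : Fin n × Fin n → Bool => Acy G U r).card : ℝ)
      ≤ P * 2 ^ (K - e) := by exact_mod_cast hcard
  have hKK : (Fintype.card (Fin n × Fin n → Bool) : ℝ) = 2 ^ e * 2 ^ (K - e) := by
    rw [Fintype.card_fun, Fintype.card_bool, ← hK, ← pow_add, Nat.add_sub_cancel' heK]
    push_cast; rfl
  rw [hKK]
  calc ((univ.filter fun r : Fin n × Fin n → Bool => Acy G U r).card : ℝ)
      ≤ P * 2 ^ (K - e) := hcardR
    _ = ((P : ℝ) * 2 ^ (q0 * U.card)) * ((1 / 2) ^ (q0 * U.card) * 2 ^ (K - e)) := by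
        have : (2 : ℝ) ^ (q0 * U.card) * (1 / 2) ^ (q0 * U.card) = 1 := by
          rw [← mul_pow]; norm_num
        calc (P : ℝ) * 2 ^ (K - e) = P * ((2 : ℝ) ^ (q0 * U.card) * (1 / 2) ^ (q0 * U.card))
            * 2 ^ (K - e) := by rw [this]; ring
          _ = _ := by ring
    _ ≤ (2 ^ e * Real.exp (-(2 * (e * (1 / 16))))) * ((1 / 2) ^ (q0 * U.card) * 2 ^ (K - e)) := by
        gcongr
    _ = _ := by ring

end Run7.h728
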