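import Mathlib

set_option autoImplicit false

open Finset

namespace Run7.h728

section
variable {V : Type*} [Fintype V] [DecidableEq V]

/-- supports of walks of length `L` from `v` -/
noncomputable def walkSets (N : V → Finset V) : ℕ → V → Finset (Finset V)
  | 0, v => {{v}}
  | L + 1, v => (N v).biUnion fun w => (walkSets N L w).image (insert v)

lemma walkSets_card (N : V → Finset V) (d : ℕ) (hd : ∀ v, (N v).card ≤ d) :
    ∀ L v, (walkSets N L v).card ≤ d ^ L := by
  intro L
  induction L with
  | zero => intro v; simp [walkSets]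
  | succ L ih =>
      intro v
      rw [walkSets]
      calc ((N v).biUnion fun w => (walkSets N L w).image (insert v)).card
          ≤ ∑ w ∈ N v, ((walkSets N L w).image (insert v)).card := card_biUnion_le
        _ ≤ ∑ w ∈ N v, d ^ L := by
            apply Finset.sum_le_sum
            intro w _
            exact (card_image_le).trans (ih w)
        _ = (N v).card * d ^ L := by simp
        _ ≤ d * d ^ L := Nat.mul_le_mul_right _ (hd v)
        _ = d ^ (L + 1) := by ring

lemma walkSets_detour (N : V → Finset V) (hN : ∀ u v, u ∈ N v → v ∈ N u) :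
    ∀ L v S a b, S ∈ walkSets N L v → a ∈ S → b ∈ N a → insert b S ∈ walkSets N (L + 2) v := by
  intro L
  induction L with
  | zero =>
      intro v S a b hS ha hb
      simp only [walkSets, mem_singleton] at hS
      subst hS
      rw [mem_singleton] at ha
      subst ha
      simp only [walkSets, mem_biUnion, mem_image, mem_singleton, exists_eq_left]
      refine ⟨b, hb, insert b {a}, ⟨a, hN _ _ hb, rfl⟩, ?_⟩
      ext x; simp
  | succ L ih =>
      intro v S a b hS ha hb
      have hS0 := hS
      rw [walkSets] at hS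
      simp only [mem_biUnion, mem_image] at hS
      obtain ⟨w, hw, S', hS', rfl⟩ := hS
      rw [walkSets]
      simp only [mem_biUnion, mem_image]
      rcases mem_insert.mp ha with rfl | ha'
      · refine ⟨b, hb, insert b (insert a S'), ?_, ?_⟩
        · rw [walkSets]
          simp only [mem_biUnion, mem_image]
          exact ⟨a, hN _ _ hb, insert a S', hS0, rfl⟩
        · ext x; simp only [mem_insert]; tauto
      · refine ⟨w, hw, insert b S', ih w S' a b hS' ha' hb, ?_⟩
        ext x; simp only [mem_insert]; tauto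

/-- connected finite sets, by cuts -/
def Conn (N : V → Finset V) (U : Finset V) : Prop :=
  ∀ S, S ⊆ U → S ≠ U → S.Nonempty → ∃ a ∈ S, ∃ b ∈ U, b ∉ S ∧ b ∈ N a

lemma conn_mem_walkSets (N : V → Finset V) (hN : ∀ u v, u ∈ N v → v ∈ N u)
    (U : Finset V) (hU : Conn N U) (v : V) (hv : v ∈ U) :
    U ∈ walkSets N (2 * (U.card - 1)) v := by
  have key : ∀ m, m + 1 ≤ U.card → ∃ S, S ⊆ U ∧ S.card = m + 1 ∧ v ∈ S ∧
      S ∈ walkSets N (2 * m) v := by
    intro m
    induction m with
    | zero =>
        intro _
        exact ⟨{v}, by simpa using hv, by simp, by simp, by simp [walkSets]⟩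
    | succ m ih =>
        intro hm
        obtain ⟨S, hSU, hSc, hvS, hS⟩ := ih (by omega)
        obtain ⟨a, ha, b, hbU, hbS, hb⟩ := hU S hSU (by rintro rfl; omega) ⟨v, hvS⟩
        refine ⟨insert b S, ?_, ?_, mem_insert_of_mem hvS, ?_⟩
        · intro x hx
          rcases mem_insert.mp hx with rfl | hx
          · exact hbU
          · exact hSU hx
        · rw [card_insert_of_notMem hbS, hSc]
        · have := walkSets_detour N hN (2 * m) v S a b hS ha hb
          have e : 2 * (m + 1) = 2 * m + 2 := by ring
          rw [e]; exact this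
  have hc : 0 < U.card := card_pos.mpr ⟨v, hv⟩
  obtain ⟨S, hSU, hSc, -, hS⟩ := key (U.card - 1) (by omega)
  have : S = U := eq_of_subset_of_card_le hSU (by omega)
  rw [this] at hS
  exact hS

/-- sum of small weights over the connected sets containing a vertex -/
lemma conn_weight (N : V → Finset V) (hN : ∀ u v, u ∈ N v → v ∈ N u) (lam : ℕ)
    (hd : ∀ v, (N v).card ≤ 2 ^ lam) (v : V) (𝒞 : Finset (Finset V))
    (h𝒞 : ∀ U ∈ 𝒞, Conn N U ∧ v ∈ U) :
    ∑ U ∈ 𝒞, ((1 : ℝ) / 2) ^ ((2 * lam + 5) * U.card) ≤ 1 / 16 := by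
  classical
  have hfib : ∑ U ∈ 𝒞, ((1 : ℝ) / 2) ^ ((2 * lam + 5) * U.card)
      = ∑ u ∈ range (Fintype.card V + 1), ∑ U ∈ 𝒞 with U.card = u,
          ((1 : ℝ) / 2) ^ ((2 * lam + 5) * U.card) := by
    rw [Finset.sum_fiberwise_of_maps_to]
    intro U _
    rw [mem_range]
    exact Nat.lt_succ_of_le (card_le_univ U)
  rw [hfib]
  have hterm : ∀ u ∈ range (Fintype.card V + 1), ∑ U ∈ 𝒞 with U.card = u,
          ((1 : ℝ) / 2) ^ ((2 * lam + 5) * U.card) ≤ if u = 0 then 0 else ((1 : ℝ) / 32) ^ u := by
    intro u _
    by_cases hu : u = 0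
    · rw [if_pos hu]
      apply le_of_eq
      apply Finset.sum_eq_zero
      intro U hU
      rw [mem_filter] at hU
      have := (h𝒞 U hU.1).2
      have h0 : 0 < U.card := card_pos.mpr ⟨v, this⟩
      omega
    · rw [if_neg hu]
      have hcard : (𝒞.filter fun U => U.card = u).card ≤ (2 ^ lam) ^ (2 * (u - 1)) := by
        refine le_trans (card_le_card ?_) (walkSets_card N (2 ^ lam) hd (2 * (u - 1)) v)
        intro U hU
        rw [mem_filter] at hU
        have := conn_mem_walkSets N hN U (h𝒞 U hU.1).1 v (h𝒞 U hU.1).2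
        rw [hU.2] at this
        exact this
      calc ∑ U ∈ 𝒞 with U.card = u, ((1 : ℝ) / 2) ^ ((2 * lam + 5) * U.card)
          = ∑ U ∈ 𝒞 with U.card = u, ((1 : ℝ) / 2) ^ ((2 * lam + 5) * u) := by
            apply Finset.sum_congr rfl
            intro U hU
            rw [(mem_filter.mp hU).2]
        _ = ((𝒞.filter fun U => U.card = u).card : ℝ) * ((1 : ℝ) / 2) ^ ((2 * lam + 5) * u) := by
            rw [Finset.sum_const, nsmul_eq_mul]
        _ ≤ ((2 : ℝ) ^ lam) ^ (2 * (u - 1)) * ((1 : ℝ) / 2) ^ ((2 * lam + 5) * u) := by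
            gcongr
            exact_mod_cast hcard
        _ ≤ ((2 : ℝ) ^ lam) ^ (2 * u) * ((1 : ℝ) / 2) ^ ((2 * lam + 5) * u) := by
            gcongr
            · exact one_le_pow₀ (by norm_num)
            · omega
        _ = ((1 : ℝ) / 32) ^ u := by
            have h1 : (2 * lam + 5) * u = lam * (2 * u) + 5 * u := by ring
            rw [← pow_mul, h1, pow_add, ← mul_assoc, ← mul_pow]
            norm_num [pow_mul]
  refine (Finset.sum_le_sum hterm).trans ?_
  have hgeo : ∀ m : ℕ, ∑ u ∈ range (m + 1), (if u = 0 then (0 : ℝ) else ((1 : ℝ) / 32) ^ u)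
      ≤ 1 / 31 * (1 - (1 / 32) ^ m) := by
    intro m
    induction m with
    | zero => simp
    | succ m ih =>
        rw [Finset.sum_range_succ, if_neg (Nat.succ_ne_zero m)]
        have : (1 : ℝ) / 31 * (1 - (1 / 32) ^ m) + (1 / 32) ^ (m + 1)
            = 1 / 31 * (1 - (1 / 32) ^ (m + 1)) := by
          rw [pow_succ]; ring
        linarith
  refine (hgeo _).trans ?_
  have : (0 : ℝ) ≤ (1 / 32) ^ (Fintype.card V) := by positivity
  nlinarith

/-- every nonempty set contains a nonempty connected piece closed under adjacency in the set -/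
lemma exists_component (N : V → Finset V)
    (U : Finset V) (hU : U.Nonempty) :
    ∃ W, W ⊆ U ∧ W.Nonempty ∧ Conn N W ∧ ∀ a ∈ W, ∀ b ∈ U, b ∈ N a → b ∈ W := by
  classical
  have hex : ((U.powerset).filter fun W => W.Nonempty ∧ ∀ a ∈ W, ∀ b ∈ U, b ∈ N a → b ∈ W).Nonempty :=
    ⟨U, by simp only [mem_filter, mem_powerset]; exact ⟨Subset.refl _, hU, fun a _ b hb _ => hb⟩⟩
  obtain ⟨W, hW, hmin⟩ := Finset.exists_min_image _ Finset.card hex
  simp only [mem_filter, mem_powerset] at hW hmin
  refine ⟨W, hW.1, hW.2.1, ?_, hW.2.2⟩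
  intro S hSW hne hS
  by_contra hcon
  push Not at hcon
  have h1 := hmin S ⟨hSW.trans hW.1, hS, ?_⟩
  · exact hne (eq_of_subset_of_card_le hSW h1)
  · intro a ha b hb hab
    by_contra hbS
    have hbW := hW.2.2 a (hSW ha) b hb hab
    exact hcon a ha b hbW hbS hab

/-- greedy colouring -/
lemma degenerate_color (N : V → Finset V) (hN : ∀ u v, u ∈ N v → v ∈ N u) (p : ℕ) (hp : 0 < p) :
    ∀ m (U : Finset V), U.card = m →
      (∀ W, W ⊆ U → W.Nonempty → ∃ v ∈ W, (W.filter fun u => u ∈ N v).card < p) →
      ∃ col : V → Fin p, ∀ u ∈ U, ∀ v ∈ U, u ≠ v → u ∈ N v → col u ≠ col v := by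
  classical
  intro m
  induction m with
  | zero =>
      intro U hU _
      rw [card_eq_zero] at hU
      subst hU
      exact ⟨fun _ => ⟨0, hp⟩, by simp⟩
  | succ m ih =>
      intro U hU h
      have hne : U.Nonempty := card_pos.mp (by omega)
      obtain ⟨v, hv, hlt⟩ := h U (Subset.refl _) hne
      obtain ⟨col, hcol⟩ := ih (U.erase v) (by rw [card_erase_of_mem hv]; omega)
        (fun W hW hWne => h W (hW.trans (erase_subset _ _)) hWne)
      have hfree : ∃ x : Fin p, x ∉ (U.filter fun u => u ∈ N v).image col := by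
        by_contra hcon
        push Not at hcon
        have h1 : (univ : Finset (Fin p)) ⊆ (U.filter fun u => u ∈ N v).image col :=
          fun x _ => hcon x
        have h2 := (card_le_card h1).trans card_image_le
        rw [card_univ, Fintype.card_fin] at h2
        omega
      obtain ⟨x, hx⟩ := hfree
      refine ⟨Function.update col v x, ?_⟩
      intro a ha b hb hab hadj
      by_cases hav : a = v
      · subst hav
        have hba : b ≠ a := fun e => hab e.symm
        rw [Function.update_self, Function.update_of_ne hba]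
        intro e
        apply hx
        rw [e]
        exact mem_image_of_mem _ (mem_filter.mpr ⟨hb, hN _ _ hadj⟩)
      · by_cases hbv : b = v
        · subst hbv
          rw [Function.update_self, Function.update_of_ne hav]
          intro e
          apply hx
          rw [← e]
          exact mem_image_of_mem _ (mem_filter.mpr ⟨ha, hadj⟩)
        · rw [Function.update_of_ne hav, Function.update_of_ne hbv]
          exact hcol a (mem_erase.mpr ⟨hav, ha⟩) b (mem_erase.mpr ⟨hbv, hb⟩) hab hadj

end

end Run7.h728
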