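import Mathlib
import Pool.Agent.Run7.h728.Defs
import Pool.Agent.Run7.h728.Basic
import Pool.Agent.Run7.h728.Tourn
import Pool.Agent.Run7.h728.DegWalk
import Pool.Agent.Run7.h728.DegCount
import Pool.Agent.Helper208.Rainbow.LLL

set_option autoImplicit false

open Finset

namespace Run7.h728

open Pool.Agent.Helper208.Rainbow

open Classical in
/-- every graph of maximum degree `≤ Δ` has an orientation all of whose acyclic vertex sets
induce sparse subgraphs -/
lemma exists_sparse_orientation {n : ℕ} (G : SimpleGraph (Fin n)) (lam : ℕ)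
    (hd : ∀ v, (nb G v).card ≤ 2 ^ lam) :
    ∃ r : Fin n × Fin n → Bool, ∀ U : Finset (Fin n), U.Nonempty → Acy G U r →
      ∃ v ∈ U, (U.filter fun u => G.Adj v u).card < 10 * lam + 25 := by
  set q0 := 2 * lam + 5 with hq0
  set Q : Finset (Fin n) → Prop := fun U => U.Nonempty ∧ Conn (nb G) U ∧
    ∀ v ∈ U, 5 * q0 ≤ (U.filter fun w => G.Adj v w).card with hQ
  have hNsymm : ∀ u v, u ∈ nb G v → v ∈ nb G u := by
    intro u v h
    rw [mem_nb] at h ⊢
    exact h.symm
  obtain ⟨r, hr⟩ := lll_exp (κ := Fin n × Fin n) (α := Bool)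
    (fun U : Finset (Fin n) => if Q U then
      univ.filter fun r : Fin n × Fin n → Bool => Acy G U r else ∅)
    (fun U => edg G U)
    (by
      intro U r r' h
      by_cases hU : Q U
      · rw [if_pos hU]
        simp only [mem_filter, mem_univ, true_and]
        constructor
        · rintro ⟨f, hf⟩
          refine ⟨f, fun u hu v hv hadj hrel => hf u hu v hv hadj ?_⟩
          exact (rel_congr h hu hv hadj).mpr hrel
        · rintro ⟨f, hf⟩
          refine ⟨f, fun u hu v hv hadj hrel => hf u hu v hv hadj ?_⟩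
          exact (rel_congr h hu hv hadj).mp hrel
      · rw [if_neg hU]; simp)
    (fun U => if Q U then ((1 : ℝ) / 2) ^ (q0 * U.card) else 0)
    (by intro U; split_ifs <;> positivity)
    (by
      intro U
      split_ifs with hU
      · have h1 : 1 ≤ q0 * U.card := Nat.mul_pos (by omega) (card_pos.mpr hU.1)
        calc ((1 : ℝ) / 2) ^ (q0 * U.card) ≤ (1 / 2) ^ 1 :=
              pow_le_pow_of_le_one (by norm_num) (by norm_num) h1
          _ = 1 / 2 := by norm_num
      · norm_num)
    (1 / 16)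
    (by
      intro k
      rw [← Finset.sum_filter]
      have h1 := conn_weight (nb G) hNsymm lam hd k.1
        ((univ.filter fun U => k ∈ edg G U).filter fun U => Q U)
        (by
          intro U hU
          rw [mem_filter, mem_filter] at hU
          exact ⟨hU.2.2.1, (mem_edg.mp hU.1.2).2.1⟩)
      exact h1)
    (by
      intro U
      by_cases hU : Q U
      · rw [if_pos hU, if_pos hU]
        exact acy_prob G U q0 (by omega) hU.2.2
      · rw [if_neg hU, if_neg hU]
        simp)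
  refine ⟨r, ?_⟩
  intro U hU hacy
  by_contra hcon
  push Not at hcon
  obtain ⟨W, hWU, hWne, hWc, hWcl⟩ := exists_component (nb G) U hU
  have hQW : Q W := by
    refine ⟨hWne, hWc, fun v hv => ?_⟩
    have h1 := hcon v (hWU hv)
    have h2 : (U.filter fun u => G.Adj v u) ⊆ W.filter fun u => G.Adj v u := by
      intro u hu
      rw [mem_filter] at hu ⊢
      exact ⟨hWcl v hv u hu.1 (mem_nb.mpr hu.2), hu.2⟩
    have h3 := card_le_card h2
    omega
  have h4 := hr W
  rw [if_pos hQW] at h4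
  apply h4
  rw [mem_filter]
  refine ⟨mem_univ _, ?_⟩
  obtain ⟨f, hf⟩ := hacy
  exact ⟨f, fun u hu v hv => hf u (hWU hu) v (hWU hv)⟩

open Classical in
theorem max_degree {n : ℕ} (G : SimpleGraph (Fin n)) (Δ : ℕ)
    (hdeg : ∀ v, (univ.filter fun u => G.Adj v u).card ≤ Δ) :
    (∃ D, IsOrientation G D ∧ ∀ U : Finset (Fin n), U.Nonempty →
      (∀ x, ¬ Relation.TransGen (fun u v => D u v ∧ u ∈ U ∧ v ∈ U) x x) →
      ∃ v ∈ U, (U.filter fun u => G.Adj v u).card < 10 * Nat.log 2 Δ + 35) ∧
    (∃ c : Fin n → Fin (delta G), ∀ U : Finset (Fin n), U.Nonempty →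
      (∀ u ∈ U, ∀ v ∈ U, c u = c v) →
      ∃ v ∈ U, (U.filter fun u => G.Adj v u).card < 10 * Nat.log 2 Δ + 35) ∧
    G.Colorable ((10 * Nat.log 2 Δ + 35) * delta G) := by
  have hd : ∀ v, (nb G v).card ≤ 2 ^ (Nat.log 2 Δ + 1) := by
    intro v
    exact (hdeg v).trans (Nat.lt_pow_succ_log_self (by norm_num) _).le
  obtain ⟨r, hr⟩ := exists_sparse_orientation G (Nat.log 2 Δ + 1) hd
  have hp : 10 * (Nat.log 2 Δ + 1) + 25 = 10 * Nat.log 2 Δ + 35 := by ring
  rw [hp] at hr
  have hor : IsOrientation G (fun u v => G.Adj u v ∧ Rel r u v) := by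
    refine ⟨fun u v h => h.1, fun u v h => ?_⟩
    have h1 := rel_xor r h.ne
    simpa [h, h.symm] using h1
  have h1 : ∀ U : Finset (Fin n), U.Nonempty →
      (∀ x, ¬ Relation.TransGen
        (fun u v => (G.Adj u v ∧ Rel r u v) ∧ u ∈ U ∧ v ∈ U) x x) →
      ∃ v ∈ U, (U.filter fun u => G.Adj v u).card < 10 * Nat.log 2 Δ + 35 := by
    intro U hU hac
    apply hr U hU
    obtain ⟨f, hf⟩ := exists_height _ hac
    exact ⟨f, fun u hu v hv hadj hrel => hf u v ⟨⟨hadj, hrel⟩, hu, hv⟩⟩
  have h2 : ∃ c : Fin n → Fin (delta G), ∀ U : Finset (Fin n), U.Nonempty →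
      (∀ u ∈ U, ∀ v ∈ U, c u = c v) →
      ∃ v ∈ U, (U.filter fun u => G.Adj v u).card < 10 * Nat.log 2 Δ + 35 := by
    obtain ⟨c, hc⟩ := delta_spec G _ hor
    obtain ⟨f, hf⟩ := exists_height _ hc
    refine ⟨c, fun U hU hmono => hr U hU ?_⟩
    exact ⟨f, fun u hu v hv hadj hrel => hf u v ⟨⟨hadj, hrel⟩, hmono u hu v hv⟩⟩
  refine ⟨⟨_, hor, h1⟩, h2, ?_⟩
  obtain ⟨c, hc⟩ := h2
  set p := 10 * Nat.log 2 Δ + 35 with hpdef
  have hcol : ∀ i : Fin (delta G), ∃ col : Fin n → Fin p,
      ∀ u ∈ univ.filter (fun v => c v = i), ∀ v ∈ univ.filter (fun v => c v = i), u ≠ v →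
        u ∈ nb G v → col u ≠ col v := by
    intro i
    have hNsymm : ∀ u v, u ∈ nb G v → v ∈ nb G u := by
      intro u v h
      rw [mem_nb] at h ⊢
      exact h.symm
    apply degenerate_color (nb G) hNsymm p (by omega) _ _ rfl
    intro W hW hWne
    obtain ⟨v, hv, hlt⟩ := hc W hWne (by
      intro u hu v hv
      have h1 := (mem_filter.mp (hW hu)).2
      have h2 := (mem_filter.mp (hW hv)).2
      rw [h1, h2])
    refine ⟨v, hv, ?_⟩
    have : (W.filter fun u => u ∈ nb G v) = W.filter fun u => G.Adj v u := by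
      ext u
      simp only [mem_filter, mem_nb]
    rw [this]
    exact hlt
  choose col hcol using hcol
  have hcolor : G.Coloring (Fin p × Fin (delta G)) :=
    SimpleGraph.Coloring.mk (fun v => (col (c v) v, c v)) (by
      intro u v hadj heq
      simp only [Prod.mk.injEq] at heq
      have h3 := hcol (c v) u (mem_filter.mpr ⟨mem_univ _, heq.2⟩) v
        (mem_filter.mpr ⟨mem_univ _, rfl⟩) hadj.ne (mem_nb.mpr hadj.symm)
      apply h3
      rw [← heq.1, heq.2])
  have := hcolor.colorable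
  rwa [Fintype.card_prod, Fintype.card_fin, Fintype.card_fin] at this

end Run7.h728
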